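import Mathlib

/-!
# Adding fresh orthonormal vectors to an inner product space
-/

open scoped InnerProductSpace

namespace Pool.Agent.Helper92.Theta

open Classical in
/-- Every real inner product space embeds into one with a prescribed fresh orthonormal family. -/
theorem exists_ext (V : Type) [NormedAddCommGroup V] [InnerProductSpace ℝ V] (ι : Type) :
    ∃ (H : Type) (_ : NormedAddCommGroup H) (_ : InnerProductSpace ℝ H) (e : V → H) (b : ι → H),
      (∀ x y, ⟪e x, e y⟫_ℝ = ⟪x, y⟫_ℝ) ∧ (∀ i j, ⟪b i, b j⟫_ℝ = if i = j then 1 else 0) ∧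
      (∀ x i, ⟪e x, b i⟫_ℝ = 0) ∧ (∀ x i, ⟪b i, e x⟫_ℝ = 0) := by
  refine ⟨WithLp 2 (V × lp (fun _ : ι => ℝ) 2), inferInstance, inferInstance,
    fun x => WithLp.toLp 2 (x, 0), fun i => WithLp.toLp 2 (0, lp.single 2 i (1 : ℝ)),
    ?_, ?_, ?_, ?_⟩
  · intro x y
    simp [WithLp.prod_inner_apply]
  · intro i j
    simp only [WithLp.prod_inner_apply, inner_zero_left, zero_add]
    rw [lp.inner_single_left, lp.single_apply]
    by_cases h : i = j
    · subst h; simp
    · rw [Pi.single_eq_of_ne h]; simp [h]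
  · intro x i
    simp [WithLp.prod_inner_apply]
  · intro x i
    simp [WithLp.prod_inner_apply]

/-- Every positive semidefinite matrix is a Gram matrix. -/
theorem exists_vectors {n : Type} [Fintype n] {Y : Matrix n n ℝ}
    (hY : Y.PosSemidef) : ∃ (m : ℕ) (y : n → EuclideanSpace ℝ (Fin m)),
      ∀ i j, ⟪y i, y j⟫_ℝ = Y i j := by
  obtain ⟨m, v, hv⟩ := Matrix.posSemidef_iff_eq_sum_vecMulVec.1 hY
  refine ⟨m, fun i => WithLp.toLp 2 (fun k => v k i), fun i j => ?_⟩
  rw [hv]
  simp [Matrix.sum_apply, Matrix.vecMulVec_apply, PiLp.inner_apply, mul_comm]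

/-- Gram matrices are positive semidefinite. -/
theorem gram_posSemidef {n : Type} [Fintype n] {H : Type} [NormedAddCommGroup H]
    [InnerProductSpace ℝ H] (y : n → H) :
    (Matrix.of fun i j => ⟪y i, y j⟫_ℝ : Matrix n n ℝ).PosSemidef :=
  Matrix.posSemidef_gram ℝ y

end Pool.Agent.Helper92.Theta
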