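import Mathlib
import Pool.Agent.Helper92.Theta.Ext

/-!
# The theta body, and cliques of eight vertices
-/

open scoped InnerProductSpace

namespace Pool.Agent.Helper92.Theta

/-- The theta body of a graph. -/
def TH {V : Type} (G : SimpleGraph V) : Set (V → ℝ) :=
  {x | ∃ Y : Matrix (Option V) (Option V) ℝ, Y.PosSemidef ∧ Y none none = 1 ∧
    (∀ i, Y none (some i) = x i ∧ Y (some i) (some i) = x i) ∧
    ∀ i j, G.Adj i j → Y (some i) (some j) = 0}

/-- The theta body through vectors. -/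
theorem th_iff {V : Type} [Fintype V] (G : SimpleGraph V) (x : V → ℝ) :
    x ∈ TH G ↔ ∃ (H : Type) (_ : NormedAddCommGroup H) (_ : InnerProductSpace ℝ H)
      (y₀ : H) (y : V → H), ⟪y₀, y₀⟫_ℝ = 1 ∧ (∀ i, ⟪y₀, y i⟫_ℝ = x i ∧ ⟪y i, y i⟫_ℝ = x i) ∧
      ∀ i j, G.Adj i j → ⟪y i, y j⟫_ℝ = 0 := by
  constructor
  · rintro ⟨Y, hY, h0, h1, h2⟩
    obtain ⟨m, y, hy⟩ := exists_vectors hY
    refine ⟨EuclideanSpace ℝ (Fin m), inferInstance, inferInstance, y none, fun i => y (some i),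
      ?_, fun i => ⟨?_, ?_⟩, fun i j hij => ?_⟩
    · rw [hy, h0]
    · rw [hy, (h1 i).1]
    · rw [hy, (h1 i).2]
    · rw [hy, h2 i j hij]
  · rintro ⟨H, _, _, y₀, y, h0, h1, h2⟩
    refine ⟨Matrix.of fun i j => ⟪(i.elim y₀ y : H), (j.elim y₀ y : H)⟫_ℝ, gram_posSemidef _,
      h0, fun i => ⟨(h1 i).1, (h1 i).2⟩, fun i j hij => h2 i j hij⟩

/-- Vectors of a clique of eight vertices add up to `y₀`. -/
theorem clique_sum {H : Type} [NormedAddCommGroup H] [InnerProductSpace ℝ H] {ι : Type}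
    [Fintype ι] (hc : Fintype.card ι = 8) (z : ι → H) (y₀ : H) (h0 : ⟪y₀, y₀⟫_ℝ = 1)
    (h1 : ∀ i, ⟪y₀, z i⟫_ℝ = 1 / 8) (h2 : ∀ i, ⟪z i, z i⟫_ℝ = 1 / 8)
    (h3 : ∀ i j, i ≠ j → ⟪z i, z j⟫_ℝ = 0) : ∑ i, z i = y₀ := by
  classical
  have h4 : ⟪∑ i, z i, ∑ i, z i⟫_ℝ = 1 := by
    rw [sum_inner]
    have : ∀ i ∈ (Finset.univ : Finset ι), ⟪z i, ∑ j, z j⟫_ℝ = 1 / 8 := by
      intro i _
      rw [inner_sum, Finset.sum_eq_single i]
      · exact h2 i
      · intro j _ hj; exact h3 i j hj.symm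
      · intro h; exact absurd (Finset.mem_univ i) h
    rw [Finset.sum_congr rfl this, Finset.sum_const, Finset.card_univ, hc]
    norm_num
  have h5 : ⟪y₀, ∑ i, z i⟫_ℝ = 1 := by
    rw [inner_sum, Finset.sum_congr rfl (fun i _ => h1 i), Finset.sum_const, Finset.card_univ, hc]
    norm_num
  have h6 : ⟪(∑ i, z i) - y₀, (∑ i, z i) - y₀⟫_ℝ = 0 := by
    rw [inner_sub_left, inner_sub_right, inner_sub_right, h4, h0, real_inner_comm, h5]
    rw [real_inner_comm] at h5
    ring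
  rw [inner_self_eq_zero, sub_eq_zero] at h6
  exact h6

/-- Splitting vectors of norm square `m / 8` into `m` orthogonal vectors of norm square `1 / 8`. -/
theorem blowup {X Γ : Type} [DecidableEq X] (grp : X → Γ) (F : Γ → Finset X) (valid : X → Prop)
    (hF : ∀ x, valid x → x ∈ F (grp x)) (hF' : ∀ γ x, x ∈ F γ → grp x = γ)
    {H₀ : Type} [NormedAddCommGroup H₀] [InnerProductSpace ℝ H₀] (y₀ : H₀) (G : Γ → H₀)
    (h0 : ⟪y₀, y₀⟫_ℝ = 1)
    (hG : ∀ x, valid x → ⟪y₀, G (grp x)⟫_ℝ = (F (grp x)).card / 8)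
    (hG' : ∀ x, valid x → ⟪G (grp x), G (grp x)⟫_ℝ = (F (grp x)).card / 8) :
    ∃ (H : Type) (_ : NormedAddCommGroup H) (_ : InnerProductSpace ℝ H) (z₀ : H) (z : X → H),
      ⟪z₀, z₀⟫_ℝ = 1 ∧ (∀ x, valid x → ⟪z₀, z x⟫_ℝ = 1 / 8 ∧ ⟪z x, z x⟫_ℝ = 1 / 8) ∧
      ∀ x x', valid x → valid x' → x ≠ x' →
        (grp x = grp x' ∨ ⟪G (grp x), G (grp x')⟫_ℝ = 0) → ⟪z x, z x'⟫_ℝ = 0 := by
  classical
  obtain ⟨H, _, _, e, b, he, hb, heb, hbe⟩ := exists_ext H₀ X
  set B : Γ → H := fun γ => ∑ x ∈ F γ, b x with hB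
  set m : Γ → ℝ := fun γ => ((F γ).card : ℝ) with hm
  have hbB : ∀ x γ, ⟪b x, B γ⟫_ℝ = if x ∈ F γ then 1 else 0 := by
    intro x γ
    rw [hB, inner_sum]
    by_cases hx : x ∈ F γ
    · rw [if_pos hx, Finset.sum_eq_single x]
      · rw [hb, if_pos rfl]
      · intro j _ hj; rw [hb, if_neg (Ne.symm hj)]
      · intro h; exact absurd hx h
    · rw [if_neg hx]
      refine Finset.sum_eq_zero fun j hj => ?_
      rw [hb, if_neg]
      rintro rfl
      exact hx hj
  have hBb : ∀ x γ, ⟪B γ, b x⟫_ℝ = if x ∈ F γ then 1 else 0 := by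
    intro x γ
    rw [real_inner_comm, hbB]
  have hBB : ∀ γ, ⟪B γ, B γ⟫_ℝ = m γ := by
    intro γ
    conv_lhs => rw [hB]
    simp only
    rw [sum_inner]
    have : ∀ x ∈ F γ, ⟪b x, ∑ x ∈ F γ, b x⟫_ℝ = 1 := by
      intro x hx
      have := hbB x γ
      rw [if_pos hx] at this
      exact this
    rw [Finset.sum_congr rfl this]
    simp [hm]
  have hBB' : ∀ γ γ', γ ≠ γ' → ⟪B γ, B γ'⟫_ℝ = 0 := by
    intro γ γ' hne
    conv_lhs => rw [hB]
    simp only
    rw [sum_inner]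
    refine Finset.sum_eq_zero fun x hx => ?_
    have := hbB x γ'
    rw [if_neg] at this
    · exact this
    · intro hx'
      exact hne ((hF' γ x hx).symm.trans (hF' γ' x hx'))
  have heB : ∀ y γ, ⟪e y, B γ⟫_ℝ = 0 := by
    intro y γ
    rw [hB, inner_sum]
    exact Finset.sum_eq_zero fun x _ => heb y x
  have hBe : ∀ y γ, ⟪B γ, e y⟫_ℝ = 0 := by
    intro y γ
    rw [real_inner_comm, heB]
  have hmpos : ∀ x, valid x → 0 < m (grp x) := by
    intro x hx
    have := Finset.card_pos.2 ⟨x, hF x hx⟩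
    simp only [hm]
    exact_mod_cast this
  set r : ℝ := Real.sqrt (1 / 8) with hr
  have hr2 : r * r = 1 / 8 := Real.mul_self_sqrt (by norm_num)
  refine ⟨H, inferInstance, inferInstance, e y₀, fun x => (1 / m (grp x)) • e (G (grp x)) +
    r • (b x - (1 / m (grp x)) • B (grp x)), ?_, ?_, ?_⟩
  · rw [he, h0]
  · intro x hx
    have hmx := (hmpos x hx).ne'
    constructor
    · rw [inner_add_right, inner_smul_right, inner_smul_right, inner_sub_right, inner_smul_right,
        he, heb, heB, hG x hx]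
      change 1 / m (grp x) * (m (grp x) / 8) + _ = _
      field_simp
      ring
    · simp only [inner_add_left, inner_add_right, inner_smul_left, inner_smul_right,
        inner_sub_left, inner_sub_right, he, heb, hbe, heB, hBe, hBB, hbB, hBb, hb,
        if_pos (hF x hx), hG' x hx, RCLike.conj_to_real]
      have hcard : ((F (grp x)).card : ℝ) = m (grp x) := rfl
      rw [hcard]
      simp only [if_true]
      field_simp
      linear_combination (8 * m (grp x) ^ 2 - 8 * m (grp x)) * hr2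
  · intro x x' hx hx' hne hor
    have hmx := (hmpos x hx).ne'
    have hmx' := (hmpos x' hx').ne'
    by_cases hg : grp x = grp x'
    · have h1 : x ∈ F (grp x') := hg ▸ hF x hx
      simp only [hg]
      rw [hg] at hmx
      simp only [inner_add_left, inner_add_right, inner_smul_left, inner_smul_right,
        inner_sub_left, inner_sub_right, he, heb, hbe, heB, hBe, hBB, hbB, hBb, hb,
        if_pos (hF x' hx'), if_pos h1, if_neg hne, hG' x' hx', RCLike.conj_to_real]
      have hcard : ((F (grp x')).card : ℝ) = m (grp x') := rfl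
      rw [hcard]
      field_simp
      linear_combination (- 8 * m (grp x')) * hr2
    · have h1 : x ∉ F (grp x') := fun h => hg (hF' _ _ h)
      have h2 : x' ∉ F (grp x) := fun h => hg (hF' _ _ h).symm
      have h3 : ⟪G (grp x), G (grp x')⟫_ℝ = 0 := hor.resolve_left hg
      simp only [inner_add_left, inner_add_right, inner_smul_left, inner_smul_right,
        inner_sub_left, inner_sub_right, he, heb, hbe, heB, hBe, hBB' _ _ hg, hbB, hBb, hb,
        if_neg h1, if_neg h2, if_neg hne, h3, RCLike.conj_to_real]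
      ring

end Pool.Agent.Helper92.Theta
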