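import Mathlib
import Pool.Agent.Helper92.Theta.Blow

/-!
# Partial Gram matrices with entries `-1/2, 0, 1/2` and the vector `(1/8, …, 1/8)`
-/

open scoped InnerProductSpace

namespace Pool.Agent.Helper92.Theta

/-- The graph on `Fin n` whose edges are given by a list of pairs. -/
def graphOf (n : ℕ) (E : List (ℕ × ℕ)) : SimpleGraph (Fin n) where
  Adj i j := i ≠ j ∧ (((i : ℕ), (j : ℕ)) ∈ E ∨ ((j : ℕ), (i : ℕ)) ∈ E)
  symm := ⟨fun _ _ h => ⟨h.1.symm, h.2.symm⟩⟩
  loopless := ⟨fun _ h => h.1 rfl⟩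

/-- The graphs for which the vector with all entries `1 / 8` lies in the theta body. -/
def Theta8 : Set (ℕ × List (ℕ × ℕ)) :=
  {I | (fun _ => 1 / 8) ∈ TH (graphOf I.1 I.2)}

/-- Names of unit vectors. -/
abbrev Nm : Type := ℕ × ℕ × ℕ

/-- A constraint `(p, q, t)`: the unit vectors named `p` and `q` have inner product `t / 2 - 1`. -/
abbrev Cst : Type := Nm × Nm × ℕ

/-- The constraints are satisfied by unit vectors. -/
def GSat (C : List Cst) : Prop :=
  ∃ (H : Type) (_ : NormedAddCommGroup H) (_ : InnerProductSpace ℝ H) (u : Nm → H),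
    (∀ p, ⟪u p, u p⟫_ℝ = 1) ∧ ∀ c ∈ C, ⟪u c.1, u c.2.1⟫_ℝ = (c.2.2 : ℝ) / 2 - 1

/-- Names of vertices. -/
abbrev VN : Type := Bool × Cst × Bool × ℕ

instance : DecidableEq VN := instDecidableEqProd

/-- The vertices that belong to a unit vector. -/
def uv (p : Nm) (s : Bool) (i : ℕ) : VN := (true, (p, (0, 0, 0), 0), s, i)

/-- The vertices that belong to a constraint. -/
def cv (c : Cst) (j : ℕ) : VN := (false, c, true, j)

/-- Adjacency in one direction. -/
def vbase (x y : VN) : Prop :=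
  (x.1 = true ∧ y.1 = true ∧ x.2.1 = y.2.1 ∧ ¬ (x.2.2 = y.2.2)) ∨
  (x.1 = false ∧ y.1 = false ∧ x.2.1 = y.2.1 ∧ ¬ (x.2.2 = y.2.2)) ∨
  (x.1 = false ∧ y.1 = true ∧ ((y.2.1.1 = x.2.1.1 ∧ y.2.2.1 = true) ∨
     (y.2.1.1 = x.2.1.2.1 ∧ y.2.2.1 = decide (x.2.2.2 < x.2.1.2.2))))

instance : DecidableRel vbase := fun x y => by unfold vbase; infer_instance

/-- Adjacency of names of vertices. -/
def vadj (x y : VN) : Prop := vbase x y ∨ vbase y x

instance : DecidableRel vadj := fun x y => by unfold vadj; infer_instance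

lemma vadj_symm {x y : VN} (h : vadj x y) : vadj y x := Or.symm h

lemma vbase_irrefl (x : VN) : ¬ vbase x x := by
  rintro (h | h | h)
  · exact h.2.2.2 rfl
  · exact h.2.2.2 rfl
  · rw [h.1] at h; simp at h

lemma vadj_irrefl (x : VN) : ¬ vadj x x := fun h => h.elim (vbase_irrefl x) (vbase_irrefl x)

/-- The adjacent pairs of positions in a list of names. -/
def edges (L : List VN) : List (ℕ × ℕ) :=
  (List.range L.length).flatMap fun i => ((List.range L.length).filter fun j =>
    decide (vadj ((L[i]?).getD (uv (0, 0, 0) true 0)) ((L[j]?).getD (uv (0, 0, 0) true 0)))).map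
      fun j => (i, j)

lemma mem_edges (L : List VN) (i j : Fin L.length) :
    ((i : ℕ), (j : ℕ)) ∈ edges L ↔ vadj L[i] L[j] := by
  unfold edges
  simp only [List.mem_flatMap, List.mem_range, List.mem_map, List.mem_filter, Prod.mk.injEq]
  constructor
  · rintro ⟨a, ha, b, ⟨hb, hab⟩, rfl, rfl⟩
    simpa using hab
  · intro h
    exact ⟨i, i.2, j, ⟨j.2, by simpa using h⟩, rfl, rfl⟩

/-- A system of vectors for a list of names of vertices. -/
theorem theta8_iff (L : List VN) : (L.length, edges L) ∈ Theta8 ↔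
    ∃ (H : Type) (_ : NormedAddCommGroup H) (_ : InnerProductSpace ℝ H) (z₀ : H) (z : VN → H),
      ⟪z₀, z₀⟫_ℝ = 1 ∧ (∀ x ∈ L, ⟪z₀, z x⟫_ℝ = 1 / 8 ∧ ⟪z x, z x⟫_ℝ = 1 / 8) ∧
      ∀ x ∈ L, ∀ x' ∈ L, vadj x x' → ⟪z x, z x'⟫_ℝ = 0 := by
  unfold Theta8
  rw [Set.mem_ofPred_eq, th_iff]
  constructor
  · rintro ⟨H, _, _, y₀, y, h0, h1, h2⟩
    refine ⟨H, inferInstance, inferInstance, y₀,
      fun x => if h : L.idxOf x < L.length then y ⟨L.idxOf x, h⟩ else 0, h0, ?_, ?_⟩
    · intro x hx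
      have h := List.idxOf_lt_length_iff.2 hx
      simp only [dif_pos h]
      exact h1 _
    · intro x hx x' hx' hadj
      have h := List.idxOf_lt_length_iff.2 hx
      have h' := List.idxOf_lt_length_iff.2 hx'
      simp only [dif_pos h, dif_pos h']
      refine h2 _ _ ⟨?_, Or.inl ?_⟩
      · intro heq
        have h3 : L.idxOf x = L.idxOf x' := congrArg Fin.val heq
        have h4 : x = x' := (List.idxOf_inj hx).1 h3
        subst h4
        exact vadj_irrefl x hadj
      · have h5 := (mem_edges L ⟨L.idxOf x, h⟩ ⟨L.idxOf x', h'⟩).2 (by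
          simpa using hadj)
        exact h5
  · rintro ⟨H, _, _, z₀, z, h0, h1, h2⟩
    refine ⟨H, inferInstance, inferInstance, z₀, fun i => z L[i], h0,
      fun i => h1 _ (List.getElem_mem _), ?_⟩
    rintro i j ⟨-, hE | hE⟩
    · exact h2 _ (List.getElem_mem _) _ (List.getElem_mem _) ((mem_edges L i j).1 hE)
    · exact h2 _ (List.getElem_mem _) _ (List.getElem_mem _) (vadj_symm ((mem_edges L j i).1 hE))

/-- The vertices for a list of constraints. -/
def vlist (C : List Cst) : List VN := C.flatMap fun c =>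
  (List.range 4).flatMap fun i =>
    [cv c i, uv c.1 true i, uv c.1 false i, uv c.2.1 true i, uv c.2.1 false i]

/-- The graph for a list of constraints. -/
def gadget (C : List Cst) : ℕ × List (ℕ × ℕ) := ((vlist C).length, edges (vlist C))

lemma mem_vlist (C : List Cst) (x : VN) : x ∈ vlist C ↔ ∃ c ∈ C, ∃ i < 4,
    x = cv c i ∨ x = uv c.1 true i ∨ x = uv c.1 false i ∨ x = uv c.2.1 true i ∨
      x = uv c.2.1 false i := by
  unfold vlist
  simp only [List.mem_flatMap, List.mem_range, List.mem_cons, List.not_mem_nil, or_false]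

/-- From the graph to unit vectors. -/
theorem gsat_of_gadget (C : List Cst) (hC : ∀ c ∈ C, c.2.2 ≤ 4) (h : gadget C ∈ Theta8) :
    GSat C := by
  obtain ⟨H, _, _, y₀, z, h0, h1, h2⟩ := (theta8_iff (vlist C)).1 h
  -- the names that occur
  set occ : Nm → Prop := fun p => ∀ s i, i < 4 → uv p s i ∈ vlist C with hocc
  have hocc1 : ∀ c ∈ C, occ c.1 := by
    intro c hc s i hi
    rw [mem_vlist]
    refine ⟨c, hc, i, hi, ?_⟩
    cases s <;> simp
  have hocc2 : ∀ c ∈ C, occ c.2.1 := by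
    intro c hc s i hi
    rw [mem_vlist]
    refine ⟨c, hc, i, hi, ?_⟩
    cases s <;> simp
  have hcv : ∀ c ∈ C, ∀ j < 4, cv c j ∈ vlist C := by
    intro c hc j hj
    rw [mem_vlist]
    exact ⟨c, hc, j, hj, Or.inl rfl⟩
  -- the halves
  set A : Nm → Bool → H := fun p s => ∑ i : Fin 4, z (uv p s i) with hA
  have hAsum : ∀ p, occ p → A p true + A p false = y₀ := by
    intro p hp
    have := clique_sum (ι := Fin 4 ⊕ Fin 4) (by simp) (fun x => match x with
      | .inl i => z (uv p true i)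
      | .inr i => z (uv p false i)) y₀ h0 ?_ ?_ ?_
    · rw [Fintype.sum_sum_type] at this
      exact this
    · rintro (i | i)
      · exact (h1 _ (hp _ _ i.2)).1
      · exact (h1 _ (hp _ _ i.2)).1
    · rintro (i | i)
      · exact (h1 _ (hp _ _ i.2)).2
      · exact (h1 _ (hp _ _ i.2)).2
    · rintro (i | i) (j | j) hij
      · refine h2 _ (hp _ _ i.2) _ (hp _ _ j.2) (Or.inl (Or.inl ⟨rfl, rfl, rfl, ?_⟩))
        intro h; apply hij
        simp only [uv, Prod.mk.injEq, true_and] at h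
        rw [Fin.ext h]
      · exact h2 _ (hp _ _ i.2) _ (hp _ _ j.2) (Or.inl (Or.inl ⟨rfl, rfl, rfl, by simp [uv]⟩))
      · exact h2 _ (hp _ _ i.2) _ (hp _ _ j.2) (Or.inl (Or.inl ⟨rfl, rfl, rfl, by simp [uv]⟩))
      · refine h2 _ (hp _ _ i.2) _ (hp _ _ j.2) (Or.inl (Or.inl ⟨rfl, rfl, rfl, ?_⟩))
        intro h; apply hij
        simp only [uv, Prod.mk.injEq, true_and] at h
        rw [Fin.ext h]
  have hAy : ∀ p, occ p → ∀ s, ⟪y₀, A p s⟫_ℝ = 1 / 2 := by
    intro p hp s
    rw [hA, inner_sum, Finset.sum_congr rfl (fun (i : Fin 4) _ => (h1 _ (hp s i i.2)).1)]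
    norm_num
  have hAA : ∀ p, occ p → ⟪A p true, A p true⟫_ℝ = 1 / 2 := by
    intro p hp
    conv_lhs => rw [hA]
    simp only
    rw [sum_inner, Finset.sum_congr rfl (g := fun _ => (1 / 8 : ℝ))]
    · norm_num
    · intro i _
      rw [inner_sum, Finset.sum_eq_single i]
      · exact (h1 _ (hp true i i.2)).2
      · intro j _ hj
        refine h2 _ (hp _ _ i.2) _ (hp _ _ j.2) (Or.inl (Or.inl ⟨rfl, rfl, rfl, ?_⟩))
        intro h; apply hj
        simp only [uv, Prod.mk.injEq, true_and] at h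
        rw [Fin.ext h]
      · intro h; exact absurd (Finset.mem_univ i) h
  have hcsum : ∀ c ∈ C, A c.1 true + ∑ j : Fin 4, z (cv c j) = y₀ := by
    intro c hc
    have := clique_sum (ι := Fin 4 ⊕ Fin 4) (by simp) (fun x => match x with
      | .inl i => z (uv c.1 true i)
      | .inr i => z (cv c i)) y₀ h0 ?_ ?_ ?_
    · rw [Fintype.sum_sum_type] at this
      exact this
    · rintro (i | i)
      · exact (h1 _ (hocc1 c hc _ _ i.2)).1
      · exact (h1 _ (hcv c hc _ i.2)).1
    · rintro (i | i)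
      · exact (h1 _ (hocc1 c hc _ _ i.2)).2
      · exact (h1 _ (hcv c hc _ i.2)).2
    · rintro (i | i) (j | j) hij
      · refine h2 _ (hocc1 c hc _ _ i.2) _ (hocc1 c hc _ _ j.2)
          (Or.inl (Or.inl ⟨rfl, rfl, rfl, ?_⟩))
        intro h; apply hij
        simp only [uv, Prod.mk.injEq, true_and] at h
        rw [Fin.ext h]
      · exact h2 _ (hocc1 c hc _ _ i.2) _ (hcv c hc _ j.2)
          (Or.inr (Or.inr (Or.inr ⟨rfl, rfl, Or.inl ⟨rfl, rfl⟩⟩)))
      · exact h2 _ (hcv c hc _ i.2) _ (hocc1 c hc _ _ j.2)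
          (Or.inl (Or.inr (Or.inr ⟨rfl, rfl, Or.inl ⟨rfl, rfl⟩⟩)))
      · refine h2 _ (hcv c hc _ i.2) _ (hcv c hc _ j.2)
          (Or.inl (Or.inr (Or.inl ⟨rfl, rfl, rfl, ?_⟩)))
        intro h; apply hij
        simp only [cv, Prod.mk.injEq, true_and] at h
        rw [Fin.ext h]
  -- the key computation
  have key : ∀ c ∈ C, ⟪A c.1 true, A c.2.1 true⟫_ℝ = (c.2.2 : ℝ) / 8 := by
    intro c hc
    have ht := hC c hc
    have e1 : A c.1 false = ∑ j : Fin 4, z (cv c j) := by
      have ha := hAsum _ (hocc1 c hc)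
      have hb := hcsum c hc
      rw [← hb] at ha
      exact add_left_cancel ha
    have e2 : ∀ j : Fin 4, ⟪z (cv c j), A c.2.1 false⟫_ℝ = if (j : ℕ) < c.2.2 then 1 / 8 else 0 := by
      intro j
      have hperp : ∀ s, s = decide ((j : ℕ) < c.2.2) → ⟪z (cv c j), A c.2.1 s⟫_ℝ = 0 := by
        intro s hs
        rw [hA, inner_sum]
        refine Finset.sum_eq_zero fun i _ => ?_
        exact h2 _ (hcv c hc _ j.2) _ (hocc2 c hc _ _ i.2)
          (Or.inl (Or.inr (Or.inr ⟨rfl, rfl, Or.inr ⟨rfl, hs⟩⟩)))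
      by_cases hj : (j : ℕ) < c.2.2
      · rw [if_pos hj]
        have h3 := hperp true (by simp [hj])
        have h4 : A c.2.1 false = y₀ - A c.2.1 true := by
          rw [← hAsum _ (hocc2 c hc)]; abel
        rw [h4, inner_sub_right, h3, real_inner_comm, (h1 _ (hcv c hc _ j.2)).1]
        ring
      · rw [if_neg hj]
        exact hperp false (by simp [hj])
    have e3 : ⟪A c.1 false, A c.2.1 false⟫_ℝ = (c.2.2 : ℝ) / 8 := by
      rw [e1, sum_inner, Finset.sum_congr rfl (fun j _ => e2 j)]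
      have : ∀ t : ℕ, t ≤ 4 → (∑ j : Fin 4, if (j : ℕ) < t then (1 / 8 : ℝ) else 0) = t / 8 := by
        intro t ht
        interval_cases t <;> simp [Fin.sum_univ_four] <;> norm_num
      exact this _ ht
    have e4 : A c.1 true = y₀ - A c.1 false := by
      rw [← hAsum _ (hocc1 c hc)]; abel
    have e5 : A c.2.1 true = y₀ - A c.2.1 false := by
      rw [← hAsum _ (hocc2 c hc)]; abel
    have e6 := hAy _ (hocc1 c hc) false
    have e7 := hAy _ (hocc2 c hc) false
    rw [e4, e5, inner_sub_left, inner_sub_right, inner_sub_right, h0, e3, e7,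
      real_inner_comm, e6]
    ring
  classical
  refine ⟨H, inferInstance, inferInstance,
    fun p => if occ p then (2 : ℝ) • A p true - y₀ else y₀, ?_, ?_⟩
  · intro p
    by_cases hp : occ p
    · simp only [if_pos hp]
      have e1 := hAA p hp
      have e2 := hAy p hp true
      have e3 : ⟪A p true, y₀⟫_ℝ = 1 / 2 := by rw [real_inner_comm]; exact e2
      simp only [inner_sub_left, inner_sub_right, inner_smul_left, inner_smul_right, e1, e2, e3,
        h0, RCLike.conj_to_real]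
      norm_num
    · simp only [if_neg hp]; exact h0
  · intro c hc
    simp only [if_pos (hocc1 c hc), if_pos (hocc2 c hc)]
    have e1 := key c hc
    have e2 := hAy _ (hocc2 c hc) true
    have e3 : ⟪A c.1 true, y₀⟫_ℝ = 1 / 2 := by
      rw [real_inner_comm]; exact hAy _ (hocc1 c hc) true
    simp only [inner_sub_left, inner_sub_right, inner_smul_left, inner_smul_right, e1, e2, e3,
      h0, RCLike.conj_to_real]
    ring

/-- The groups of vertices. -/
abbrev Grp : Type := (Nm × Bool) ⊕ (Cst × Bool)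

/-- The group of a vertex. -/
def grp (x : VN) : Grp :=
  bif x.1 then .inl (x.2.1.1, x.2.2.1) else .inr (x.2.1, decide (x.2.2.2 < x.2.1.2.2))

/-- The vertices of a group. -/
def grpF : Grp → Finset VN
  | .inl (p, s) => (Finset.range 4).image (uv p s)
  | .inr (c, s) => ((Finset.range 4).filter (fun j => decide (j < c.2.2) = s)).image (cv c)

lemma grp_uv (p : Nm) (s : Bool) (i : ℕ) : grp (uv p s i) = .inl (p, s) := rfl

lemma grp_cv (c : Cst) (j : ℕ) : grp (cv c j) = .inr (c, decide (j < c.2.2)) := rfl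

lemma uv_inj (p : Nm) (s : Bool) : Function.Injective (uv p s) := by
  intro i j h
  simpa [uv] using h

lemma cv_inj (c : Cst) : Function.Injective (cv c) := by
  intro i j h
  simpa [cv] using h

lemma card_inl (p : Nm) (s : Bool) : (grpF (.inl (p, s))).card = 4 := by
  change ((Finset.range 4).image (uv p s)).card = 4
  rw [Finset.card_image_of_injective _ (uv_inj p s), Finset.card_range]

lemma card_inr_true (c : Cst) (hc : c.2.2 ≤ 4) : (grpF (.inr (c, true))).card = c.2.2 := by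
  change (((Finset.range 4).filter (fun j => decide (j < c.2.2) = true)).image (cv c)).card = _
  rw [Finset.card_image_of_injective _ (cv_inj c)]
  have : (Finset.range 4).filter (fun j => decide (j < c.2.2) = true) = Finset.range c.2.2 := by
    ext j; simp; omega
  rw [this, Finset.card_range]

lemma card_inr_false (c : Cst) : (grpF (.inr (c, false))).card = 4 - c.2.2 := by
  change (((Finset.range 4).filter (fun j => decide (j < c.2.2) = false)).image (cv c)).card = _
  rw [Finset.card_image_of_injective _ (cv_inj c)]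
  have : (Finset.range 4).filter (fun j => decide (j < c.2.2) = false) = Finset.Ico c.2.2 4 := by
    ext j; simp; omega
  rw [this, Nat.card_Ico]

lemma grp_of_mem (γ : Grp) (x : VN) (h : x ∈ grpF γ) : grp x = γ := by
  rcases γ with ⟨p, s⟩ | ⟨c, s⟩
  · obtain ⟨i, -, rfl⟩ := Finset.mem_image.1 h
    rfl
  · obtain ⟨i, hi, rfl⟩ := Finset.mem_image.1 h
    rw [grp_cv, (Finset.mem_filter.1 hi).2]

/-- From unit vectors to the graph. -/
theorem gadget_of_gsat (C : List Cst) (hC : ∀ c ∈ C, c.2.2 ≤ 4) (h : GSat C) :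
    gadget C ∈ Theta8 := by
  obtain ⟨H, _, _, u, hu, hC'⟩ := h
  obtain ⟨H₁, _, _, e, b, he, hb, heb, hbe⟩ := exists_ext H (Option Cst)
  set w : Cst → ℝ := fun c => Real.sqrt ((c.2.2 : ℝ) * (4 - c.2.2) / 64) with hw
  have hw2 : ∀ c ∈ C, w c * w c = (c.2.2 : ℝ) * (4 - c.2.2) / 64 := by
    intro c hc
    have h1 : ((c.2.2 : ℕ) : ℝ) ≤ 4 := by exact_mod_cast hC c hc
    have h2 : (0 : ℝ) ≤ c.2.2 := Nat.cast_nonneg _
    refine Real.mul_self_sqrt ?_
    have := mul_nonneg h2 (sub_nonneg.2 h1)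
    positivity
  set G : Grp → H₁ := fun γ => match γ with
    | .inl (p, true) => (1 / 2 : ℝ) • b none + (1 / 2 : ℝ) • e (u p)
    | .inl (p, false) => (1 / 2 : ℝ) • b none + (-1 / 2 : ℝ) • e (u p)
    | .inr (c, true) => ((c.2.2 : ℝ) / 8) • b none + (-1 / 4 : ℝ) • (e (u c.1) + e (u c.2.1)) +
        (w c) • b (some c)
    | .inr (c, false) => ((4 - c.2.2 : ℝ) / 8) • b none +
        (-1 / 4 : ℝ) • (e (u c.1) - e (u c.2.1)) + (- w c) • b (some c) with hG
  have hbn : ∀ c : Cst, ⟪b none, b (some c)⟫_ℝ = 0 := fun c => by rw [hb]; simp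
  have hbn' : ∀ c : Cst, ⟪b (some c), b none⟫_ℝ = 0 := fun c => by rw [hb]; simp
  have hbb : ∀ x, ⟪b x, b x⟫_ℝ = 1 := fun x => by rw [hb]; simp
  have hκ : ∀ c ∈ C, ⟪u c.2.1, u c.1⟫_ℝ = (c.2.2 : ℝ) / 2 - 1 := by
    intro c hc; rw [real_inner_comm, hC' c hc]
  -- inner products with the base vector
  have i1 : ∀ p s, ⟪b none, G (.inl (p, s))⟫_ℝ = 1 / 2 := by
    intro p s
    cases s <;>
    simp only [hG, inner_add_right, inner_smul_right, hbb, hbe] <;> ring
  have i2 : ∀ c, ⟪b none, G (.inr (c, true))⟫_ℝ = (c.2.2 : ℝ) / 8 := by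
    intro c
    simp only [hG, inner_add_right, inner_smul_right, hbb, hbe, hbn]; ring
  have i3 : ∀ c, ⟪b none, G (.inr (c, false))⟫_ℝ = (4 - c.2.2 : ℝ) / 8 := by
    intro c
    simp only [hG, inner_add_right, inner_sub_right, inner_smul_right, hbb, hbe, hbn]; ring
  -- norms
  have n1 : ∀ p s, ⟪G (.inl (p, s)), G (.inl (p, s))⟫_ℝ = 1 / 2 := by
    intro p s
    cases s <;>
    simp only [hG, inner_add_right, inner_smul_right, inner_add_left, inner_smul_left, hbb, hbe,
      heb, he, hu, RCLike.conj_to_real] <;> norm_num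
  have n2 : ∀ c ∈ C, ⟪G (.inr (c, true)), G (.inr (c, true))⟫_ℝ = (c.2.2 : ℝ) / 8 := by
    intro c hc
    simp only [hG, inner_add_right, inner_smul_right, inner_add_left, inner_smul_left, hbb, hbe,
      heb, he, hu, RCLike.conj_to_real, hbn, hbn', hκ c hc, hC' c hc]
    linear_combination hw2 c hc
  have n3 : ∀ c ∈ C, ⟪G (.inr (c, false)), G (.inr (c, false))⟫_ℝ = (4 - c.2.2 : ℝ) / 8 := by
    intro c hc
    simp only [hG, inner_add_right, inner_smul_right, inner_add_left, inner_smul_left,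
      inner_sub_left, inner_sub_right, hbb, hbe,
      heb, he, hu, RCLike.conj_to_real, hbn, hbn', hκ c hc, hC' c hc]
    linear_combination hw2 c hc
  -- orthogonality
  have o1 : ∀ p, ⟪G (.inl (p, true)), G (.inl (p, false))⟫_ℝ = 0 := by
    intro p
    simp only [hG, inner_add_right, inner_smul_right, inner_add_left, inner_smul_left, hbb, hbe,
      heb, he, hu, RCLike.conj_to_real]
    norm_num
  have o2 : ∀ c ∈ C, ⟪G (.inr (c, true)), G (.inr (c, false))⟫_ℝ = 0 := by
    intro c hc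
    simp only [hG, inner_add_right, inner_smul_right, inner_add_left, inner_smul_left,
      inner_sub_left, inner_sub_right, hbb, hbe,
      heb, he, hu, RCLike.conj_to_real, hbn, hbn', hκ c hc, hC' c hc]
    linear_combination - hw2 c hc
  have o3 : ∀ c ∈ C, ∀ s, ⟪G (.inr (c, s)), G (.inl (c.1, true))⟫_ℝ = 0 := by
    intro c hc s
    cases s <;>
    simp only [hG, inner_add_right, inner_smul_right, inner_add_left, inner_smul_left,
      inner_sub_left, inner_sub_right, hbb, hbe,
      heb, he, hu, RCLike.conj_to_real, hbn, hbn', hκ c hc, hC' c hc] <;> ring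
  have o4 : ∀ c ∈ C, ∀ s, ⟪G (.inr (c, s)), G (.inl (c.2.1, s))⟫_ℝ = 0 := by
    intro c hc s
    cases s <;>
    simp only [hG, inner_add_right, inner_smul_right, inner_add_left, inner_smul_left,
      inner_sub_left, inner_sub_right, hbb, hbe,
      heb, he, hu, RCLike.conj_to_real, hbn, hbn', hκ c hc, hC' c hc] <;> ring
  -- vertices of the list
  have hval : ∀ x ∈ vlist C, (∃ c ∈ C, ∃ i < 4, x = cv c i) ∨ ∃ p s, ∃ i < 4, x = uv p s i := by
    intro x hx
    obtain ⟨c, hc, i, hi, h⟩ := (mem_vlist C x).1 hx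
    rcases h with h | h | h | h | h
    · exact Or.inl ⟨c, hc, i, hi, h⟩
    · exact Or.inr ⟨_, _, i, hi, h⟩
    · exact Or.inr ⟨_, _, i, hi, h⟩
    · exact Or.inr ⟨_, _, i, hi, h⟩
    · exact Or.inr ⟨_, _, i, hi, h⟩
  have hcard : ∀ x ∈ vlist C, ⟪b none, G (grp x)⟫_ℝ = ((grpF (grp x)).card : ℝ) / 8 ∧
      ⟪G (grp x), G (grp x)⟫_ℝ = ((grpF (grp x)).card : ℝ) / 8 := by
    intro x hx
    rcases hval x hx with ⟨c, hc, i, hi, rfl⟩ | ⟨p, s, i, hi, rfl⟩
    · rw [grp_cv]
      cases hd : decide (i < c.2.2)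
      · rw [card_inr_false, i3, n3 c hc, Nat.cast_sub (hC c hc)]
        exact ⟨by norm_num, by norm_num⟩
      · rw [card_inr_true c (hC c hc), i2, n2 c hc]
        exact ⟨rfl, rfl⟩
    · rw [grp_uv, card_inl, i1, n1]
      norm_num
  obtain ⟨H₂, _, _, z₀, z, hz0, hz1, hz2⟩ := blowup grp grpF (fun x => x ∈ vlist C)
    (by
      intro x hx
      rcases hval x hx with ⟨c, hc, i, hi, rfl⟩ | ⟨p, s, i, hi, rfl⟩
      · rw [grp_cv]
        exact Finset.mem_image.2 ⟨i, Finset.mem_filter.2 ⟨Finset.mem_range.2 hi, rfl⟩, rfl⟩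
      · rw [grp_uv]
        exact Finset.mem_image.2 ⟨i, Finset.mem_range.2 hi, rfl⟩)
    grp_of_mem (b none) G (hbb none) (fun x hx => (hcard x hx).1) (fun x hx => (hcard x hx).2)
  have hbase : ∀ x ∈ vlist C, ∀ x' ∈ vlist C, vbase x x' →
      (grp x = grp x' ∨ ⟪G (grp x), G (grp x')⟫_ℝ = 0) := by
    intro x hx x' hx' hadj
    rcases hadj with ⟨h1, h2, h3, -⟩ | ⟨h1, h2, h3, -⟩ | ⟨h1, h2, h3⟩
    · have g1 : grp x = .inl (x.2.1.1, x.2.2.1) := by simp [grp, h1]
      have g2 : grp x' = .inl (x.2.1.1, x'.2.2.1) := by simp [grp, h2, h3]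
      rw [g1, g2]
      cases x.2.2.1 <;> cases x'.2.2.1
      · exact Or.inl rfl
      · refine Or.inr ?_
        rw [real_inner_comm]; exact o1 _
      · exact Or.inr (o1 _)
      · exact Or.inl rfl
    · rcases hval x hx with ⟨c, hc, i, hi, rfl⟩ | ⟨p, s, i, hi, rfl⟩
      · rcases hval x' hx' with ⟨c', hc', i', hi', rfl⟩ | ⟨p, s, i', hi', rfl⟩
        · have h4 : c = c' := h3
          subst h4
          rw [grp_cv, grp_cv]
          cases decide (i < c.2.2) <;> cases decide (i' < c.2.2)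
          · exact Or.inl rfl
          · refine Or.inr ?_
            rw [real_inner_comm]; exact o2 _ hc
          · exact Or.inr (o2 _ hc)
          · exact Or.inl rfl
        · simp [uv] at h2
      · simp [uv] at h1
    · rcases hval x hx with ⟨c, hc, i, hi, rfl⟩ | ⟨p, s, i, hi, rfl⟩
      · have g2 : grp x' = .inl (x'.2.1.1, x'.2.2.1) := by simp [grp, h2]
        rw [g2, grp_cv]
        rcases h3 with ⟨h4, h5⟩ | ⟨h4, h5⟩
        · rw [h4, h5]; exact Or.inr (o3 c hc _)
        · rw [h4, h5]; exact Or.inr (o4 c hc _)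
      · simp [uv] at h1
  refine (theta8_iff (vlist C)).2 ⟨H₂, inferInstance, inferInstance, z₀, z, hz0, hz1, ?_⟩
  intro x hx x' hx' hadj
  have hne : x ≠ x' := by
    rintro rfl; exact vadj_irrefl x hadj
  refine hz2 x x' hx hx' hne ?_
  rcases hadj with h | h
  · exact hbase x hx x' hx' h
  · rcases hbase x' hx' x hx h with h | h
    · exact Or.inl h.symm
    · rw [real_inner_comm] at h; exact Or.inr h

/-- Satisfiability by unit vectors is a case of the theta body problem. -/
theorem gadget_iff (C : List Cst) (hC : ∀ c ∈ C, c.2.2 ≤ 4) : gadget C ∈ Theta8 ↔ GSat C :=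
  ⟨gsat_of_gadget C hC, gadget_of_gsat C hC⟩

end Pool.Agent.Helper92.Theta
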