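import Mathlib
import Pool.Agent.Helper92.Theta.Gad

/-!
# Linear equations between inner products of unit vectors, as partial Gram matrices
-/

open scoped InnerProductSpace

namespace Pool.Agent.Helper92.Theta

/-- A term `(s, j, a, b)` stands for `± 2 ^ j ⟪u a, u b⟫`. -/
abbrev Tm : Type := Bool × ℕ × ℕ × ℕ

/-- The sign. -/
def sg (s : Bool) : ℝ := bif s then 1 else -1

/-- The value of a term. -/
noncomputable def tval {H : Type} [NormedAddCommGroup H] [InnerProductSpace ℝ H] (u : ℕ → H)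
    (τ : Tm) : ℝ := sg τ.1 * 2 ^ τ.2.1 * ⟪u τ.2.2.1, u τ.2.2.2⟫_ℝ

/-- Unit vectors satisfy the equations. -/
def USat (E : List (List Tm)) : Prop :=
  ∃ (H : Type) (_ : NormedAddCommGroup H) (_ : InnerProductSpace ℝ H) (u : ℕ → H),
    (∀ a, ⟪u a, u a⟫_ℝ = 1) ∧ ∀ e ∈ E, (e.map (tval u)).sum = 0

/-- names -/
def vN : Nm := (0, 0, 0)
/-- names -/
def eN (c : ℕ) : Nm := (1, c, 0)
/-- names -/
def EN (i c : ℕ) : Nm := (2, i, c)
/-- names -/
def AN (a i : ℕ) : Nm := (3, a, i)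
/-- names -/
def TN (b : ℕ) : Nm := (4, b, 0)
/-- names -/
def gN (k m : ℕ) : Nm := (5, k, m)
/-- names -/
def SN (k m : ℕ) : Nm := (6, k, m)
/-- names -/
def hN (k m : ℕ) : Nm := (7, k, m)
/-- names -/
def sN (k m : ℕ) : Nm := (8, k, m)

/-- The constraints between the fixed vectors. -/
def baseC : List Cst :=
  [(vN, eN 0, 2), (vN, eN 1, 2), (vN, eN 2, 2), (vN, eN 3, 2), (eN 0, eN 1, 2), (eN 0, eN 2, 2),
    (eN 0, eN 3, 2), (eN 1, eN 2, 2), (eN 1, eN 3, 2), (eN 2, eN 3, 2)]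

/-- The constraints that halve inner products. -/
def chainC (a b i : ℕ) : List Cst :=
  [(AN a i, EN i 0, 2), (AN a i, EN i 1, 2), (AN a i, EN i 2, 2), (EN i 0, EN i 1, 2),
    (EN i 0, EN i 2, 2), (EN i 1, EN i 2, 2), (AN a (i + 1), AN a i, 3),
    (AN a (i + 1), EN i 0, 3), (AN a (i + 1), EN i 1, 3), (AN a (i + 1), EN i 2, 3),
    (EN i 0, AN b 0, 2), (EN i 1, AN b 0, 2), (EN i 2, AN b 0, 2)]

/-- The constraints of a term. -/
def termC (K k m : ℕ) (τ : Tm) : List Cst :=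
  [(AN τ.2.2.2 0, vN, 2), (AN τ.2.2.2 0, eN 2, 2), (AN τ.2.2.2 0, eN 3, 2),
    (TN τ.2.2.2, AN τ.2.2.2 0, 3), (TN τ.2.2.2, vN, 3), (TN τ.2.2.2, eN 2, 3),
    (TN τ.2.2.2, eN 3, 3),
    (AN τ.2.2.1 (K - τ.2.1), gN k m, 2), (AN τ.2.2.1 (K - τ.2.1), eN 0, 2),
    (AN τ.2.2.1 (K - τ.2.1), eN 1, 2), (gN k m, eN 0, 2), (gN k m, eN 1, 2),
    (SN k m, AN τ.2.2.1 (K - τ.2.1), 3), (SN k m, gN k m, 3), (SN k m, eN 0, 3),
    (SN k m, eN 1, 3), (SN k m, TN τ.2.2.2, 2),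
    (AN τ.2.2.1 (K - τ.2.1), vN, 2), (AN τ.2.2.1 (K - τ.2.1), eN 2, 2),
    (AN τ.2.2.1 (K - τ.2.1), eN 3, 2), (gN k m, AN τ.2.2.2 0, 2), (gN k m, eN 2, 2),
    (gN k m, eN 3, 2), (eN 0, AN τ.2.2.2 0, 2), (eN 1, AN τ.2.2.2 0, 2),
    (hN k (m + 1), hN k m, 2), (hN k (m + 1), gN k m, 2), (hN k (m + 1), eN 0, 2),
    (hN k m, gN k m, 2), (hN k m, eN 0, 2),
    (sN k m, hN k (m + 1), 3), (sN k m, hN k m, 1), (sN k m, gN k m, bif τ.1 then 1 else 3),
    (sN k m, eN 0, 3), (sN k m, vN, 2)]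

/-- A term that is not used. -/
def tm0 : Tm := (true, 0, 0, 0)

/-- The constraints of an equation. -/
def eqC (K k : ℕ) (e : List Tm) : List Cst :=
  (hN k 0, vN, 2) :: (hN k e.length, vN, 2) :: (List.range e.length).flatMap fun m =>
    termC K k m ((e[m]?).getD tm0) ++ (List.range K).flatMap fun i =>
      chainC ((e[m]?).getD tm0).2.2.1 ((e[m]?).getD tm0).2.2.2 i

/-- The constraints of a list of equations. -/
def linC (K : ℕ) (E : List (List Tm)) : List Cst :=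
  baseC ++ (List.range E.length).flatMap fun k => eqC K k ((E[k]?).getD [])

/-- A unit vector that is half of a sum of four orthonormal vectors. -/
theorem lin4 {H : Type} [NormedAddCommGroup H] [InnerProductSpace ℝ H] {x a b c d : H}
    {s t r q : ℝ} (hs : s * s = 1) (ht : t * t = 1) (hr : r * r = 1) (hq : q * q = 1)
    (hx : ⟪x, x⟫_ℝ = 1) (ha : ⟪a, a⟫_ℝ = 1) (hb : ⟪b, b⟫_ℝ = 1) (hc : ⟪c, c⟫_ℝ = 1)
    (hd : ⟪d, d⟫_ℝ = 1) (hab : ⟪a, b⟫_ℝ = 0) (hac : ⟪a, c⟫_ℝ = 0) (had : ⟪a, d⟫_ℝ = 0)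
    (hbc : ⟪b, c⟫_ℝ = 0) (hbd : ⟪b, d⟫_ℝ = 0) (hcd : ⟪c, d⟫_ℝ = 0)
    (xa : ⟪x, a⟫_ℝ = s / 2) (xb : ⟪x, b⟫_ℝ = t / 2) (xc : ⟪x, c⟫_ℝ = r / 2)
    (xd : ⟪x, d⟫_ℝ = q / 2) :
    x = (1 / 2 : ℝ) • (s • a + t • b + r • c + q • d) := by
  have h : ⟪x - (1 / 2 : ℝ) • (s • a + t • b + r • c + q • d),
      x - (1 / 2 : ℝ) • (s • a + t • b + r • c + q • d)⟫_ℝ = 0 := by
    have hba : ⟪b, a⟫_ℝ = 0 := by rw [real_inner_comm]; exact hab
    have hca : ⟪c, a⟫_ℝ = 0 := by rw [real_inner_comm]; exact hac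
    have hda : ⟪d, a⟫_ℝ = 0 := by rw [real_inner_comm]; exact had
    have hcb : ⟪c, b⟫_ℝ = 0 := by rw [real_inner_comm]; exact hbc
    have hdb : ⟪d, b⟫_ℝ = 0 := by rw [real_inner_comm]; exact hbd
    have hdc : ⟪d, c⟫_ℝ = 0 := by rw [real_inner_comm]; exact hcd
    have ax : ⟪a, x⟫_ℝ = s / 2 := by rw [real_inner_comm]; exact xa
    have bx : ⟪b, x⟫_ℝ = t / 2 := by rw [real_inner_comm]; exact xb
    have cx : ⟪c, x⟫_ℝ = r / 2 := by rw [real_inner_comm]; exact xc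
    have dx : ⟪d, x⟫_ℝ = q / 2 := by rw [real_inner_comm]; exact xd
    simp only [inner_sub_left, inner_sub_right, inner_add_left, inner_add_right, inner_smul_left,
      inner_smul_right, hx, ha, hb, hc, hd, hab, hac, had, hbc, hbd, hcd, hba, hca, hda, hcb, hdb,
      hdc, xa, xb, xc, xd, ax, bx, cx, dx, RCLike.conj_to_real]
    linear_combination (-1 / 4) * hs + (-1 / 4) * ht + (-1 / 4) * hr + (-1 / 4) * hq
  rw [inner_self_eq_zero, sub_eq_zero] at h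
  exact h

/-- The halving chain. -/
theorem chain_sound {H : Type} [NormedAddCommGroup H] [InnerProductSpace ℝ H] (u : Nm → H)
    (hu : ∀ p, ⟪u p, u p⟫_ℝ = 1) (K a b : ℕ)
    (h : ∀ i < K, ∀ c ∈ chainC a b i, ⟪u c.1, u c.2.1⟫_ℝ = (c.2.2 : ℝ) / 2 - 1) :
    ∀ i ≤ K, ⟪u (AN a i), u (AN b 0)⟫_ℝ = (1 / 2) ^ i * ⟪u (AN a 0), u (AN b 0)⟫_ℝ := by
  intro i
  induction i with
  | zero => intro _; simp
  | succ i ih =>
    intro hi
    have h1 := h i hi
    simp only [chainC, List.forall_mem_cons] at h1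
    obtain ⟨c1, c2, c3, c4, c5, c6, c7, c8, c9, c10, c11, c12, c13, -⟩ := h1
    norm_num at c1 c2 c3 c4 c5 c6 c7 c8 c9 c10 c11 c12 c13
    have h2 := lin4 (x := u (AN a (i + 1))) (a := u (AN a i)) (b := u (EN i 0)) (c := u (EN i 1))
      (d := u (EN i 2)) (s := 1) (t := 1) (r := 1) (q := 1) (by norm_num) (by norm_num)
      (by norm_num) (by norm_num) (hu _) (hu _) (hu _) (hu _) (hu _) c1 c2 c3 c4 c5 c6
      (by rw [c7]) (by rw [c8]) (by rw [c9]) (by rw [c10])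
    rw [h2]
    simp only [inner_smul_left, inner_add_left, c11, c12, c13, ih (by omega),
      RCLike.conj_to_real]
    ring

/-- The constraints of one term. -/
theorem term_sound {H : Type} [NormedAddCommGroup H] [InnerProductSpace ℝ H] (u : Nm → H)
    (hu : ∀ p, ⟪u p, u p⟫_ℝ = 1) (K k m : ℕ) (τ : Tm) (hτ : τ.2.1 ≤ K)
    (h0 : ∀ c ∈ baseC, ⟪u c.1, u c.2.1⟫_ℝ = (c.2.2 : ℝ) / 2 - 1)
    (h1 : ∀ c ∈ termC K k m τ, ⟪u c.1, u c.2.1⟫_ℝ = (c.2.2 : ℝ) / 2 - 1)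
    (h2 : ∀ i < K, ∀ c ∈ chainC τ.2.2.1 τ.2.2.2 i, ⟪u c.1, u c.2.1⟫_ℝ = (c.2.2 : ℝ) / 2 - 1) :
    ⟪u (hN k (m + 1)), u vN⟫_ℝ = ⟪u (hN k m), u vN⟫_ℝ -
      (1 / 2) ^ K * tval (fun a => u (AN a 0)) τ := by
  obtain ⟨σ, j, a, b⟩ := τ
  simp only [baseC, List.forall_mem_cons] at h0
  obtain ⟨b1, b2, b3, b4, b5, b6, b7, b8, b9, b10, -⟩ := h0
  simp only [termC, List.forall_mem_cons] at h1
  obtain ⟨t1, t2, t3, t4, t5, t6, t7, t8, t9, t10, t11, t12, t13, t14, t15, t16, t17, t18, t19,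
    t20, t21, t22, t23, t24, t25, t26, t27, t28, t29, t30, t31, t32, t33, t34, t35, -⟩ := h1
  norm_num at b1 b2 b3 b4 b5 b6 b7 b8 b9 b10
  norm_num at t1 t2 t3 t4 t5 t6 t7 t8 t9 t10 t11 t12 t13 t14 t15 t16 t17 t18 t19
  norm_num at t20 t21 t22 t23 t24 t25 t26 t27 t28 t29 t30 t31 t32 t34 t35
  have c0 := chain_sound u hu K a b h2 (K - j) (by omega)
  -- `T`
  have hT := lin4 (x := u (TN b)) (a := u (AN b 0)) (b := u vN) (c := u (eN 2))
      (d := u (eN 3)) (s := 1) (t := 1) (r := 1) (q := 1) (by norm_num) (by norm_num)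
      (by norm_num) (by norm_num) (hu _) (hu _) (hu _) (hu _) (hu _) t1 t2 t3 b3 b4 b10
      (by rw [t4]) (by rw [t5]) (by rw [t6]) (by rw [t7])
  have hS := lin4 (x := u (SN k m)) (a := u (AN a (K - j))) (b := u (gN k m)) (c := u (eN 0))
      (d := u (eN 1)) (s := 1) (t := 1) (r := 1) (q := 1) (by norm_num) (by norm_num)
      (by norm_num) (by norm_num) (hu _) (hu _) (hu _) (hu _) (hu _) t8 t9 t10 t11 t12 b5
      (by rw [t13]) (by rw [t14]) (by rw [t15]) (by rw [t16])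
  have hg : ⟪u (gN k m), u vN⟫_ℝ = - ((1 / 2) ^ (K - j) * ⟪u (AN a 0), u (AN b 0)⟫_ℝ) := by
    have e1 : ⟪u (eN 0), u vN⟫_ℝ = 0 := by rw [real_inner_comm]; exact b1
    have e2 : ⟪u (eN 1), u vN⟫_ℝ = 0 := by rw [real_inner_comm]; exact b2
    rw [hT, hS] at t17
    simp only [inner_smul_left, inner_smul_right, inner_add_left, inner_add_right, t18, t19, t20,
      t21, t22, t23, t24, t25, b6, b7, b8, b9, e1, e2, c0, RCLike.conj_to_real] at t17
    linarith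
  have hσ : sg σ * sg σ = 1 := by cases σ <;> simp [sg]
  have t33' : ⟪u (sN k m), u (gN k m)⟫_ℝ = (- sg σ) / 2 := by
    rw [t33]; cases σ <;> simp [sg] <;> norm_num
  have hs := lin4 (x := u (sN k m)) (a := u (hN k (m + 1))) (b := u (hN k m)) (c := u (gN k m))
      (d := u (eN 0)) (s := 1) (t := -1) (r := - sg σ) (q := 1) (by norm_num) (by norm_num)
      (by linarith) (by norm_num) (hu _) (hu _) (hu _) (hu _) (hu _) t26 t27 t28 t29 t30 t11
      (by rw [t31]) (by rw [t32]; norm_num) t33' (by rw [t34])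
  have e1 : ⟪u (eN 0), u vN⟫_ℝ = 0 := by rw [real_inner_comm]; exact b1
  rw [hs] at t35
  simp only [inner_smul_left, inner_add_left, e1, hg, RCLike.conj_to_real] at t35
  have hp : (1 / 2 : ℝ) ^ (K - j) = (1 / 2) ^ K * 2 ^ j := by
    have : K = (K - j) + j := by simp only at hτ; omega
    conv_rhs => rw [this, pow_add, mul_assoc, ← mul_pow]
    norm_num
  rw [hp] at t35
  simp only [tval]
  linarith

/-- Soundness. -/
theorem usat_of_lin (K : ℕ) (E : List (List Tm)) (hK : ∀ e ∈ E, ∀ τ ∈ e, τ.2.1 ≤ K)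
    (h : GSat (linC K E)) : USat E := by
  obtain ⟨H, _, _, u, hu, hC⟩ := h
  refine ⟨H, inferInstance, inferInstance, fun a => u (AN a 0), fun a => hu _, ?_⟩
  intro e he
  obtain ⟨k, hk, rfl⟩ := List.getElem_of_mem he
  have h0 : ∀ c ∈ baseC, ⟪u c.1, u c.2.1⟫_ℝ = (c.2.2 : ℝ) / 2 - 1 := fun c hc =>
    hC c (List.mem_append_left _ hc)
  have h1 : ∀ c ∈ eqC K k E[k], ⟪u c.1, u c.2.1⟫_ℝ = (c.2.2 : ℝ) / 2 - 1 := by
    intro c hc
    refine hC c (List.mem_append_right _ ?_)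
    rw [List.mem_flatMap]
    refine ⟨k, List.mem_range.2 hk, ?_⟩
    simpa [hk] using hc
  set e := E[k] with he'
  have h2 : ⟪u (hN k 0), u vN⟫_ℝ = 0 := by
    have := h1 (hN k 0, vN, 2) (by simp [eqC])
    norm_num at this
    exact this
  have h3 : ⟪u (hN k e.length), u vN⟫_ℝ = 0 := by
    have := h1 (hN k e.length, vN, 2) (by simp [eqC])
    norm_num at this
    exact this
  have h4 : ∀ m ≤ e.length, ⟪u (hN k m), u vN⟫_ℝ =
      - ((1 / 2) ^ K * ((e.take m).map (tval fun a => u (AN a 0))).sum) := by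
    intro m
    induction m with
    | zero => intro _; simp [h2]
    | succ m ih =>
      intro hm
      have h5 : ∀ c ∈ (termC K k m e[m] ++ (List.range K).flatMap fun i =>
          chainC e[m].2.2.1 e[m].2.2.2 i), ⟪u c.1, u c.2.1⟫_ℝ = (c.2.2 : ℝ) / 2 - 1 := by
        intro c hc
        refine h1 c (List.mem_cons_of_mem _ (List.mem_cons_of_mem _ ?_))
        rw [List.mem_flatMap]
        refine ⟨m, List.mem_range.2 hm, ?_⟩
        rw [List.getElem?_eq_getElem (by omega), Option.getD_some]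
        exact hc
      have h6 := term_sound u hu K k m e[m] (hK e he _ (List.getElem_mem _)) h0
        (fun c hc => h5 c (List.mem_append_left _ hc))
        (fun i hi c hc => h5 c (List.mem_append_right _ (List.mem_flatMap.2
          ⟨i, List.mem_range.2 hi, hc⟩)))
      rw [h6, ih (by omega), List.take_succ_eq_append_getElem (by omega), List.map_append,
        List.sum_append]
      simp only [List.map_cons, List.map_nil, List.sum_cons, List.sum_nil]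
      ring
  have h5 := h4 e.length le_rfl
  rw [h3, List.take_length] at h5
  have h6 : (1 / 2 : ℝ) ^ K ≠ 0 := by positivity
  have h7 : (1 / 2 : ℝ) ^ K * (e.map (tval fun a => u (AN a 0))).sum = 0 := by linarith
  exact (mul_eq_zero.1 h7).resolve_left h6

end Pool.Agent.Helper92.Theta
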