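import Mathlib
import Pool.Agent.Helper92.Theta.Lin

/-!
# Semidefinite feasibility and equations between inner products of unit vectors
-/

open scoped InnerProductSpace

namespace Pool.Agent.Helper92.Theta

/-- The natural number with the given binary digits, least significant digit first. -/
def bval : List Bool → ℕ
  | [] => 0
  | b :: l => (bif b then 1 else 0) + 2 * bval l

/-- Integers in binary: a sign (`true` for nonnegative) and the digits of the absolute value. -/
abbrev BInt : Type := Bool × List Bool

/-- The integer with a given binary representation. -/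
def ival (z : BInt) : ℤ := bif z.1 then (bval z.2 : ℤ) else - (bval z.2 : ℤ)

/-- The entry of a matrix that is given as a list of rows; missing entries are zero. -/
def entry (A : List (List BInt)) (i j : ℕ) : BInt := (((A[i]?).getD [])[j]?).getD (true, [])

/-- Instances of semidefinite feasibility: the size `n` and the list of the equations
`⟨A, X⟩ = b`. -/
abbrev SDP : Type := ℕ × List (List (List BInt) × BInt)

/-- The matrix `X` satisfies the equations of the instance `I`. -/
def Solves (I : SDP) (X : Matrix (Fin I.1) (Fin I.1) ℝ) : Prop :=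
  ∀ a ∈ I.2, ∑ i : Fin I.1, ∑ j : Fin I.1, (ival (entry a.1 i j) : ℝ) * X i j = ival a.2

/-- Exact semidefinite feasibility: is there a positive semidefinite real matrix `X` with
`⟨A, X⟩ = b` for all equations of the instance? -/
def SDPFeas : Set SDP :=
  {I | ∃ X : Matrix (Fin I.1) (Fin I.1) ℝ, X.PosSemidef ∧ Solves I X}

/-- Semidefinite feasibility with a bound on the diagonal. -/
def BFeas (N : ℕ) (I : SDP) : Prop :=
  ∃ X : Matrix (Fin I.1) (Fin I.1) ℝ, X.PosSemidef ∧ (∀ i, X i i ≤ 2 ^ (2 ^ N)) ∧ Solves I X

/-- names of vectors -/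
def xn (s : Bool) (i : ℕ) : ℕ := bif s then 4 * i + 1 else 4 * i + 2
/-- names of vectors -/
def gn (s : Bool) (l : ℕ) : ℕ := bif s then 4 * l + 3 else 4 * l + 4

/-- The terms for an integer in binary. -/
def bterms (c : BInt) (sh a b : ℕ) : List Tm :=
  ((List.range c.2.length).filter fun j => (c.2[j]?).getD false).map fun j => (c.1, j + sh, a, b)

/-- The negative of an integer. -/
def bneg (c : BInt) : BInt := (!c.1, c.2)

/-- The equations that define a number that may be doubly exponentially small. -/
def tauE (N : ℕ) : List (List Tm) :=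
  [(true, 0, gn true 0, 0), (true, 0, gn false 0, 0), (false, 0, 0, 0)] ::
  (List.range N).map fun l => [(true, 0, 0, 0), (true, 0, gn true l, gn false l),
    (false, 0, gn true (l + 1), 0), (false, 0, gn false (l + 1), 0)]

/-- The equation for an equation of the semidefinite system. -/
def eqE (N n : ℕ) (a : List (List BInt) × BInt) : List Tm :=
  ((List.range n).flatMap fun i => (List.range n).flatMap fun j =>
    bterms (entry a.1 i j) 0 (xn true i) (xn true j) ++
    (bterms (entry a.1 i j) 0 (xn true i) (xn false j) ++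
    (bterms (entry a.1 i j) 0 (xn false i) (xn true j) ++
    bterms (entry a.1 i j) 0 (xn false i) (xn false j)))) ++
  (bterms (bneg a.2) 1 (gn true N) 0 ++ bterms (bneg a.2) 1 (gn false N) 0)

/-- The equations for a semidefinite system. -/
def sdpE (N : ℕ) (I : SDP) : List (List Tm) := tauE N ++ I.2.map (eqE N I.1)

section values

variable {H : Type} [NormedAddCommGroup H] [InnerProductSpace ℝ H] (u : ℕ → H)

lemma bterms_val (c : BInt) (sh a b : ℕ) : ((bterms c sh a b).map (tval u)).sum =
    (ival c : ℝ) * 2 ^ sh * ⟪u a, u b⟫_ℝ := by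
  obtain ⟨s, l⟩ := c
  have key : ∀ (l : List Bool) (sh : ℕ), ((bterms (s, l) sh a b).map (tval u)).sum =
      sg s * (bval l : ℝ) * 2 ^ sh * ⟪u a, u b⟫_ℝ := by
    intro l
    induction l with
    | nil => intro sh; simp [bterms, bval]
    | cons x l ih =>
      intro sh
      have h1 : bterms (s, x :: l) sh a b = (bif x then [(s, sh, a, b)] else []) ++
          bterms (s, l) (sh + 1) a b := by
        simp only [bterms, List.length_cons, List.range_succ_eq_map, List.filter_cons,
          List.filter_map, List.getElem?_cons_zero, Option.getD_some]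
        have h2 : ((fun j => ((x :: l)[j]?).getD false) ∘ Nat.succ) = fun j =>
            (l[j]?).getD false := by
          funext j; simp
        rw [h2]
        cases x
        · simp only [Bool.false_eq_true, if_false, cond_false, List.nil_append, List.map_map]
          refine List.map_congr_left fun j _ => ?_
          simp only [Function.comp, Prod.mk.injEq, true_and, and_true]
          omega
        · simp only [if_true, cond_true, List.map_cons, List.map_map, List.cons_append,
            List.nil_append, zero_add]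
          congr 1
          refine List.map_congr_left fun j _ => ?_
          simp only [Function.comp, Prod.mk.injEq, true_and, and_true]
          omega
      rw [h1, List.map_append, List.sum_append, ih, bval]
      cases x
      · simp only [cond_false, List.map_nil, List.sum_nil]
        push_cast
        ring
      · simp only [cond_true, List.map_cons, List.map_nil, List.sum_cons, List.sum_nil, tval]
        push_cast
        ring
  rw [key]
  cases s <;> simp [ival, sg]

lemma sum_flatMap_range {α : Type} (f : ℕ → List α) (g : α → ℝ) (n : ℕ) :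
    (((List.range n).flatMap f).map g).sum = ∑ i : Fin n, ((f i).map g).sum := by
  induction n with
  | zero => simp
  | succ n ih =>
    rw [List.range_succ, List.flatMap_append, List.map_append, List.sum_append, ih,
      Fin.sum_univ_castSucc]
    simp

lemma ival_bneg (c : BInt) : (ival (bneg c) : ℝ) = - (ival c : ℝ) := by
  obtain ⟨s, l⟩ := c
  cases s <;> simp [ival, bneg]

lemma eqE_val (N n : ℕ) (a : List (List BInt) × BInt) : ((eqE N n a).map (tval u)).sum =
    (∑ i : Fin n, ∑ j : Fin n, (ival (entry a.1 i j) : ℝ) *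
      ⟪u (xn true i) + u (xn false i), u (xn true j) + u (xn false j)⟫_ℝ) -
    2 * ival a.2 * ⟪u (gn true N) + u (gn false N), u 0⟫_ℝ := by
  unfold eqE
  rw [List.map_append, List.sum_append, List.map_append, List.sum_append, bterms_val, bterms_val,
    sum_flatMap_range, ival_bneg, inner_add_left]
  have h : ∀ i : Fin n, (((List.range n).flatMap fun j =>
      bterms (entry a.1 i j) 0 (xn true i) (xn true j) ++
      (bterms (entry a.1 i j) 0 (xn true i) (xn false j) ++
      (bterms (entry a.1 i j) 0 (xn false i) (xn true j) ++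
      bterms (entry a.1 i j) 0 (xn false i) (xn false j)))).map (tval u)).sum =
      ∑ j : Fin n, (ival (entry a.1 i j) : ℝ) *
        ⟪u (xn true i) + u (xn false i), u (xn true j) + u (xn false j)⟫_ℝ := by
    intro i
    rw [sum_flatMap_range]
    refine Finset.sum_congr rfl fun j _ => ?_
    simp only [List.map_append, List.sum_append, bterms_val, inner_add_left, inner_add_right]
    ring
  rw [Finset.sum_congr rfl fun i _ => h i]
  ring

end values

/-- Soundness. -/
theorem sdp_of_usat (N : ℕ) (I : SDP) (h : USat (sdpE N I)) : I ∈ SDPFeas := by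
  obtain ⟨H, _, _, u, hu, hE⟩ := h
  set g : ℕ → H := fun l => (1 / 2 : ℝ) • (u (gn true l) + u (gn false l)) with hg
  set τ : ℕ → ℝ := fun l => ⟪g l, u 0⟫_ℝ with hτ
  have h0 : τ 0 = 1 / 2 := by
    have h1 := hE [(true, 0, gn true 0, 0), (true, 0, gn false 0, 0), (false, 0, 0, 0)]
      (by simp [sdpE, tauE])
    simp only [List.map_cons, List.map_nil, List.sum_cons, List.sum_nil, tval, sg, cond_true,
      cond_false, hu] at h1
    simp only [hτ, hg, inner_smul_left, inner_add_left, RCLike.conj_to_real]
    linarith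
  have h1 : ∀ l < N, τ (l + 1) = ⟪g l, g l⟫_ℝ := by
    intro l hl
    have h1 := hE [(true, 0, 0, 0), (true, 0, gn true l, gn false l),
      (false, 0, gn true (l + 1), 0), (false, 0, gn false (l + 1), 0)] (by
        refine List.mem_append_left _ (List.mem_cons_of_mem _ ?_)
        exact List.mem_map.2 ⟨l, List.mem_range.2 hl, rfl⟩)
    simp only [List.map_cons, List.map_nil, List.sum_cons, List.sum_nil, tval, sg, cond_true,
      cond_false, hu] at h1
    have h2 : ⟪u (gn false l), u (gn true l)⟫_ℝ = ⟪u (gn true l), u (gn false l)⟫_ℝ :=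
      real_inner_comm _ _
    simp only [hτ, hg, inner_smul_left, inner_smul_right, inner_add_left, inner_add_right, hu,
      RCLike.conj_to_real, h2]
    linarith
  have h2 : ∀ l ≤ N, 0 < τ l := by
    intro l
    induction l with
    | zero => intro _; rw [h0]; norm_num
    | succ l ih =>
      intro hl
      have h3 := ih (by omega)
      rw [h1 l (by omega)]
      have h4 : τ l * τ l ≤ ⟪g l, g l⟫_ℝ * ⟪u 0, u 0⟫_ℝ := real_inner_mul_inner_self_le _ _
      rw [hu, mul_one] at h4
      have := mul_pos h3 h3
      linarith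
  have hτN := h2 N le_rfl
  set p : ℕ → H := fun i => (1 / 2 : ℝ) • (u (xn true i) + u (xn false i)) with hp
  refine ⟨(1 / τ N) • (Matrix.of fun i j : Fin I.1 => ⟪p i, p j⟫_ℝ),
    (gram_posSemidef _).smul (by positivity), ?_⟩
  intro a ha
  have h3 := hE (eqE N I.1 a) (List.mem_append_right _ (List.mem_map.2 ⟨a, ha, rfl⟩))
  rw [eqE_val] at h3
  have h4 : ⟪u (gn true N) + u (gn false N), u 0⟫_ℝ = 2 * τ N := by
    simp only [hτ, hg, inner_smul_left, RCLike.conj_to_real]
    ring
  have h5 : ∀ i j : Fin I.1, ⟪u (xn true i) + u (xn false i), u (xn true j) + u (xn false j)⟫_ℝ =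
      4 * ⟪p i, p j⟫_ℝ := by
    intro i j
    simp only [hp, inner_smul_left, inner_smul_right, RCLike.conj_to_real]
    ring
  simp only [h4, h5] at h3
  have h6 : ∑ i : Fin I.1, ∑ j : Fin I.1, (ival (entry a.1 i j) : ℝ) * ⟪p i, p j⟫_ℝ =
      ival a.2 * τ N := by
    have h7 : ∑ i : Fin I.1, ∑ j : Fin I.1, (ival (entry a.1 i j) : ℝ) * (4 * ⟪p i, p j⟫_ℝ) =
        4 * ∑ i : Fin I.1, ∑ j : Fin I.1, (ival (entry a.1 i j) : ℝ) * ⟪p i, p j⟫_ℝ := by
      rw [Finset.mul_sum]
      refine Finset.sum_congr rfl fun i _ => ?_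
      rw [Finset.mul_sum]
      refine Finset.sum_congr rfl fun j _ => ?_
      ring
    rw [h7] at h3
    linarith
  have h8 : ∑ i : Fin I.1, ∑ j : Fin I.1, (ival (entry a.1 i j) : ℝ) *
      ((1 / τ N) • (Matrix.of fun i j : Fin I.1 => ⟪p i, p j⟫_ℝ) :
        Matrix (Fin I.1) (Fin I.1) ℝ) i j =
      (1 / τ N) * ∑ i : Fin I.1, ∑ j : Fin I.1, (ival (entry a.1 i j) : ℝ) * ⟪p i, p j⟫_ℝ := by
    rw [Finset.mul_sum]
    refine Finset.sum_congr rfl fun i _ => ?_
    rw [Finset.mul_sum]
    refine Finset.sum_congr rfl fun j _ => ?_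
    simp only [Matrix.smul_apply, Matrix.of_apply, smul_eq_mul]
    ring
  rw [h8, h6]
  field_simp

/-- Completeness. -/
theorem usat_of_sdp (N : ℕ) (I : SDP) (h : BFeas N I) : USat (sdpE N I) := by
  obtain ⟨X, hX, hd, hs⟩ := h
  obtain ⟨m, y, hy⟩ := exists_vectors hX
  obtain ⟨H, _, _, e, b, he, hb0, heb, hbe⟩ := exists_ext (EuclideanSpace ℝ (Fin m)) ℕ
  have hb : ∀ i j, ⟪b i, b j⟫_ℝ = if i = j then 1 else 0 := fun i j => by
    rw [hb0]; congr
  clear hb0
  set t : ℕ → ℝ := fun l => (1 / 2) ^ (2 ^ l) with ht
  have ht0 : ∀ l, 0 < t l := fun l => by positivity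
  have ht1 : ∀ l, t l ≤ 1 := fun l => pow_le_one₀ (by norm_num) (by norm_num)
  have ht2 : ∀ l, t (l + 1) = t l * t l := by
    intro l
    simp only [ht]
    rw [← pow_add, pow_succ, mul_two]
  set p : ℕ → EuclideanSpace ℝ (Fin m) := fun i =>
    if hi : i < I.1 then Real.sqrt (t N) • y ⟨i, hi⟩ else 0 with hp
  have hpp : ∀ i j : Fin I.1, ⟪p i, p j⟫_ℝ = t N * X i j := by
    intro i j
    simp only [hp, i.2, j.2, dif_pos, inner_smul_left, inner_smul_right, hy,
      RCLike.conj_to_real, Fin.eta]
    rw [← mul_assoc, Real.mul_self_sqrt (ht0 N).le]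
  have hp1 : ∀ i, ⟪p i, p i⟫_ℝ ≤ 1 := by
    intro i
    by_cases hi : i < I.1
    · have h1 := hpp ⟨i, hi⟩ ⟨i, hi⟩
      simp only at h1
      rw [h1]
      have h2 := hd ⟨i, hi⟩
      calc t N * X ⟨i, hi⟩ ⟨i, hi⟩ ≤ t N * 2 ^ (2 ^ N) :=
            mul_le_mul_of_nonneg_left h2 (ht0 N).le
        _ = 1 := by rw [ht, ← mul_pow]; norm_num
    · simp [hp, hi]
  set r : ℕ → ℝ := fun i => Real.sqrt (1 - ⟪p i, p i⟫_ℝ) with hr
  have hr2 : ∀ i, r i * r i = 1 - ⟪p i, p i⟫_ℝ := fun i =>
    Real.mul_self_sqrt (by have := hp1 i; linarith)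
  set q : ℕ → ℝ := fun l => Real.sqrt (1 - t l * t l) with hq
  have hq2 : ∀ l, q l * q l = 1 - t l * t l := fun l =>
    Real.mul_self_sqrt (by have := ht1 l; have := ht0 l; nlinarith)
  set u : ℕ → H := fun k => match k with
    | 0 => b 0
    | k + 1 => if k % 4 = 0 then e (p (k / 4)) + r (k / 4) • b (k + 1) else
        if k % 4 = 1 then e (p (k / 4)) - r (k / 4) • b k else
        if k % 4 = 2 then t (k / 4) • b 0 + q (k / 4) • b (k + 1) else
        t (k / 4) • b 0 - q (k / 4) • b k with hu
  have u0 : u 0 = b 0 := rfl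
  have ux1 : ∀ i, u (xn true i) = e (p i) + r i • b (4 * i + 1) := by
    intro i
    have h1 : 4 * i % 4 = 0 := by omega
    have h2 : 4 * i / 4 = i := by omega
    change (if 4 * i % 4 = 0 then _ else _) = _
    rw [if_pos h1, h2]
  have ux2 : ∀ i, u (xn false i) = e (p i) - r i • b (4 * i + 1) := by
    intro i
    have h1 : (4 * i + 1) % 4 = 1 := by omega
    have h2 : (4 * i + 1) / 4 = i := by omega
    change (if (4 * i + 1) % 4 = 0 then _ else _) = _
    rw [if_neg (by omega), if_pos h1, h2]
  have ug1 : ∀ i, u (gn true i) = t i • b 0 + q i • b (4 * i + 3) := by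
    intro i
    have h1 : (4 * i + 2) % 4 = 2 := by omega
    have h2 : (4 * i + 2) / 4 = i := by omega
    change (if (4 * i + 2) % 4 = 0 then _ else _) = _
    rw [if_neg (by omega), if_neg (by omega), if_pos h1, h2]
  have ug2 : ∀ i, u (gn false i) = t i • b 0 - q i • b (4 * i + 3) := by
    intro i
    have h2 : (4 * i + 3) / 4 = i := by omega
    change (if (4 * i + 3) % 4 = 0 then _ else _) = _
    rw [if_neg (by omega), if_neg (by omega), if_neg (by omega), h2]
  have hbb : ∀ i, ⟪b i, b i⟫_ℝ = 1 := fun i => by rw [hb, if_pos rfl]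
  have hb03 : ∀ i, ⟪b 0, b (4 * i + 3)⟫_ℝ = 0 := fun i => by rw [hb, if_neg (by omega)]
  have hb30 : ∀ i, ⟪b (4 * i + 3), b 0⟫_ℝ = 0 := fun i => by rw [hb, if_neg (by omega)]
  refine ⟨H, inferInstance, inferInstance, u, ?_, ?_⟩
  · intro k
    have hcase : k = 0 ∨ (∃ i, k = xn true i) ∨ (∃ i, k = xn false i) ∨ (∃ i, k = gn true i) ∨
        (∃ i, k = gn false i) := by
      rcases Nat.eq_zero_or_pos k with h | h
      · exact Or.inl h
      · right
        obtain ⟨k, rfl⟩ : ∃ k', k = k' + 1 := ⟨k - 1, by omega⟩
        have h4 : k % 4 < 4 := Nat.mod_lt _ (by norm_num)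
        have h5 : 4 * (k / 4) + k % 4 = k := Nat.div_add_mod k 4
        have h6 : k % 4 = 0 ∨ k % 4 = 1 ∨ k % 4 = 2 ∨ k % 4 = 3 := by omega
        rcases h6 with h6 | h6 | h6 | h6
        · exact Or.inl ⟨k / 4, by simp only [xn, cond_true]; omega⟩
        · exact Or.inr (Or.inl ⟨k / 4, by simp only [xn, cond_false]; omega⟩)
        · exact Or.inr (Or.inr (Or.inl ⟨k / 4, by simp only [gn, cond_true]; omega⟩))
        · exact Or.inr (Or.inr (Or.inr ⟨k / 4, by simp only [gn, cond_false]; omega⟩))
    rcases hcase with rfl | ⟨i, rfl⟩ | ⟨i, rfl⟩ | ⟨i, rfl⟩ | ⟨i, rfl⟩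
    · rw [u0]; exact hbb 0
    · rw [ux1]
      simp only [inner_add_left, inner_add_right, inner_smul_left, inner_smul_right, he, heb, hbe,
        hbb, RCLike.conj_to_real]
      linarith [hr2 i]
    · rw [ux2]
      simp only [inner_sub_left, inner_sub_right, inner_smul_left, inner_smul_right, he, heb, hbe,
        hbb, RCLike.conj_to_real]
      linarith [hr2 i]
    · rw [ug1]
      simp only [inner_add_left, inner_add_right, inner_smul_left, inner_smul_right, hbb, hb03,
        hb30, RCLike.conj_to_real]
      linarith [hq2 i]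
    · rw [ug2]
      simp only [inner_sub_left, inner_sub_right, inner_smul_left, inner_smul_right, hbb, hb03,
        hb30, RCLike.conj_to_real]
      linarith [hq2 i]
  · intro c hc
    rcases List.mem_append.1 hc with hc | hc
    · rcases List.mem_cons.1 hc with rfl | hc
      · simp only [List.map_cons, List.map_nil, List.sum_cons, List.sum_nil, tval, sg, cond_true,
          cond_false, u0, ug1, ug2, inner_add_left, inner_sub_left, inner_smul_left, hbb, hb30,
          RCLike.conj_to_real]
        have : t 0 = 1 / 2 := by simp [ht]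
        rw [this]
        ring
      · obtain ⟨l, -, rfl⟩ := List.mem_map.1 hc
        simp only [List.map_cons, List.map_nil, List.sum_cons, List.sum_nil, tval, sg, cond_true,
          cond_false, u0, ug1, ug2, inner_add_left, inner_sub_left, inner_smul_left,
          inner_sub_right, inner_smul_right, hbb, hb30, hb03, ht2,
          RCLike.conj_to_real]
        linarith [hq2 l]
    · obtain ⟨a, ha, rfl⟩ := List.mem_map.1 hc
      rw [eqE_val]
      have h1 : ∀ i, u (xn true i) + u (xn false i) = (2 : ℝ) • e (p i) := by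
        intro i
        rw [ux1, ux2, two_smul]; abel
      have h2 : u (gn true N) + u (gn false N) = (2 * t N) • b 0 := by
        rw [ug1, ug2, mul_smul, two_smul]; abel
      have h3 : ∀ i j : Fin I.1, ⟪u (xn true i) + u (xn false i),
          u (xn true j) + u (xn false j)⟫_ℝ = 4 * t N * X i j := by
        intro i j
        rw [h1, h1, inner_smul_left, inner_smul_right, he, hpp, RCLike.conj_to_real]
        ring
      simp only [h3]
      rw [h2, u0, inner_smul_left, hbb, RCLike.conj_to_real]
      have h4 := hs a ha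
      have h5 : ∑ i : Fin I.1, ∑ j : Fin I.1, (ival (entry a.1 i j) : ℝ) * (4 * t N * X i j) =
          4 * t N * ∑ i : Fin I.1, ∑ j : Fin I.1, (ival (entry a.1 i j) : ℝ) * X i j := by
        rw [Finset.mul_sum]
        refine Finset.sum_congr rfl fun i _ => ?_
        rw [Finset.mul_sum]
        refine Finset.sum_congr rfl fun j _ => ?_
        ring
      rw [h5, h4]
      ring

end Pool.Agent.Helper92.Theta
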