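import Mathlib
import Pool.Agent.Helper92.Theta.Sdp

/-!
# Membership in the theta body is a semidefinite feasibility problem
-/

namespace Pool.Agent.Helper92.Theta

/-- The rational number with given numerator and denominator, as a real number. -/
noncomputable def xval (z : BInt × List Bool) : ℝ := (ival z.1 : ℝ) / (bval z.2 : ℝ)

/-- Exact membership in the theta body. An instance consists of the list of the coordinates of a
rational vector, as numerators and denominators in binary, and of a list of edges. -/
def THMem : Set (List (BInt × List Bool) × List (ℕ × ℕ)) :=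
  {J | (∀ z ∈ J.1, bval z.2 ≠ 0) ∧
    (fun i : Fin J.1.length => xval J.1[i]) ∈ TH (graphOf J.1.length J.2)}

/-- The number `1 / 8`. -/
def eighth : BInt × List Bool := ((true, [true]), [false, false, false, true])

/-- From the vector `1 / 8` to arbitrary vectors. -/
def toTH (I : ℕ × List (ℕ × ℕ)) : List (BInt × List Bool) × List (ℕ × ℕ) :=
  ((List.range I.1).map fun _ => eighth, I.2)

lemma xval_eighth : xval eighth = 1 / 8 := by
  simp [xval, eighth, ival, bval]

lemma theta_cast (n : ℕ) (E : List (ℕ × ℕ)) : ∀ m, m = n → ∀ x : Fin m → ℝ, (∀ i, x i = 1 / 8) →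
    (x ∈ TH (graphOf m E) ↔ (fun _ : Fin n => (1 / 8 : ℝ)) ∈ TH (graphOf n E)) := by
  rintro _ rfl x hx
  have : x = fun _ => 1 / 8 := funext hx
  rw [this]

theorem toTH_iff (I : ℕ × List (ℕ × ℕ)) : I ∈ Theta8 ↔ toTH I ∈ THMem := by
  have h1 : ∀ z ∈ (toTH I).1, z = eighth := by
    intro z hz
    obtain ⟨_, -, rfl⟩ := List.mem_map.1 hz
    rfl
  have h2 := theta_cast I.1 I.2 (toTH I).1.length (by simp [toTH])
    (fun i : Fin (toTH I).1.length => xval (toTH I).1[i]) (fun i =>
      (congrArg xval (h1 _ (List.getElem_mem i.2))).trans xval_eighth)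
  constructor
  · intro h
    refine ⟨fun z hz => ?_, h2.2 h⟩
    rw [h1 z hz]
    simp [eighth, bval]
  · intro h
    exact h2.1 h.2

/-- The matrix with one nonzero entry, as a list of rows. -/
def single (N a b : ℕ) (c : BInt) : List (List BInt) :=
  (List.range N).map fun i => (List.range N).map fun j => if i = a ∧ j = b then c else (true, [])

lemma entry_single (N a b : ℕ) (c : BInt) (i j : Fin N) :
    (ival (entry (single N a b c) i j) : ℝ) = if (i : ℕ) = a ∧ (j : ℕ) = b then (ival c : ℝ) else 0 := by
  have h : entry (single N a b c) i j = if (i : ℕ) = a ∧ (j : ℕ) = b then c else (true, []) := by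
    simp [entry, single]
  rw [h]
  split_ifs
  · rfl
  · simp [ival, bval]

lemma sum_single (N a b : ℕ) (c : BInt) (ha : a < N) (hb : b < N) (X : Matrix (Fin N) (Fin N) ℝ) :
    ∑ i : Fin N, ∑ j : Fin N, (ival (entry (single N a b c) i j) : ℝ) * X i j =
      ival c * X ⟨a, ha⟩ ⟨b, hb⟩ := by
  simp only [entry_single]
  rw [Finset.sum_eq_single ⟨a, ha⟩]
  · rw [Finset.sum_eq_single ⟨b, hb⟩]
    · simp
    · intro j _ hj
      rw [if_neg, zero_mul]
      rintro ⟨-, h⟩
      exact hj (Fin.ext h)
    · intro h; exact absurd (Finset.mem_univ _) h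
  · intro i _ hi
    refine Finset.sum_eq_zero fun j _ => ?_
    rw [if_neg, zero_mul]
    rintro ⟨h, -⟩
    exact hi (Fin.ext h)
  · intro h; exact absurd (Finset.mem_univ _) h

lemma sum_single' (N a b : ℕ) (c : BInt) (h : ¬ (a < N ∧ b < N)) (X : Matrix (Fin N) (Fin N) ℝ) :
    ∑ i : Fin N, ∑ j : Fin N, (ival (entry (single N a b c) i j) : ℝ) * X i j = 0 := by
  simp only [entry_single]
  refine Finset.sum_eq_zero fun i _ => Finset.sum_eq_zero fun j _ => ?_
  rw [if_neg, zero_mul]
  rintro ⟨h1, h2⟩
  exact h ⟨h1 ▸ i.2, h2 ▸ j.2⟩

/-- The equations for the coordinates. -/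
def coordE (N : ℕ) (xs : List (BInt × List Bool)) : List (List (List BInt) × BInt) :=
  (List.range xs.length).flatMap fun i =>
    [(single N 0 (i + 1) (true, ((xs[i]?).getD eighth).2), ((xs[i]?).getD eighth).1),
      (single N (i + 1) (i + 1) (true, ((xs[i]?).getD eighth).2), ((xs[i]?).getD eighth).1)]

/-- The equations for the edges. -/
def edgeE (N : ℕ) (E : List (ℕ × ℕ)) : List (List (List BInt) × BInt) :=
  (E.filter fun p => !decide (p.1 = p.2)).map fun p =>
    (single N (p.1 + 1) (p.2 + 1) (true, [true]), (true, []))

/-- Is the number zero? -/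
def isZ (l : List Bool) : Bool := l.all fun b => !b

lemma isZ_iff (l : List Bool) : isZ l = true ↔ bval l = 0 := by
  induction l with
  | nil => simp [isZ, bval]
  | cons b l ih =>
    rw [bval]
    unfold isZ at ih ⊢
    rw [List.all_cons, Bool.and_eq_true, ih]
    cases b <;> simp

/-- The semidefinite system for a membership problem. -/
def toSDP (J : List (BInt × List Bool) × List (ℕ × ℕ)) : SDP :=
  bif J.1.any (fun z => isZ z.2) then (0, [([], (true, [true]))]) else
  (J.1.length + 1, (single (J.1.length + 1) 0 0 (true, [true]), (true, [true])) ::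
    (coordE (J.1.length + 1) J.1 ++ edgeE (J.1.length + 1) J.2))

lemma ival_one : ival (true, [true]) = 1 := by simp [ival, bval]

lemma ival_zero : ival (true, []) = 0 := by simp [ival, bval]

lemma ival_true (l : List Bool) : ival (true, l) = bval l := rfl

theorem toSDP_iff (J : List (BInt × List Bool) × List (ℕ × ℕ)) : J ∈ THMem ↔ toSDP J ∈ SDPFeas := by
  obtain ⟨xs, E⟩ := J
  by_cases hz : xs.any (fun z => isZ z.2) = true
  · -- a zero denominator
    have h1 : toSDP (xs, E) = (0, [([], (true, [true]))]) := by simp [toSDP, hz]
    rw [h1]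
    constructor
    · rintro ⟨h2, -⟩
      obtain ⟨z, hz1, hz2⟩ := List.any_eq_true.1 hz
      exact absurd ((isZ_iff _).1 hz2) (h2 z hz1)
    · rintro ⟨X, -, hX⟩
      have h2 := hX ([], (true, [true])) (by simp)
      rw [ival_one] at h2
      simp at h2
  · have hden : ∀ z ∈ xs, bval z.2 ≠ 0 := by
      intro z hz1 h0
      exact hz (List.any_eq_true.2 ⟨z, hz1, (isZ_iff _).2 h0⟩)
    have hz' : xs.any (fun z => isZ z.2) = false := by simpa using hz
    set n := xs.length with hn
    have h1 : toSDP (xs, E) = (n + 1, (single (n + 1) 0 0 (true, [true]), (true, [true])) ::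
        (coordE (n + 1) xs ++ edgeE (n + 1) E)) := by simp [toSDP, hz', hn]
    rw [h1]
    -- the meaning of the equations
    have key : ∀ X : Matrix (Fin (n + 1)) (Fin (n + 1)) ℝ,
        Solves (n + 1, (single (n + 1) 0 0 (true, [true]), (true, [true])) ::
          (coordE (n + 1) xs ++ edgeE (n + 1) E)) X ↔
        X 0 0 = 1 ∧ (∀ i : Fin n, X 0 i.succ = xval xs[i] ∧ X i.succ i.succ = xval xs[i]) ∧
        ∀ i j : Fin n, i ≠ j → ((i : ℕ), (j : ℕ)) ∈ E → X i.succ j.succ = 0 := by
      intro X
      have hx : ∀ (i : Fin n) (r : ℝ), (bval xs[i].2 : ℝ) * r = ival xs[i].1 ↔ r = xval xs[i] := by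
        intro i r
        have h2 : (bval xs[i].2 : ℝ) ≠ 0 := by
          exact_mod_cast hden _ (List.getElem_mem _)
        rw [xval, eq_div_iff h2, mul_comm]
      have hget : ∀ i : Fin n, (xs[(i : ℕ)]?).getD eighth = xs[(i : ℕ)] := by
        intro i
        have := i.2
        rw [List.getElem?_eq_getElem (by omega), Option.getD_some]
      constructor
      · intro h
        refine ⟨?_, fun i => ⟨?_, ?_⟩, ?_⟩
        · have h2 := h (single (n + 1) 0 0 (true, [true]), (true, [true])) (by simp)
          rw [sum_single _ _ _ _ (by simp) (by simp), ival_one] at h2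
          simpa using h2
        · have h2 := h (single (n + 1) 0 (i + 1) (true, xs[i].2), xs[i].1) (by
            refine List.mem_cons_of_mem _ (List.mem_append_left _ (List.mem_flatMap.2
              ⟨i, List.mem_range.2 i.2, ?_⟩))
            rw [hget i]
            simp)
          rw [sum_single _ _ _ _ (by simp) (by simp), ival_true] at h2
          refine (hx i _).1 ?_
          exact_mod_cast h2
        · have h2 := h (single (n + 1) (i + 1) (i + 1) (true, xs[i].2), xs[i].1) (by
            refine List.mem_cons_of_mem _ (List.mem_append_left _ (List.mem_flatMap.2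
              ⟨i, List.mem_range.2 i.2, ?_⟩))
            rw [hget i]
            simp)
          rw [sum_single _ _ _ _ (by simp) (by simp), ival_true] at h2
          refine (hx i _).1 ?_
          exact_mod_cast h2
        · intro i j hij hE
          have h2 := h (single (n + 1) (i + 1) (j + 1) (true, [true]), (true, [])) (by
            refine List.mem_cons_of_mem _ (List.mem_append_right _ (List.mem_map.2
              ⟨(i, j), List.mem_filter.2 ⟨hE, ?_⟩, rfl⟩))
            simpa using fun h => hij (Fin.ext h))
          rw [sum_single _ _ _ _ (by simp) (by simp), ival_one, ival_zero, Int.cast_one, one_mul,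
            Int.cast_zero] at h2
          exact h2
      · rintro ⟨h0, h1, h2⟩ a ha
        rcases List.mem_cons.1 ha with rfl | ha
        · simp only
          rw [sum_single _ _ _ _ (by simp) (by simp), ival_one]
          simpa using h0
        · rcases List.mem_append.1 ha with ha | ha
          · obtain ⟨i, hi, ha⟩ := List.mem_flatMap.1 ha
            have hi' : i < n := List.mem_range.1 hi
            have h3 := h1 ⟨i, hi'⟩
            have h4 : (xs[i]?).getD eighth = xs[i] := by simp [← hn, hi']
            rw [h4] at ha
            simp only [List.mem_cons, List.not_mem_nil, or_false] at ha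
            rcases ha with rfl | rfl
            · simp only
              rw [sum_single _ _ _ _ (by simp) (by simp [hi']), ival_true]
              exact (hx ⟨i, hi'⟩ _).2 h3.1
            · simp only
              rw [sum_single _ _ _ _ (by simp [hi']) (by simp [hi']), ival_true]
              exact (hx ⟨i, hi'⟩ _).2 h3.2
          · obtain ⟨⟨i, j⟩, hp, rfl⟩ := List.mem_map.1 ha
            obtain ⟨hE, hne⟩ := List.mem_filter.1 hp
            simp only
            rw [ival_zero]
            by_cases hij : i < n ∧ j < n
            · rw [sum_single _ _ _ _ (by simp [hij]) (by simp [hij])]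
              have h3 := h2 ⟨i, hij.1⟩ ⟨j, hij.2⟩ (by
                intro h
                have : i = j := congrArg Fin.val h
                simp [this] at hne) hE
              have h4 : X ⟨i + 1, by simp [hij]⟩ ⟨j + 1, by simp [hij]⟩ = 0 := h3
              rw [h4]; simp
            · rw [sum_single']
              · simp
              · simpa using hij
    constructor
    · rintro ⟨-, Y, hY, hY0, hY1, hY2⟩
      refine ⟨Y.submatrix (finSuccEquiv n) (finSuccEquiv n), hY.submatrix _, (key _).2 ⟨?_, ?_, ?_⟩⟩
      · simpa using hY0
      · intro i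
        simp only [Matrix.submatrix_apply, finSuccEquiv_zero, finSuccEquiv_succ]
        exact hY1 i
      · intro i j hij hE
        simp only [Matrix.submatrix_apply, finSuccEquiv_succ]
        exact hY2 i j ⟨hij, Or.inl hE⟩
    · rintro ⟨X, hX, hs⟩
      obtain ⟨h0, h1, h2⟩ := (key X).1 hs
      refine ⟨hden, X.submatrix (finSuccEquiv n).symm (finSuccEquiv n).symm, hX.submatrix _,
        ?_, ?_, ?_⟩
      · simpa using h0
      · intro i
        simp only [Matrix.submatrix_apply, finSuccEquiv_symm_none, finSuccEquiv_symm_some]
        exact h1 i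
      · rintro i j ⟨hij, hE | hE⟩
        · simp only [Matrix.submatrix_apply, finSuccEquiv_symm_some]
          exact h2 i j hij hE
        · simp only [Matrix.submatrix_apply, finSuccEquiv_symm_some]
          have h3 := h2 j i (Ne.symm hij) hE
          have h4 := hX.isHermitian.apply i.succ j.succ
          rw [h3] at h4
          simpa using h4.symm

end Pool.Agent.Helper92.Theta
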