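import Mathlib

/-!
# The length of an integer polynomial, and elimination with small coefficients
-/

open MvPolynomial

attribute [local instance] Matrix.seminormedAddCommGroup

namespace Pool.Agent.Helper92.Theta

section len

variable {σ : Type} 

/-- The sum of the absolute values of the coefficients. -/
noncomputable def len (p : MvPolynomial σ ℤ) : ℕ := ∑ m ∈ p.support, (p.coeff m).natAbs

lemma len_eq_sum (p : MvPolynomial σ ℤ) (s : Finset (σ →₀ ℕ)) (h : p.support ⊆ s) :
    len p = ∑ m ∈ s, (p.coeff m).natAbs := by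
  refine Finset.sum_subset h fun m _ hm => ?_
  rw [notMem_support_iff.1 hm, Int.natAbs_zero]

lemma coeff_le_len (p : MvPolynomial σ ℤ) (m : σ →₀ ℕ) : (p.coeff m).natAbs ≤ len p := by
  by_cases h : m ∈ p.support
  · exact Finset.single_le_sum (f := fun m => (p.coeff m).natAbs) (fun _ _ => Nat.zero_le _) h
  · rw [notMem_support_iff.1 h, Int.natAbs_zero]; exact Nat.zero_le _

lemma len_zero : len (0 : MvPolynomial σ ℤ) = 0 := by simp [len]

lemma len_add (p q : MvPolynomial σ ℤ) : len (p + q) ≤ len p + len q := by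
  classical
  rw [len_eq_sum (p + q) (p.support ∪ q.support) support_add,
    len_eq_sum p (p.support ∪ q.support) Finset.subset_union_left,
    len_eq_sum q (p.support ∪ q.support) Finset.subset_union_right, ← Finset.sum_add_distrib]
  refine Finset.sum_le_sum fun m _ => ?_
  rw [coeff_add]
  exact Int.natAbs_add_le _ _

lemma len_sum {κ : Type} (s : Finset κ) (f : κ → MvPolynomial σ ℤ) :
    len (∑ i ∈ s, f i) ≤ ∑ i ∈ s, len (f i) := by
  classical
  induction s using Finset.induction_on with
  | empty => simp [len_zero]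
  | insert a s ha ih =>
    rw [Finset.sum_insert ha, Finset.sum_insert ha]
    exact (len_add _ _).trans (Nat.add_le_add_left ih _)

lemma len_monomial (m : σ →₀ ℕ) (c : ℤ) : len (monomial m c) ≤ c.natAbs := by
  classical
  rw [len_eq_sum _ {m} support_monomial_subset]
  simp

lemma len_mul (p q : MvPolynomial σ ℤ) : len (p * q) ≤ len p * len q := by
  have h : p * q = ∑ a ∈ p.support, ∑ b ∈ q.support,
      monomial (a + b) (p.coeff a * q.coeff b) := by
    conv_lhs => rw [p.as_sum, q.as_sum, Finset.sum_mul_sum]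
    simp only [monomial_mul]
  rw [h]
  refine (len_sum _ _).trans ?_
  rw [len, Finset.sum_mul]
  refine Finset.sum_le_sum fun a _ => (len_sum _ _).trans ?_
  rw [len, Finset.mul_sum]
  refine Finset.sum_le_sum fun b _ => (len_monomial _ _).trans ?_
  rw [Int.natAbs_mul]

lemma len_C (c : ℤ) : len (C c : MvPolynomial σ ℤ) ≤ c.natAbs := len_monomial _ _

lemma len_one : len (1 : MvPolynomial σ ℤ) ≤ 1 := by
  have := len_C (σ := σ) 1
  simpa using this

lemma len_X (i : σ) : len (X i : MvPolynomial σ ℤ) ≤ 1 := by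
  have := len_monomial (Finsupp.single i 1) 1
  simpa [X] using this

lemma len_neg (p : MvPolynomial σ ℤ) : len (-p) = len p := by
  unfold len
  rw [support_neg]
  simp

lemma len_sub (p q : MvPolynomial σ ℤ) : len (p - q) ≤ len p + len q := by
  rw [sub_eq_add_neg, ← len_neg q]
  exact len_add _ _

lemma len_pow (p : MvPolynomial σ ℤ) (B : ℕ) (hB : len p ≤ B) : ∀ n, len (p ^ n) ≤ B ^ n
  | 0 => by rw [pow_zero, pow_zero]; exact len_one
  | n + 1 => by
    rw [pow_succ, pow_succ]
    exact (len_mul _ _).trans (Nat.mul_le_mul (len_pow p B hB n) hB)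

lemma len_prod {κ : Type} (s : Finset κ) (f : κ → MvPolynomial σ ℤ) :
    len (∏ i ∈ s, f i) ≤ ∏ i ∈ s, len (f i) := by
  classical
  induction s using Finset.induction_on with
  | empty => simp only [Finset.prod_empty]; exact len_one
  | insert a s ha ih =>
    rw [Finset.prod_insert ha, Finset.prod_insert ha]
    exact (len_mul _ _).trans (Nat.mul_le_mul_left _ ih)

lemma len_pderiv (p : MvPolynomial σ ℤ) (i : σ) (d : ℕ) (hd : p.degreeOf i ≤ d) :
    len (pderiv i p) ≤ d * len p := by
  classical
  have h : pderiv i p = ∑ m ∈ p.support, monomial (m - Finsupp.single i 1)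
      (p.coeff m * (m i : ℤ)) := by
    conv_lhs => rw [p.as_sum, map_sum]
    refine Finset.sum_congr rfl fun m _ => ?_
    rw [pderiv_monomial]
  rw [h]
  refine (len_sum _ _).trans ?_
  rw [len, Finset.mul_sum]
  refine Finset.sum_le_sum fun m hm => (len_monomial _ _).trans ?_
  rw [Int.natAbs_mul, Int.natAbs_natCast, mul_comm]
  exact Nat.mul_le_mul_right _ ((degreeOf_le_iff.1 hd) m hm)

lemma degreeOf_pderiv (p : MvPolynomial σ ℤ) (i j : σ) (d : ℕ) (hd : p.degreeOf j ≤ d) :
    (pderiv i p).degreeOf j ≤ d := by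
  classical
  have h : pderiv i p = ∑ m ∈ p.support, monomial (m - Finsupp.single i 1)
      (p.coeff m * (m i : ℤ)) := by
    conv_lhs => rw [p.as_sum, map_sum]
    refine Finset.sum_congr rfl fun m _ => ?_
    rw [pderiv_monomial]
  rw [h]
  refine (degreeOf_sum_le _ _ _).trans (Finset.sup_le fun m hm => ?_)
  refine degreeOf_le_iff.2 fun m' hm' => ?_
  have h1 := Finset.mem_singleton.1 (support_monomial_subset hm')
  rw [h1]
  have h2 := (degreeOf_le_iff.1 hd) m hm
  have h3 : (m - Finsupp.single i 1 : σ →₀ ℕ) j ≤ m j := by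
    rw [Finsupp.tsub_apply]; exact Nat.sub_le _ _
  exact h3.trans h2

end len

/-- Partial derivatives are derivatives. -/
theorem hasDerivAt_eval {ι : Type} [DecidableEq ι] (p : MvPolynomial ι ℤ) (x : ι → ℝ) (i : ι) :
    HasDerivAt (fun t => aeval (Function.update x i t) p) (aeval x (pderiv i p)) (x i) := by
  induction p using MvPolynomial.induction_on with
  | C a =>
    simp only [pderiv_C, map_zero]
    have : (fun t : ℝ => aeval (Function.update x i t) (C a : MvPolynomial ι ℤ)) =
        fun _ => (a : ℝ) := by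
      funext t
      rw [← algebraMap_eq, AlgHom.commutes]; simp
    rw [this]
    exact hasDerivAt_const _ _
  | add p q hp hq =>
    simp only [map_add]
    exact hp.add hq
  | mul_X p j hp =>
    have hj : HasDerivAt (fun t => Function.update x i t j) (if i = j then 1 else 0) (x i) := by
      by_cases h : i = j
      · subst h
        simp only [Function.update_self, if_true]
        exact hasDerivAt_id _
      · simp only [if_neg h, Function.update_of_ne (Ne.symm h)]
        exact hasDerivAt_const _ _
    have h1 := hp.mul hj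
    simp only [Function.update_eq_self] at h1
    have h2 : (fun t => aeval (Function.update x i t) (p * X j)) =
        (fun t => aeval (Function.update x i t) p) * fun t => Function.update x i t j := by
      funext t
      simp
    rw [h2]
    refine h1.congr_deriv ?_
    rw [pderiv_mul, pderiv_X]
    simp only [map_add, map_mul, aeval_X]
    by_cases h : i = j
    · subst h; simp
    · have : Pi.single (M := fun _ => MvPolynomial ι ℤ) i 1 j = 0 := Pi.single_eq_of_ne (Ne.symm h) _
      rw [this]; simp [h]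

/-- Algebraic dependence with small coefficients. -/
theorem elim {σ κ : Type} [Fintype σ] [Fintype κ] [DecidableEq σ] [DecidableEq κ]
    (p : κ → MvPolynomial σ ℤ) (d τ s : ℕ) (hcard : Fintype.card κ = Fintype.card σ + 1)
    (hd0 : 0 < d) (hd : ∀ j i, (p j).degreeOf i ≤ d) (hlen : ∀ j, len (p j) ≤ 2 ^ τ)
    (hs : s = 2 * (d * Fintype.card κ) ^ Fintype.card σ) :
    ∃ q : (κ → Fin s) → ℤ, q ≠ 0 ∧
      (∀ α, (q α).natAbs ≤ s ^ Fintype.card κ * 2 ^ (τ * (Fintype.card κ * s))) ∧
      ∑ α, C (q α) * ∏ j, p j ^ (α j : ℕ) = 0 := by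
  classical
  set k := Fintype.card κ with hk
  have hk0 : 0 < k := by omega
  have hs0 : 0 < s := by rw [hs]; positivity
  set T := d * k * s with hT
  have hT0 : 0 < T := by positivity
  -- the degree and the length of the monomials
  have hdeg : ∀ (α : κ → Fin s) (i : σ), (∏ j, p j ^ (α j : ℕ)).degreeOf i < T := by
    intro α i
    have h1 : (∏ j, p j ^ (α j : ℕ)).degreeOf i ≤ ∑ j : κ, (α j : ℕ) * d := by
      refine (degreeOf_prod_le i _ _).trans (Finset.sum_le_sum fun j _ => ?_)
      refine (degreeOf_pow_le i _ _).trans ?_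
      exact Nat.mul_le_mul_left _ (hd j i)
    have h2 : ∑ j : κ, (α j : ℕ) * d ≤ ∑ _j : κ, (s - 1) * d := by
      refine Finset.sum_le_sum fun j _ => Nat.mul_le_mul_right _ ?_
      have := (α j).2
      omega
    rw [Finset.sum_const, Finset.card_univ, smul_eq_mul, ← hk] at h2
    have h3 : k * ((s - 1) * d) < T := by
      rw [hT]
      have : (s - 1) < s := by omega
      calc k * ((s - 1) * d) = (d * k) * (s - 1) := by ring
        _ < (d * k) * s := Nat.mul_lt_mul_of_pos_left this (by positivity)
    omega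
  have hlen' : ∀ α : κ → Fin s, len (∏ j, p j ^ (α j : ℕ)) ≤ 2 ^ (τ * (k * s)) := by
    intro α
    refine (len_prod _ _).trans ?_
    have h1 : ∀ j ∈ (Finset.univ : Finset κ), len (p j ^ (α j : ℕ)) ≤ 2 ^ (τ * s) := by
      intro j _
      refine (len_pow _ _ (hlen j) _).trans ?_
      rw [← pow_mul]
      exact Nat.pow_le_pow_right (by norm_num) (Nat.mul_le_mul_left _ (α j).2.le)
    refine (Finset.prod_le_prod' h1).trans ?_
    rw [Finset.prod_const, Finset.card_univ, ← hk, ← pow_mul]
    apply le_of_eq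
    ring_nf
  -- the linear system
  set A : Matrix (σ → Fin T) (κ → Fin s) ℤ := fun β α =>
    (∏ j, p j ^ (α j : ℕ)).coeff (Finsupp.equivFunOnFinite.symm fun i => (β i : ℕ)) with hA
  have hrow : Fintype.card (σ → Fin T) = (d * k) ^ Fintype.card σ * s ^ Fintype.card σ := by
    rw [Fintype.card_fun, Fintype.card_fin, hT, mul_pow]
  have hcol : Fintype.card (κ → Fin s) = 2 * Fintype.card (σ → Fin T) := by
    rw [hrow, Fintype.card_fun, Fintype.card_fin, ← hk, hcard, pow_succ]
    conv_lhs => rw [mul_comm]; enter [1]; rw [hs]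
    rw [← hcard]
    ring
  have hrow0 : 0 < Fintype.card (σ → Fin T) := by rw [hrow]; positivity
  obtain ⟨t, ht0, htA, htn⟩ := Int.Matrix.exists_ne_zero_int_vec_norm_le A (by omega) hrow0
  have hexp : (Fintype.card (σ → Fin T) : ℝ) /
      ((Fintype.card (κ → Fin s) : ℝ) - (Fintype.card (σ → Fin T) : ℝ)) = 1 := by
    rw [hcol]
    push_cast
    have : (Fintype.card (σ → Fin T) : ℝ) ≠ 0 := by exact_mod_cast hrow0.ne'
    rw [two_mul, add_sub_cancel_right, div_self this]
  rw [hexp, Real.rpow_one] at htn
  have hAn : ‖A‖ ≤ ((2 ^ (τ * (k * s)) : ℕ) : ℝ) := by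
    refine (Matrix.norm_le_iff (by positivity)).2 fun β α => ?_
    rw [Int.norm_eq_abs]
    have h1 := (coeff_le_len (∏ j, p j ^ (α j : ℕ))
      (Finsupp.equivFunOnFinite.symm fun i => (β i : ℕ))).trans (hlen' α)
    have h2 : |(A β α : ℝ)| = ((A β α).natAbs : ℝ) := by
      rw [Nat.cast_natAbs, Int.cast_abs]
    rw [h2]
    exact_mod_cast h1
  refine ⟨t, ht0, ?_, ?_⟩
  · intro α
    have h1 : ‖t α‖ ≤ ‖t‖ := norm_le_pi_norm t α
    have h2 : max 1 ‖A‖ ≤ ((2 ^ (τ * (k * s)) : ℕ) : ℝ) := by
      refine max_le ?_ hAn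
      exact_mod_cast Nat.one_le_two_pow
    have h3 : ‖t α‖ ≤ ((s ^ k * 2 ^ (τ * (k * s)) : ℕ) : ℝ) := by
      refine h1.trans (htn.trans ?_)
      rw [Fintype.card_fun, Fintype.card_fin, ← hk]
      push_cast
      push_cast at h2
      exact mul_le_mul_of_nonneg_left h2 (by positivity)
    have h4 : ‖t α‖ = ((t α).natAbs : ℝ) := by
      rw [Int.norm_eq_abs, Nat.cast_natAbs, Int.cast_abs]
    rw [h4] at h3
    exact_mod_cast h3
  · ext β
    rw [coeff_sum, coeff_zero]
    simp only [coeff_C_mul]
    by_cases hβ : ∀ i, β i < T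
    · have h1 := congrFun htA fun i => (⟨β i, hβ i⟩ : Fin T)
      rw [Matrix.mulVec, dotProduct] at h1
      rw [Pi.zero_apply] at h1
      rw [← h1]
      refine Finset.sum_congr rfl fun α _ => ?_
      rw [hA, mul_comm]
      congr 2
      ext i
      rfl
    · push Not at hβ
      obtain ⟨i, hi⟩ := hβ
      refine Finset.sum_eq_zero fun α _ => ?_
      have h1 : (∏ j, p j ^ (α j : ℕ)).coeff β = 0 := by
        by_contra hne
        have h2 := (degreeOf_lt_iff hT0).1 (hdeg α i) β (mem_support_iff.2 hne)
        omega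
      rw [h1, mul_zero]

end Pool.Agent.Helper92.Theta
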