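import Mathlib
import Pool.Agent.Helper92.Theta.Len

/-!
# Nonnegative integer polynomials with a zero have a zero of bounded size
-/

open MvPolynomial

namespace Pool.Agent.Helper92.Theta

lemma continuous_aeval' {κ : Type} (p : MvPolynomial κ ℤ) :
    Continuous fun x : κ → ℝ => aeval x p := by
  have h : (fun x : κ → ℝ => aeval x p) =
      fun x : κ → ℝ => eval x (map (Int.castRingHom ℝ) p) := by
    funext x
    rw [eval_map, aeval_def]
    rfl
  rw [h]
  exact MvPolynomial.continuous_eval _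

/-- A point with a distinguished coordinate. -/
def pt {ι : Type} (ε : ℝ) (L : ι → ℝ) : Option ι → ℝ := fun j => j.elim ε L

lemma pt_update {ι : Type} [DecidableEq ι] (ε : ℝ) (L : ι → ℝ) (i : ι) (t : ℝ) :
    pt ε (Function.update L i t) = Function.update (pt ε L) (some i) t := by
  funext j
  cases j with
  | none => simp [pt]
  | some j =>
    by_cases h : j = i
    · subst h; simp [pt]
    · have h' : (some j : Option ι) ≠ some i := fun h'' => h (Option.some.inj h'')
      rw [Function.update_of_ne h']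
      simp [pt, Function.update_of_ne h]

section

variable {ι : Type} [Fintype ι] [DecidableEq ι]

omit [DecidableEq ι] in
lemma isCompact_K (v : ι → ℕ) (Cc : ℝ) : IsCompact {L : ι → ℝ | ∑ i, (L i + v i) ^ 2 ≤ Cc} := by
  refine Metric.isCompact_of_isClosed_isBounded ?_ ?_
  · exact isClosed_le (by fun_prop) continuous_const
  · refine (Metric.isBounded_closedBall (x := fun i => -(v i : ℝ)) (r := Real.sqrt Cc)).subset ?_
    intro L hL
    rw [Metric.mem_closedBall, dist_pi_le_iff (Real.sqrt_nonneg _)]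
    intro i
    have h1 : (L i + v i) ^ 2 ≤ Cc :=
      (Finset.single_le_sum (f := fun i => (L i + v i) ^ 2) (fun i _ => sq_nonneg _)
        (Finset.mem_univ i)).trans hL
    rw [Real.dist_eq, sub_neg_eq_add]
    exact Real.abs_le_sqrt h1

/-- The minimisers of the regularised polynomial. -/
theorem exists_min (G : MvPolynomial (Option ι) ℤ)
    (hpos : ∀ x : Option ι → ℝ, 0 ≤ aeval x G)
    (L₀ : ι → ℝ) (hL₀ : ∀ ε, aeval (pt ε L₀) G = 0) (v : ι → ℕ) (ε : ℝ) (hε : 0 < ε) :
    ∃ L : ι → ℝ, ∑ i, (L i + v i) ^ 2 ≤ ∑ i, (L₀ i + v i) ^ 2 ∧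
      aeval (pt ε L) G ≤ ε * ∑ i, (L₀ i + v i) ^ 2 ∧
      ∀ i, aeval (pt ε L) (pderiv (some i) G) + 2 * ε * L i = - (2 * ε * v i) := by
  set Cc : ℝ := ∑ i, (L₀ i + v i) ^ 2 with hCc
  have hCc0 : 0 ≤ Cc := Finset.sum_nonneg fun i _ => sq_nonneg _
  set K : Set (ι → ℝ) := {L | ∑ i, (L i + v i) ^ 2 ≤ Cc} with hK
  have hKc : IsCompact K := isCompact_K v Cc
  set P : MvPolynomial (Option ι) ℤ := G + X none * ∑ i, (X (some i) + C (v i : ℤ)) ^ 2 with hP
  have hPval : ∀ L : ι → ℝ, aeval (pt ε L) P = aeval (pt ε L) G + ε * ∑ i, (L i + v i) ^ 2 := by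
    intro L
    rw [hP]
    simp [pt]
  have hcont : Continuous fun L : ι → ℝ => aeval (pt ε L) P := by
    refine (continuous_aeval' P).comp ?_
    refine continuous_pi fun j => ?_
    cases j with
    | none => exact continuous_const
    | some j => exact continuous_apply j
  have hL₀K : L₀ ∈ K := by
    change ∑ i, (L₀ i + v i) ^ 2 ≤ Cc
    exact hCc.symm.le
  obtain ⟨L, hLK, hLmin⟩ := hKc.exists_isMinOn ⟨L₀, hL₀K⟩ hcont.continuousOn
  have hmin : ∀ L', aeval (pt ε L) P ≤ aeval (pt ε L') P := by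
    intro L'
    by_cases hL' : L' ∈ K
    · exact hLmin hL'
    · have h1 : aeval (pt ε L) P ≤ aeval (pt ε L₀) P := hLmin hL₀K
      have h2 : Cc < ∑ i, (L' i + v i) ^ 2 := not_le.1 hL'
      rw [hPval L₀, hL₀ ε, zero_add, ← hCc] at h1
      rw [hPval L']
      have h3 := hpos (pt ε L')
      have h4 := mul_lt_mul_of_pos_left h2 hε
      linarith
  refine ⟨L, hLK, ?_, ?_⟩
  · have h1 := hmin L₀
    rw [hPval L₀, hL₀ ε, hPval L, ← hCc] at h1
    have h2 : 0 ≤ ε * ∑ i, (L i + v i) ^ 2 :=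
      mul_nonneg hε.le (Finset.sum_nonneg fun i _ => sq_nonneg _)
    linarith
  · intro i
    have h1 := hasDerivAt_eval P (pt ε L) (some i)
    have h2 : IsLocalMin (fun t => aeval (Function.update (pt ε L) (some i) t) P)
        (pt ε L (some i)) := by
      refine Filter.Eventually.of_forall fun t => ?_
      simp only [Function.update_eq_self]
      rw [← pt_update]
      exact hmin _
    have h3 := h2.hasDerivAt_eq_zero h1
    have h4 : aeval (pt ε L) (pderiv (some i) P) =
        aeval (pt ε L) (pderiv (some i) G) + ε * (2 * (L i + v i)) := by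
      rw [hP, map_add, pderiv_mul, map_sum]
      have h5 : ∀ j : ι, pderiv (some i) ((X (some j) + C (v j : ℤ)) ^ 2 :
          MvPolynomial (Option ι) ℤ) = if j = i then 2 * (X (some j) + C (v j : ℤ)) else 0 := by
        intro j
        rw [pderiv_pow, map_add, pderiv_C, pderiv_X, add_zero]
        by_cases h : j = i
        · subst h; simp
        · have h' : (some j : Option ι) ≠ some i := fun h'' => h (Option.some.inj h'')
          rw [Pi.single_eq_of_ne h']
          simp [h]
      rw [Finset.sum_congr rfl fun j _ => h5 j, Finset.sum_ite_eq' Finset.univ i,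
        if_pos (Finset.mem_univ i), pderiv_X_of_ne (by simp)]
      simp [pt]
    rw [h4] at h3
    linarith

end

/-- The number of doublings in the bound. -/
def NB (k τ : ℕ) : ℕ :=
  (1 + (k + 1) * (k + 4)) + (1 + 2 * (k + 2) * (1 + (k + 1) * (k + 4)) + τ * (k + 2) +
    (1 + (1 + (k + 1) * (k + 4))) * k)

lemma numeric2 (k τ s : ℕ) (hs : s = 2 * (4 * (k + 2)) ^ (k + 1)) :
    s ^ (k + 2) * (s ^ (k + 2) * 2 ^ (τ * ((k + 2) * s))) * (2 * s) ^ (k * s) + 1 ≤
      2 ^ (2 ^ NB k τ) := by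
  set σ := 1 + (k + 1) * (k + 4) with hσ
  have h1 : k + 2 ≤ 2 ^ (k + 2) := (Nat.lt_pow_self (by norm_num)).le
  have h2 : s ≤ 2 ^ σ := by
    rw [hs, hσ]
    calc 2 * (4 * (k + 2)) ^ (k + 1) ≤ 2 * (4 * 2 ^ (k + 2)) ^ (k + 1) := by gcongr
      _ = 2 ^ (1 + (k + 1) * (k + 4)) := by
        rw [show (4 : ℕ) = 2 ^ 2 from rfl, ← pow_add, ← pow_mul, ← pow_succ']
        congr 1
        ring
  have hs1 : 1 ≤ s := by rw [hs]; exact Nat.succ_le_of_lt (by positivity)
  set a := 1 + 2 * (k + 2) * σ + τ * (k + 2) + (1 + σ) * k with ha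
  have h3 : s ^ (k + 2) * (s ^ (k + 2) * 2 ^ (τ * ((k + 2) * s))) * (2 * s) ^ (k * s) + 1 ≤
      2 ^ (s * a) := by
    have h4 : s ^ (k + 2) * (s ^ (k + 2) * 2 ^ (τ * ((k + 2) * s))) * (2 * s) ^ (k * s) ≤
        2 ^ (2 * (k + 2) * σ + τ * (k + 2) * s + (1 + σ) * k * s) := by
      calc s ^ (k + 2) * (s ^ (k + 2) * 2 ^ (τ * ((k + 2) * s))) * (2 * s) ^ (k * s)
          ≤ (2 ^ σ) ^ (k + 2) * ((2 ^ σ) ^ (k + 2) * 2 ^ (τ * ((k + 2) * s))) *
            (2 * 2 ^ σ) ^ (k * s) := by gcongr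
        _ = 2 ^ (2 * (k + 2) * σ + τ * (k + 2) * s + (1 + σ) * k * s) := by
          rw [← pow_succ', ← pow_mul, ← pow_mul, ← pow_add, ← pow_add, ← pow_add]
          congr 1
          ring
    have h5 : 2 * (k + 2) * σ + τ * (k + 2) * s + (1 + σ) * k * s + 1 ≤ s * a := by
      rw [ha]
      have : 2 * (k + 2) * σ + 1 ≤ s * (2 * (k + 2) * σ + 1) := Nat.le_mul_of_pos_left _ hs1
      calc 2 * (k + 2) * σ + τ * (k + 2) * s + (1 + σ) * k * s + 1
          = (2 * (k + 2) * σ + 1) + (τ * (k + 2) * s + (1 + σ) * k * s) := by ring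
        _ ≤ s * (2 * (k + 2) * σ + 1) + (τ * (k + 2) * s + (1 + σ) * k * s) :=
          Nat.add_le_add_right this _
        _ = s * (1 + 2 * (k + 2) * σ + τ * (k + 2) + (1 + σ) * k) := by ring
    have h6 : 1 ≤ 2 ^ (2 * (k + 2) * σ + τ * (k + 2) * s + (1 + σ) * k * s) :=
      Nat.one_le_two_pow
    calc _ ≤ 2 ^ (2 * (k + 2) * σ + τ * (k + 2) * s + (1 + σ) * k * s) +
          2 ^ (2 * (k + 2) * σ + τ * (k + 2) * s + (1 + σ) * k * s) := Nat.add_le_add h4 h6
      _ = 2 ^ (2 * (k + 2) * σ + τ * (k + 2) * s + (1 + σ) * k * s + 1) := by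
        rw [pow_succ]; ring
      _ ≤ 2 ^ (s * a) := Nat.pow_le_pow_right (by norm_num) h5
  refine h3.trans (Nat.pow_le_pow_right (by norm_num) ?_)
  have h7 : a ≤ 2 ^ a := (Nat.lt_pow_self (by norm_num)).le
  calc s * a ≤ 2 ^ σ * 2 ^ a := Nat.mul_le_mul h2 h7
    _ = 2 ^ NB k τ := by rw [← pow_add, NB]

section main

variable {ι : Type} [Fintype ι] [DecidableEq ι]

/-- The weight of an exponent. -/
def ex {s : ℕ} (α : Option (Option ι) → Fin s) : ℕ :=
  (α (some none) : ℕ) + ∑ i, (α (some (some i)) : ℕ)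

/-- The coefficients after the substitution. -/
def wt {s : ℕ} (q : (Option (Option ι) → Fin s) → ℤ) (v : ι → ℕ)
    (α : Option (Option ι) → Fin s) : ℤ := q α * ∏ i, (-2 * (v i : ℤ)) ^ (α (some (some i)) : ℕ)

/-- The substitution can be chosen so that the relation stays nontrivial. -/
theorem exists_v' {s : ℕ} (q : (Option (Option ι) → Fin s) → ℤ) (hq : q ≠ 0) :
    ∃ v : ι → ℕ, (∀ i, v i < s) ∧ ∃ e c : ℕ, c < s ∧
      ∑ α : Option (Option ι) → Fin s with ex α = e ∧ (α none : ℕ) = c, wt q v α ≠ 0 := by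
  obtain ⟨α₀, hα₀⟩ := Function.ne_iff.1 hq
  rw [Pi.zero_apply] at hα₀
  have hs0 : 0 < s := lt_of_le_of_lt (Nat.zero_le _) (α₀ none).2
  set A : Finset (Option (Option ι) → Fin s) := Finset.univ.filter fun α =>
    ex α = ex α₀ ∧ (α none : ℕ) = (α₀ none : ℕ) with hA
  -- the exponent of `v`
  set m : (Option (Option ι) → Fin s) → (ι →₀ ℕ) := fun α =>
    Finsupp.equivFunOnFinite.symm fun i => (α (some (some i)) : ℕ) with hm
  have hmi : ∀ α i, m α i = (α (some (some i)) : ℕ) := fun α i => rfl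
  set P : MvPolynomial ι ℤ := ∑ α ∈ A, monomial (m α)
    (q α * (-2) ^ (∑ i, (α (some (some i)) : ℕ))) with hP
  have hinj : ∀ α ∈ A, m α = m α₀ → α = α₀ := by
    intro α hα h
    obtain ⟨h1, h2⟩ := (Finset.mem_filter.1 hα).2
    have h3 : ∀ i, (α (some (some i)) : ℕ) = (α₀ (some (some i)) : ℕ) := fun i => by
      rw [← hmi, ← hmi, h]
    have h4 : (α (some none) : ℕ) = (α₀ (some none) : ℕ) := by
      unfold ex at h1
      rw [Finset.sum_congr rfl fun i _ => h3 i] at h1
      omega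
    funext j
    rcases j with _ | _ | i
    · exact Fin.ext h2
    · exact Fin.ext h4
    · exact Fin.ext (h3 i)
  have hP0 : P ≠ 0 := by
    intro h
    have h1 : P.coeff (m α₀) = q α₀ * (-2) ^ (∑ i, (α₀ (some (some i)) : ℕ)) := by
      rw [hP, coeff_sum, Finset.sum_eq_single α₀]
      · rw [coeff_monomial, if_pos rfl]
      · intro α hα hne
        rw [coeff_monomial, if_neg fun h => hne (hinj α hα h)]
      · intro h; exact absurd (Finset.mem_filter.2 ⟨Finset.mem_univ _, rfl, rfl⟩) h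
    rw [h, coeff_zero] at h1
    exact (mul_ne_zero hα₀ (pow_ne_zero _ (by norm_num))) h1.symm
  have hPdeg : ∀ i, P.degreeOf i < s := by
    intro i
    refine lt_of_le_of_lt (degreeOf_sum_le _ _ _) ?_
    refine (Finset.sup_lt_iff hs0).2 fun α _ => ?_
    refine (degreeOf_lt_iff hs0).2 fun m' hm' => ?_
    rw [Finset.mem_singleton.1 (support_monomial_subset hm'), hmi]
    exact (α _).2
  have hev : ∃ x : ι → ℤ, (∀ i, x i ∈ (Finset.range s).image fun n : ℕ => (n : ℤ)) ∧
      eval x P ≠ 0 := by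
    by_contra hcon
    push Not at hcon
    refine hP0 (eq_zero_of_eval_zero_at_prod_finset P
      (fun _ => (Finset.range s).image fun n : ℕ => (n : ℤ)) (fun i => ?_) hcon)
    rw [Finset.card_image_of_injective _ Nat.cast_injective, Finset.card_range]
    exact hPdeg i
  obtain ⟨x, hx, hxP⟩ := hev
  have hx' : ∀ i, ∃ n : ℕ, n < s ∧ (n : ℤ) = x i := by
    intro i
    obtain ⟨n, hn, h⟩ := Finset.mem_image.1 (hx i)
    exact ⟨n, Finset.mem_range.1 hn, h⟩
  choose v hv hvx using hx'
  refine ⟨v, hv, ex α₀, (α₀ none : ℕ), (α₀ none).2, ?_⟩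
  have h1 : eval x P = ∑ α ∈ A, wt q v α := by
    rw [hP, map_sum]
    refine Finset.sum_congr rfl fun α _ => ?_
    rw [eval_monomial, wt]
    have h2 : ((m α).prod fun n e => x n ^ e) = ∏ i, x i ^ (α (some (some i)) : ℕ) := by
      rw [Finsupp.prod_fintype _ _ (fun i => pow_zero _)]
      rfl
    have h3 : ∏ i, (-2 * (v i : ℤ)) ^ (α (some (some i)) : ℕ) =
        (-2) ^ (∑ i, (α (some (some i)) : ℕ)) * ∏ i, x i ^ (α (some (some i)) : ℕ) := by
      rw [← Finset.prod_pow_eq_pow_sum, ← Finset.prod_mul_distrib]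
      refine Finset.prod_congr rfl fun i _ => ?_
      rw [mul_pow, hvx]
    rw [h2, h3]
    ring
  rw [← h1]
  exact hxP

lemma group_sum {s : ℕ} (q : (Option (Option ι) → Fin s) → ℤ) (v : ι → ℕ) (e : ℕ) (S : ℝ) :
    ∑ α : Option (Option ι) → Fin s with ex α = e, (wt q v α : ℝ) * S ^ (α none : ℕ) =
      ∑ c ∈ Finset.range s, ((∑ α : Option (Option ι) → Fin s with
        ex α = e ∧ (α none : ℕ) = c, wt q v α : ℤ) : ℝ) * S ^ c := by
  rw [← Finset.sum_fiberwise_of_maps_to (t := Finset.range s)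
    (g := fun α : Option (Option ι) → Fin s => (α none : ℕ))
    (fun α _ => Finset.mem_range.2 (α none).2)]
  refine Finset.sum_congr rfl fun c _ => ?_
  rw [Finset.filter_filter]
  push_cast
  rw [Finset.sum_mul]
  refine Finset.sum_congr rfl fun α hα => ?_
  rw [(Finset.mem_filter.1 hα).2.2]

/-- A nonnegative polynomial with a zero has a zero of bounded size. -/
theorem bounded_zero (G : MvPolynomial (Option ι) ℤ) (τ : ℕ)
    (hind : ∀ x y : Option ι → ℝ, (∀ i, x (some i) = y (some i)) → aeval x G = aeval y G)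
    (hpos : ∀ x : Option ι → ℝ, 0 ≤ aeval x G)
    (hdeg : ∀ j, G.degreeOf j ≤ 4) (hlen : len G ≤ 2 ^ τ) (hι : Fintype.card ι ≤ 2 ^ (τ + 3))
    (L₀ : ι → ℝ) (hL₀ : aeval (pt 0 L₀) G = 0) :
    ∃ L : ι → ℝ, aeval (pt 0 L) G = 0 ∧
      ∑ i, L i ^ 2 ≤ 2 ^ (2 ^ NB (Fintype.card ι) (τ + 3)) := by
  set k := Fintype.card ι with hk
  set s := 2 * (4 * (k + 2)) ^ (k + 1) with hs
  have hcardJ : Fintype.card (Option ι) = k + 1 := by rw [Fintype.card_option]
  have hcardκ : Fintype.card (Option (Option ι)) = k + 2 := by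
    rw [Fintype.card_option, hcardJ]
  -- the polynomials
  set p : Option (Option ι) → MvPolynomial (Option ι) ℤ := fun j => match j with
    | none => ∑ i : ι, X (some i) ^ 2
    | some none => X none
    | some (some i) => pderiv (some i) G + C 2 * (X none * X (some i)) with hp
  have hX : ∀ j j' : Option ι, (X j : MvPolynomial (Option ι) ℤ).degreeOf j' ≤ 1 := by
    intro j j'
    rw [degreeOf_X]
    split <;> simp
  have hpdeg : ∀ j i, (p j).degreeOf i ≤ 4 := by
    intro j i
    rcases j with _ | _ | j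
    · refine (degreeOf_sum_le _ _ _).trans (Finset.sup_le fun j _ => ?_)
      refine (degreeOf_pow_le _ _ _).trans ?_
      have := hX (some j) i
      omega
    · exact (hX _ _).trans (by norm_num)
    · refine (degreeOf_add_le _ _ _).trans (max_le (degreeOf_pderiv G _ _ 4 (hdeg _)) ?_)
      refine (degreeOf_C_mul_le _ _ _).trans ((degreeOf_mul_le _ _ _).trans ?_)
      have h1 := hX none i
      have h2 := hX (some j) i
      omega
  have hplen : ∀ j, len (p j) ≤ 2 ^ (τ + 3) := by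
    intro j
    rcases j with _ | _ | j
    · refine (len_sum _ _).trans ?_
      refine (Finset.sum_le_sum fun i _ => len_pow _ 1 (len_X (some i)) 2).trans ?_
      simpa using hι
    · exact (len_X _).trans Nat.one_le_two_pow
    · refine (len_add _ _).trans ?_
      have h1 : len (pderiv (some j) G) ≤ 4 * 2 ^ τ :=
        (len_pderiv G _ 4 (hdeg _)).trans (Nat.mul_le_mul_left _ hlen)
      have h2 : len (C 2 * (X none * X (some j)) : MvPolynomial (Option ι) ℤ) ≤ 2 := by
        refine (len_mul _ _).trans ?_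
        have h3 := len_C (σ := Option ι) 2
        have h4 : len (X none * X (some j) : MvPolynomial (Option ι) ℤ) ≤ 1 * 1 :=
          (len_mul _ _).trans (Nat.mul_le_mul (len_X _) (len_X _))
        exact (Nat.mul_le_mul h3 h4).trans (by norm_num)
      have h3 : 1 ≤ 2 ^ τ := Nat.one_le_two_pow
      calc _ ≤ 4 * 2 ^ τ + 2 := Nat.add_le_add h1 h2
        _ ≤ 2 ^ (τ + 3) := by rw [pow_add]; omega
  obtain ⟨q, hq0, hqb, hqr⟩ := elim p 4 (τ + 3) s (by rw [hcardκ, hcardJ]) (by norm_num) hpdeg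
    hplen (by rw [hcardκ, hcardJ])
  rw [hcardκ] at hqb
  obtain ⟨v, hv, e₁, c₁, hc₁, hec⟩ := exists_v' q hq0
  -- the grouped coefficients
  set R : ℕ → ℕ → ℤ := fun e c =>
    ∑ α : Option (Option ι) → Fin s with ex α = e ∧ (α none : ℕ) = c, wt q v α with hR
  have hexR : ∃ e, ∃ c < s, R e c ≠ 0 := ⟨e₁, c₁, hc₁, hec⟩
  classical
  set e₀ := Nat.find hexR with he₀
  obtain ⟨c₀, hc₀, hRc₀⟩ : ∃ c < s, R e₀ c ≠ 0 := Nat.find_spec hexR
  have hRmin : ∀ e < e₀, ∀ c < s, R e c = 0 := by
    intro e he c hc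
    by_contra hne
    exact Nat.find_min hexR he ⟨c, hc, hne⟩
  -- the minimisers
  have hL₀' : ∀ ε, aeval (pt ε L₀) G = 0 := fun ε => by
    rw [← hL₀]
    exact hind _ _ fun i => rfl
  choose! L hL1 hL2 hL3 using fun (ε : ℝ) (hε : 0 < ε) =>
    exists_min G hpos L₀ hL₀' v ε hε
  set Cc : ℝ := ∑ i, (L₀ i + v i) ^ 2 with hCc
  have hCc0 : 0 ≤ Cc := Finset.sum_nonneg fun i _ => sq_nonneg _
  set ε : ℕ → ℝ := fun n => 1 / ((n : ℝ) + 1) with hε
  have hεpos : ∀ n, 0 < ε n := fun n => by positivity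
  have hεlim : Filter.Tendsto ε Filter.atTop (nhds 0) := tendsto_one_div_add_atTop_nhds_zero_nat
  obtain ⟨L', -, φ, hφ, hφlim⟩ := (isCompact_K v Cc).tendsto_subseq
    (x := fun n => L (ε n)) fun n => hL1 (ε n) (hεpos n)
  have hεφ : Filter.Tendsto (fun n => ε (φ n)) Filter.atTop (nhds 0) :=
    hεlim.comp hφ.tendsto_atTop
  -- the limit is a zero
  have hG' : aeval (pt 0 L') G = 0 := by
    have hc : Continuous fun L : ι → ℝ => aeval (pt 0 L) G := by
      refine (continuous_aeval' G).comp ?_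
      refine continuous_pi fun j => ?_
      cases j with
      | none => exact continuous_const
      | some j => exact continuous_apply j
    have h1 : Filter.Tendsto (fun n => aeval (pt 0 (L (ε (φ n)))) G) Filter.atTop
        (nhds (aeval (pt 0 L') G)) := (hc.tendsto L').comp hφlim
    have h2 : Filter.Tendsto (fun n => ε (φ n) * Cc) Filter.atTop (nhds (0 * Cc)) :=
      hεφ.mul_const Cc
    rw [zero_mul] at h2
    refine le_antisymm ?_ (hpos _)
    refine le_of_tendsto_of_tendsto' h1 h2 fun n => ?_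
    have h3 := hL2 (ε (φ n)) (hεpos _)
    have h4 : aeval (pt 0 (L (ε (φ n)))) G = aeval (pt (ε (φ n)) (L (ε (φ n)))) G :=
      hind _ _ fun i => rfl
    rw [h4]
    exact h3
  refine ⟨L', hG', ?_⟩
  -- the relation at the minimisers
  have hrel : ∀ ε : ℝ, 0 < ε → ∑ α : Option (Option ι) → Fin s,
      (wt q v α : ℝ) * ε ^ ex α * (∑ i, L ε i ^ 2) ^ (α none : ℕ) = 0 := by
    intro ε hε
    have h1 := congrArg (aeval (pt ε (L ε))) hqr
    rw [map_sum, map_zero] at h1
    rw [← h1]
    refine Finset.sum_congr rfl fun α _ => ?_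
    rw [map_mul, map_prod, Fintype.prod_option, Fintype.prod_option]
    simp only [map_pow]
    have h2 : aeval (pt ε (L ε)) (p none) = ∑ i, L ε i ^ 2 := by simp [hp, pt]
    have h3 : aeval (pt ε (L ε)) (p (some none)) = ε := by simp [hp, pt]
    have h4 : ∀ i, aeval (pt ε (L ε)) (p (some (some i))) = ε * (-2 * (v i : ℝ)) := by
      intro i
      have h5 := hL3 ε hε i
      have h6 : aeval (pt ε (L ε)) (p (some (some i))) =
          aeval (pt ε (L ε)) (pderiv (some i) G) + 2 * (ε * L ε i) := by simp [hp, pt]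
      rw [h6]
      linarith
    rw [h2, h3]
    simp only [h4, mul_pow]
    rw [Finset.prod_mul_distrib, Finset.prod_pow_eq_pow_sum]
    have h7 : (aeval (pt ε (L ε)) (C (q α) : MvPolynomial (Option ι) ℤ) : ℝ) = (q α : ℝ) := by
      rw [← algebraMap_eq, AlgHom.commutes]; simp
    rw [h7, wt, ex]
    push_cast
    simp only [mul_pow]
    ring
  -- dividing by a power of `ε`
  have hrel2 : ∀ ε : ℝ, 0 < ε → ∑ α : Option (Option ι) → Fin s with e₀ ≤ ex α,
      (wt q v α : ℝ) * ε ^ (ex α - e₀) * (∑ i, L ε i ^ 2) ^ (α none : ℕ) = 0 := by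
    intro ε hε
    have h1 := hrel ε hε
    rw [← Finset.sum_filter_add_sum_filter_not Finset.univ (fun α => e₀ ≤ ex α)] at h1
    have h2 : ∑ α : Option (Option ι) → Fin s with ¬ e₀ ≤ ex α,
        (wt q v α : ℝ) * ε ^ ex α * (∑ i, L ε i ^ 2) ^ (α none : ℕ) = 0 := by
      rw [← Finset.sum_fiberwise_of_maps_to (t := Finset.range e₀)
        (g := fun α : Option (Option ι) → Fin s => ex α)
        (fun α hα => Finset.mem_range.2 (not_le.1 (Finset.mem_filter.1 hα).2))]
      refine Finset.sum_eq_zero fun e he => ?_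
      have he' := Finset.mem_range.1 he
      have h3 : ∑ α ∈ (Finset.univ.filter fun α : Option (Option ι) → Fin s =>
          ¬ e₀ ≤ ex α).filter (fun α => ex α = e),
          (wt q v α : ℝ) * ε ^ ex α * (∑ i, L ε i ^ 2) ^ (α none : ℕ) =
          ε ^ e * ∑ α : Option (Option ι) → Fin s with ex α = e,
            (wt q v α : ℝ) * (∑ i, L ε i ^ 2) ^ (α none : ℕ) := by
        rw [Finset.mul_sum, Finset.filter_filter]
        refine Finset.sum_congr ?_ fun α hα => ?_
        · ext α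
          simp only [Finset.mem_filter, Finset.mem_univ, true_and]
          constructor
          · exact fun h => h.2
          · exact fun h => ⟨by omega, h⟩
        · have h4 := (Finset.mem_filter.1 hα).2
          have h5 : ex α = e := by first | exact h4.2 | exact h4
          rw [h5]
          ring
      rw [h3, group_sum]
      have h6 : ∑ c ∈ Finset.range s, ((∑ α : Option (Option ι) → Fin s with
          ex α = e ∧ (α none : ℕ) = c, wt q v α : ℤ) : ℝ) * (∑ i, L ε i ^ 2) ^ c = 0 := by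
        refine Finset.sum_eq_zero fun c hc => ?_
        have h7 := hRmin e he' c (Finset.mem_range.1 hc)
        simp only [hR] at h7
        rw [h7]
        simp
      rw [h6, mul_zero]
    rw [h2, add_zero] at h1
    have h3 : ∑ α : Option (Option ι) → Fin s with e₀ ≤ ex α,
        (wt q v α : ℝ) * ε ^ ex α * (∑ i, L ε i ^ 2) ^ (α none : ℕ) =
        ε ^ e₀ * ∑ α : Option (Option ι) → Fin s with e₀ ≤ ex α,
          (wt q v α : ℝ) * ε ^ (ex α - e₀) * (∑ i, L ε i ^ 2) ^ (α none : ℕ) := by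
      rw [Finset.mul_sum]
      refine Finset.sum_congr rfl fun α hα => ?_
      have h4 : e₀ ≤ ex α := (Finset.mem_filter.1 hα).2
      have h5 : ε ^ ex α = ε ^ e₀ * ε ^ (ex α - e₀) := by rw [← pow_add, Nat.add_sub_cancel' h4]
      rw [h5]
      ring
    rw [h3] at h1
    exact (mul_eq_zero.1 h1).resolve_left (pow_ne_zero _ hε.ne')
  -- the limit
  set S' : ℝ := ∑ i, L' i ^ 2 with hS'
  have hSlim : Filter.Tendsto (fun n => ∑ i, L (ε (φ n)) i ^ 2) Filter.atTop (nhds S') := by
    have hc : Continuous fun L : ι → ℝ => ∑ i, L i ^ 2 := by fun_prop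
    exact (hc.tendsto L').comp hφlim
  have hlim : ∑ α : Option (Option ι) → Fin s with e₀ ≤ ex α,
      (wt q v α : ℝ) * 0 ^ (ex α - e₀) * S' ^ (α none : ℕ) = 0 := by
    have h1 : Filter.Tendsto (fun n => ∑ α : Option (Option ι) → Fin s with e₀ ≤ ex α,
        (wt q v α : ℝ) * ε (φ n) ^ (ex α - e₀) * (∑ i, L (ε (φ n)) i ^ 2) ^ (α none : ℕ))
        Filter.atTop (nhds (∑ α : Option (Option ι) → Fin s with e₀ ≤ ex α,
          (wt q v α : ℝ) * 0 ^ (ex α - e₀) * S' ^ (α none : ℕ))) := by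
      refine tendsto_finsetSum _ fun α _ => ?_
      exact ((hεφ.pow _).const_mul _).mul (hSlim.pow _)
    have h2 : (fun n => ∑ α : Option (Option ι) → Fin s with e₀ ≤ ex α,
        (wt q v α : ℝ) * ε (φ n) ^ (ex α - e₀) * (∑ i, L (ε (φ n)) i ^ 2) ^ (α none : ℕ)) =
        fun _ => 0 := by
      funext n
      exact hrel2 _ (hεpos _)
    rw [h2] at h1
    exact (tendsto_nhds_unique h1 tendsto_const_nhds)
  have hroot : ∑ c ∈ Finset.range s, (R e₀ c : ℝ) * S' ^ c = 0 := by
    have h1 := group_sum q v e₀ S'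
    rw [← hlim] 
    simp only [hR]
    rw [← h1]
    rw [← Finset.sum_filter_add_sum_filter_not (Finset.univ.filter fun α => e₀ ≤ ex α)
      (fun α => ex α = e₀)]
    have h2 : ∑ α ∈ (Finset.univ.filter fun α : Option (Option ι) → Fin s =>
        e₀ ≤ ex α).filter (fun α => ¬ ex α = e₀),
        (wt q v α : ℝ) * 0 ^ (ex α - e₀) * S' ^ (α none : ℕ) = 0 := by
      refine Finset.sum_eq_zero fun α hα => ?_
      have h3 := (Finset.mem_filter.1 hα).2
      have h4 := (Finset.mem_filter.1 (Finset.mem_filter.1 hα).1).2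
      rw [zero_pow (by omega)]
      ring
    rw [h2, add_zero, Finset.filter_filter]
    refine Finset.sum_congr ?_ fun α hα => ?_
    · ext α
      simp only [Finset.mem_filter, Finset.mem_univ, true_and]
      constructor
      · exact fun h => ⟨h.symm.le, h⟩
      · exact fun h => h.2
    · have h3 := (Finset.mem_filter.1 hα).2
      have h4 : ex α = e₀ := by first | exact h3.2 | exact h3
      rw [h4, Nat.sub_self, pow_zero, mul_one]
  -- the bound on the coefficients
  have hRb : ∀ e c, (R e c).natAbs ≤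
      s ^ (k + 2) * (s ^ (k + 2) * 2 ^ ((τ + 3) * ((k + 2) * s))) * (2 * s) ^ (k * s) := by
    intro e c
    have h1 : ∀ α : Option (Option ι) → Fin s, (wt q v α).natAbs ≤
        (s ^ (k + 2) * 2 ^ ((τ + 3) * ((k + 2) * s))) * (2 * s) ^ (k * s) := by
      intro α
      rw [wt, Int.natAbs_mul]
      refine Nat.mul_le_mul (hqb α) ?_
      rw [← Int.natAbsHom_apply, map_prod]
      have h2 : ∀ i ∈ (Finset.univ : Finset ι),
          Int.natAbsHom ((-2 * (v i : ℤ)) ^ (α (some (some i)) : ℕ)) ≤ (2 * s) ^ s := by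
        intro i _
        rw [Int.natAbsHom_apply, Int.natAbs_pow, Int.natAbs_mul]
        have h3 : (-2 : ℤ).natAbs * ((v i : ℤ)).natAbs ≤ 2 * s := by
          rw [Int.natAbs_natCast]
          exact Nat.mul_le_mul (by norm_num) (hv i).le
        refine (Nat.pow_le_pow_left h3 _).trans (Nat.pow_le_pow_right ?_ (α _).2.le)
        have := hv i
        omega
      refine (Finset.prod_le_prod' h2).trans ?_
      rw [Finset.prod_const, Finset.card_univ, ← hk, ← pow_mul, mul_comm s k]
    have h2 : (R e c).natAbs ≤ ∑ α : Option (Option ι) → Fin s with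
        ex α = e ∧ (α none : ℕ) = c, (wt q v α).natAbs := by
      simp only [hR]
      exact Int.natAbs_sum_le _ _
    refine h2.trans ((Finset.sum_le_sum fun α _ => h1 α).trans ?_)
    rw [Finset.sum_const, smul_eq_mul]
    have h3 : (Finset.univ.filter fun α : Option (Option ι) → Fin s =>
        ex α = e ∧ (α none : ℕ) = c).card ≤ s ^ (k + 2) := by
      refine (Finset.card_le_univ _).trans ?_
      rw [Fintype.card_fun, Fintype.card_fin, hcardκ]
    calc _ ≤ s ^ (k + 2) * ((s ^ (k + 2) * 2 ^ ((τ + 3) * ((k + 2) * s))) *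
          (2 * s) ^ (k * s)) := Nat.mul_le_mul_right _ h3
      _ = _ := by ring
  -- the bound on the root
  set r : Polynomial ℝ := ∑ c ∈ Finset.range s, Polynomial.C (R e₀ c : ℝ) * Polynomial.X ^ c
    with hr
  have hrc : ∀ c, r.coeff c = if c < s then (R e₀ c : ℝ) else 0 := by
    intro c
    rw [hr, Polynomial.finsetSum_coeff]
    simp only [Polynomial.coeff_C_mul_X_pow]
    rw [Finset.sum_ite_eq]
    simp [Finset.mem_range]
  have hr0 : r ≠ 0 := by
    intro h
    have h1 := hrc c₀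
    rw [h, Polynomial.coeff_zero, if_pos hc₀] at h1
    exact hRc₀ (by exact_mod_cast h1.symm)
  have hrroot : r.IsRoot S' := by
    rw [Polynomial.IsRoot, hr, Polynomial.eval_finsetSum]
    simpa using hroot
  have hb := Polynomial.IsRoot.norm_lt_cauchyBound hr0 hrroot
  set Hb : ℕ := s ^ (k + 2) * (s ^ (k + 2) * 2 ^ ((τ + 3) * ((k + 2) * s))) *
    (2 * s) ^ (k * s) with hHb
  have hcb : Polynomial.cauchyBound r ≤ (Hb : NNReal) + 1 := by
    unfold Polynomial.cauchyBound
    refine add_le_add_left ?_ 1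
    have hlead : (1 : NNReal) ≤ ‖r.leadingCoeff‖₊ := by
      rw [Polynomial.leadingCoeff, hrc]
      split_ifs with h
      · have h1 : R e₀ r.natDegree ≠ 0 := by
          intro h1
          have h2 := Polynomial.leadingCoeff_ne_zero.2 hr0
          rw [Polynomial.leadingCoeff, hrc, if_pos h, h1] at h2
          exact h2 (by simp)
        have h2 : (1 : ℤ) ≤ |R e₀ r.natDegree| := Int.one_le_abs h1
        have h3 : (1 : ℝ) ≤ ‖(R e₀ r.natDegree : ℝ)‖ := by
          rw [Real.norm_eq_abs]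
          exact_mod_cast h2
        exact_mod_cast h3
      · exfalso
        have h2 := Polynomial.leadingCoeff_ne_zero.2 hr0
        rw [Polynomial.leadingCoeff, hrc, if_neg h] at h2
        exact h2 rfl
    have hsup : (Finset.range r.natDegree).sup (fun x => ‖r.coeff x‖₊) ≤ (Hb : NNReal) := by
      refine Finset.sup_le fun c _ => ?_
      rw [hrc]
      split_ifs
      · have h1 := hRb e₀ c
        have h2 : ‖(R e₀ c : ℝ)‖ ≤ (Hb : ℝ) := by
          rw [Real.norm_eq_abs, ← Int.cast_abs, ← Nat.cast_natAbs]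
          exact_mod_cast h1
        exact_mod_cast h2
      · simp
    calc (Finset.range r.natDegree).sup (fun x => ‖r.coeff x‖₊) / ‖r.leadingCoeff‖₊
        ≤ (Finset.range r.natDegree).sup (fun x => ‖r.coeff x‖₊) / 1 :=
          div_le_div_of_nonneg_left (by simp) one_pos hlead
      _ ≤ Hb := by rw [div_one]; exact hsup
  have h1 : ‖S'‖₊ ≤ (Hb : NNReal) + 1 := hb.le.trans hcb
  have h2 : ‖S'‖ ≤ (Hb : ℝ) + 1 := by exact_mod_cast h1
  have h3 : S' ≤ (Hb : ℝ) + 1 := (Real.le_norm_self S').trans h2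
  have h4 := numeric2 k (τ + 3) s hs
  have h5 : ((Hb + 1 : ℕ) : ℝ) ≤ ((2 ^ (2 ^ NB k (τ + 3)) : ℕ) : ℝ) := by exact_mod_cast h4
  push_cast at h5
  exact h3.trans h5

end main

end Pool.Agent.Helper92.Theta
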