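import Mathlib
import Pool.Agent.Helper92.Theta.Sdp
import Pool.Agent.Helper92.Theta.Zero

/-!
# Feasible semidefinite systems have solutions of doubly exponential size
-/

open MvPolynomial

namespace Pool.Agent.Helper92.Theta

/-- The polynomial `⟨A, L Lᵀ⟩ - b`. -/
noncomputable def fpoly (n : ℕ) (a : List (List BInt) × BInt) :
    MvPolynomial (Option (Fin n × Fin n)) ℤ :=
  (∑ i : Fin n, ∑ j : Fin n, C (ival (entry a.1 i j)) *
    ∑ l : Fin n, X (some (i, l)) * X (some (j, l))) - C (ival a.2)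

/-- The sum of the squares of these polynomials. -/
noncomputable def gpoly (I : SDP) : MvPolynomial (Option (Fin I.1 × Fin I.1)) ℤ :=
  (I.2.map fun a => fpoly I.1 a ^ 2).sum

lemma bval_lt (l : List Bool) : bval l < 2 ^ l.length := by
  induction l with
  | nil => simp [bval]
  | cons b l ih =>
    rw [bval, List.length_cons, pow_succ]
    cases b <;> simp <;> omega

lemma ival_le (z : BInt) (ℓ : ℕ) (h : z.2.length ≤ ℓ) : (ival z).natAbs ≤ 2 ^ ℓ := by
  have h1 := (bval_lt z.2).le.trans (Nat.pow_le_pow_right (by norm_num) h)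
  unfold ival
  cases z.1
  · simpa using h1
  · simpa using h1

lemma fpoly_val (n : ℕ) (a : List (List BInt) × BInt) (x : Option (Fin n × Fin n) → ℝ) :
    aeval x (fpoly n a) = (∑ i : Fin n, ∑ j : Fin n, (ival (entry a.1 i j) : ℝ) *
      ∑ l : Fin n, x (some (i, l)) * x (some (j, l))) - ival a.2 := by
  simp only [fpoly, map_sub, map_sum, map_mul, aeval_X]
  simp

lemma gpoly_val (I : SDP) (x : Option (Fin I.1 × Fin I.1) → ℝ) :
    aeval x (gpoly I) = (I.2.map fun a => (aeval x (fpoly I.1 a)) ^ 2).sum := by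
  rw [gpoly, map_list_sum, List.map_map]
  congr 1
  refine List.map_congr_left fun a _ => ?_
  simp

lemma fpoly_deg (n : ℕ) (a : List (List BInt) × BInt) (j : Option (Fin n × Fin n)) :
    (fpoly n a).degreeOf j ≤ 2 := by
  classical
  have hX : ∀ j j' : Option (Fin n × Fin n),
      (X j : MvPolynomial (Option (Fin n × Fin n)) ℤ).degreeOf j' ≤ 1 := by
    intro j j'
    rw [degreeOf_X]
    split <;> simp
  refine (degreeOf_sub_le _ _ _).trans (max_le ?_ ?_)
  · refine (degreeOf_sum_le _ _ _).trans (Finset.sup_le fun i _ => ?_)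
    refine (degreeOf_sum_le _ _ _).trans (Finset.sup_le fun i' _ => ?_)
    refine (degreeOf_C_mul_le _ _ _).trans ?_
    refine (degreeOf_sum_le _ _ _).trans (Finset.sup_le fun l _ => ?_)
    refine (degreeOf_mul_le _ _ _).trans ?_
    have h1 := hX (some (i, l)) j
    have h2 := hX (some (i', l)) j
    omega
  · rw [degreeOf_C]; norm_num

lemma degreeOf_list_sum {σ α : Type} (l : List α) (f : α → MvPolynomial σ ℤ) (j : σ) (d : ℕ)
    (h : ∀ a ∈ l, (f a).degreeOf j ≤ d) : ((l.map f).sum).degreeOf j ≤ d := by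
  induction l with
  | nil => simp
  | cons a l ih =>
    rw [List.map_cons, List.sum_cons]
    refine (degreeOf_add_le _ _ _).trans (max_le (h a (List.mem_cons_self)) (ih ?_))
    exact fun b hb => h b (List.mem_cons_of_mem _ hb)

lemma len_list_sum {σ α : Type} (l : List α) (f : α → MvPolynomial σ ℤ) (B : ℕ)
    (h : ∀ a ∈ l, len (f a) ≤ B) : len ((l.map f).sum) ≤ l.length * B := by
  induction l with
  | nil => simp [len_zero]
  | cons a l ih =>
    rw [List.map_cons, List.sum_cons, List.length_cons, Nat.succ_mul, Nat.add_comm]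
    exact (len_add _ _).trans (Nat.add_le_add (h a (List.mem_cons_self))
      (ih fun b hb => h b (List.mem_cons_of_mem _ hb)))

lemma fpoly_len (n : ℕ) (a : List (List BInt) × BInt) (ℓ : ℕ) (hn : n ≤ ℓ)
    (h1 : a.2.2.length ≤ ℓ) (h2 : ∀ i j, (entry a.1 i j).2.length ≤ ℓ) :
    len (fpoly n a) ≤ 2 ^ (4 * ℓ + 1) := by
  have hn' : n ≤ 2 ^ ℓ := hn.trans (Nat.lt_pow_self (by norm_num)).le
  have h3 : len (fpoly n a) ≤ n * (n * (2 ^ ℓ * n)) + 2 ^ ℓ := by
    refine (len_sub _ _).trans (Nat.add_le_add ?_ ?_)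
    · refine (len_sum _ _).trans ?_
      have h4 : ∀ i : Fin n, len (∑ j : Fin n, C (ival (entry a.1 i j)) *
          ∑ l : Fin n, X (some (i, l)) * X (some (j, l)) :
            MvPolynomial (Option (Fin n × Fin n)) ℤ) ≤ n * (2 ^ ℓ * n) := by
        intro i
        refine (len_sum _ _).trans ?_
        have h5 : ∀ j : Fin n, len (C (ival (entry a.1 i j)) *
            ∑ l : Fin n, X (some (i, l)) * X (some (j, l)) :
              MvPolynomial (Option (Fin n × Fin n)) ℤ) ≤ 2 ^ ℓ * n := by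
          intro j
          refine (len_mul _ _).trans (Nat.mul_le_mul ((len_C _).trans (ival_le _ _ (h2 i j))) ?_)
          refine (len_sum _ _).trans ?_
          have h6 : ∀ l : Fin n, len (X (some (i, l)) * X (some (j, l)) :
              MvPolynomial (Option (Fin n × Fin n)) ℤ) ≤ 1 := fun l =>
            (len_mul _ _).trans ((Nat.mul_le_mul (len_X _) (len_X _)).trans (by norm_num))
          refine (Finset.sum_le_sum fun l _ => h6 l).trans ?_
          simp
        refine (Finset.sum_le_sum fun j _ => h5 j).trans ?_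
        simp
      refine (Finset.sum_le_sum fun i _ => h4 i).trans ?_
      simp
    · exact (len_C _).trans (ival_le _ _ h1)
  refine h3.trans ?_
  calc n * (n * (2 ^ ℓ * n)) + 2 ^ ℓ
      ≤ 2 ^ ℓ * (2 ^ ℓ * (2 ^ ℓ * 2 ^ ℓ)) + 2 ^ ℓ * (2 ^ ℓ * (2 ^ ℓ * 2 ^ ℓ)) := by
        refine Nat.add_le_add (by gcongr) ?_
        exact Nat.le_mul_of_pos_right _ (by positivity)
    _ = 2 ^ (4 * ℓ + 1) := by
      rw [← pow_add, ← pow_add, ← pow_add, pow_succ]
      have : ℓ + (ℓ + (ℓ + ℓ)) = 4 * ℓ := by ring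
      rw [this]; ring

open scoped MatrixOrder Matrix.Norms.L2Operator in
lemma exists_root {n : Type} [Fintype n] [DecidableEq n] {Y : Matrix n n ℝ}
    (hY : Y.PosSemidef) : ∃ B : Matrix n n ℝ, Y = B.conjTranspose * B :=
  CStarAlgebra.nonneg_iff_eq_star_mul_self.mp hY.nonneg

/-- A feasible semidefinite system has a solution whose diagonal entries are at most
`2 ^ (2 ^ N)`, where `N` is polynomial in the size of the system. -/
theorem bfeas_of_feas (I : SDP) (ℓ : ℕ) (hn : I.1 ≤ ℓ) (hm : I.2.length ≤ ℓ)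
    (hb : ∀ a ∈ I.2, a.2.2.length ≤ ℓ ∧ ∀ i j, (entry a.1 i j).2.length ≤ ℓ)
    (h : I ∈ SDPFeas) : BFeas (NB (I.1 * I.1) (9 * ℓ + 5)) I := by
  classical
  obtain ⟨Y, hY, hs⟩ := h
  obtain ⟨B, rfl⟩ := exists_root hY
  have hBval : ∀ i j : Fin I.1, (B.conjTranspose * B) i j = ∑ l, B l i * B l j := by
    intro i j
    simp [Matrix.mul_apply]
  have hm' : I.2.length ≤ 2 ^ ℓ := hm.trans (Nat.lt_pow_self (by norm_num)).le
  have hn' : I.1 ≤ 2 ^ ℓ := hn.trans (Nat.lt_pow_self (by norm_num)).le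
  have hι : Fintype.card (Fin I.1 × Fin I.1) = I.1 * I.1 := by simp
  obtain ⟨L, hL0, hLb⟩ := bounded_zero (gpoly I) (9 * ℓ + 2)
    (by
      intro x y hxy
      rw [gpoly_val, gpoly_val]
      simp only [fpoly_val, hxy])
    (by
      intro x
      rw [gpoly_val]
      refine List.sum_nonneg fun r hr => ?_
      obtain ⟨a, -, rfl⟩ := List.mem_map.1 hr
      exact sq_nonneg _)
    (by
      intro j
      refine degreeOf_list_sum _ _ _ _ fun a _ => ?_
      refine (degreeOf_pow_le _ _ _).trans ?_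
      have := fpoly_deg I.1 a j
      omega)
    (by
      refine (len_list_sum _ _ (2 ^ (8 * ℓ + 2)) fun a ha => ?_).trans ?_
      · refine (len_pow _ _ (fpoly_len I.1 a ℓ hn (hb a ha).1 (hb a ha).2) 2).trans ?_
        rw [← pow_mul]
        exact Nat.pow_le_pow_right (by norm_num) (by omega)
      · calc I.2.length * 2 ^ (8 * ℓ + 2) ≤ 2 ^ ℓ * 2 ^ (8 * ℓ + 2) :=
              Nat.mul_le_mul_right _ hm'
          _ = 2 ^ (9 * ℓ + 2) := by
            rw [← pow_add]; congr 1; ring)
    (by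
      rw [hι]
      calc I.1 * I.1 ≤ 2 ^ ℓ * 2 ^ ℓ := Nat.mul_le_mul hn' hn'
        _ = 2 ^ (2 * ℓ) := by rw [← pow_add]; congr 1; ring
        _ ≤ 2 ^ (9 * ℓ + 2 + 3) := Nat.pow_le_pow_right (by norm_num) (by omega))
    (fun x => B x.2 x.1)
    (by
      rw [gpoly_val]
      refine List.sum_eq_zero fun r hr => ?_
      obtain ⟨a, ha, rfl⟩ := List.mem_map.1 hr
      have h1 := hs a ha
      rw [fpoly_val]
      simp only [hBval] at h1
      have h2 : ∀ i l : Fin I.1, pt 0 (fun x : Fin I.1 × Fin I.1 => B x.2 x.1) (some (i, l)) =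
          B l i := fun i l => rfl
      simp only [h2, h1, sub_self]
      norm_num)
  have hL1 : ∀ a ∈ I.2, aeval (pt 0 L) (fpoly I.1 a) = 0 := by
    intro a ha
    rw [gpoly_val] at hL0
    have h1 : (aeval (pt 0 L) (fpoly I.1 a)) ^ 2 ≤
        (I.2.map fun a => (aeval (pt 0 L) (fpoly I.1 a)) ^ 2).sum := by
      refine List.single_le_sum (fun r hr => ?_) _ (List.mem_map.2 ⟨a, ha, rfl⟩)
      obtain ⟨b, -, rfl⟩ := List.mem_map.1 hr
      exact sq_nonneg _
    rw [hL0] at h1
    exact pow_eq_zero_iff (two_ne_zero) |>.1 (le_antisymm h1 (sq_nonneg _))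
  refine ⟨(Matrix.of fun i l => L (i, l)) * (Matrix.of fun i l => L (i, l)).conjTranspose,
    Matrix.posSemidef_self_mul_conjTranspose _, ?_, ?_⟩
  · intro i
    rw [hι] at hLb
    have h1 : ((Matrix.of fun i l => L (i, l)) *
        (Matrix.of fun i l => L (i, l)).conjTranspose : Matrix (Fin I.1) (Fin I.1) ℝ) i i =
        ∑ l, L (i, l) ^ 2 := by
      simp [Matrix.mul_apply, sq]
    rw [h1]
    refine le_trans ?_ hLb
    rw [Fintype.sum_prod_type]
    exact Finset.single_le_sum (f := fun i => ∑ l, L (i, l) ^ 2)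
      (fun i _ => Finset.sum_nonneg fun l _ => sq_nonneg _) (Finset.mem_univ i)
  · intro a ha
    have h1 := hL1 a ha
    rw [fpoly_val, sub_eq_zero] at h1
    rw [← h1]
    refine Finset.sum_congr rfl fun i _ => Finset.sum_congr rfl fun j _ => ?_
    congr 1

end Pool.Agent.Helper92.Theta
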