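import Mathlib
import Pool.Agent.Helper92.Theta.Lin

/-!
# Completeness of the halving construction
-/

open scoped InnerProductSpace

set_option linter.unusedSectionVars false
set_option linter.unusedSimpArgs false

namespace Pool.Agent.Helper92.Theta

variable {H H₁ : Type} [NormedAddCommGroup H] [InnerProductSpace ℝ H] [NormedAddCommGroup H₁]
  [InnerProductSpace ℝ H₁]

/-- The halving chain of vectors. -/
noncomputable def Avec (e : H → H₁) (b : Nm → H₁) (x : H) : ℕ → H₁
  | 0 => e x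
  | i + 1 => (1 / 2 : ℝ) • (Avec e b x i + b (EN i 0) + b (EN i 1) + b (EN i 2))

section avec

variable {e : H → H₁} {b : Nm → H₁} (he : ∀ x y, ⟪e x, e y⟫_ℝ = ⟪x, y⟫_ℝ)
  (hb : ∀ i j, ⟪b i, b j⟫_ℝ = if i = j then 1 else 0)
  (heb : ∀ x i, ⟪e x, b i⟫_ℝ = 0) (hbe : ∀ x i, ⟪b i, e x⟫_ℝ = 0)

include hb heb in
lemma avec_b (x : H) (p : Nm) (hp : p.1 ≠ 2) : ∀ i, ⟪Avec e b x i, b p⟫_ℝ = 0
  | 0 => heb x p
  | i + 1 => by
    have h : ∀ c, ⟪b (EN i c), b p⟫_ℝ = 0 := by
      intro c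
      rw [hb, if_neg]
      rintro rfl
      exact hp rfl
    simp only [Avec, inner_smul_left, inner_add_left, avec_b x p hp i, h, RCLike.conj_to_real]
    ring

include hb heb in
lemma avec_E (x : H) (i' c : ℕ) : ∀ i, i ≤ i' → ⟪Avec e b x i, b (EN i' c)⟫_ℝ = 0
  | 0, _ => heb x _
  | i + 1, hi => by
    have h : ∀ c', ⟪b (EN i c'), b (EN i' c)⟫_ℝ = 0 := by
      intro c'
      rw [hb, if_neg]
      intro h
      simp only [EN, Prod.mk.injEq, true_and] at h
      omega
    simp only [Avec, inner_smul_left, inner_add_left, avec_E x i' c i (by omega), h,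
      RCLike.conj_to_real]
    ring

include he hbe in
lemma avec_e (x y : H) : ∀ i, ⟪Avec e b x i, e y⟫_ℝ = (1 / 2) ^ i * ⟪x, y⟫_ℝ
  | 0 => by simp [Avec, he]
  | i + 1 => by
    simp only [Avec, inner_smul_left, inner_add_left, avec_e x y i, hbe,
      RCLike.conj_to_real]
    ring

include he hb heb in
lemma avec_self (x : H) (hx : ⟪x, x⟫_ℝ = 1) : ∀ i, ⟪Avec e b x i, Avec e b x i⟫_ℝ = 1
  | 0 => by
    change ⟪e x, e x⟫_ℝ = 1
    rw [he, hx]
  | i + 1 => by
    have h : ∀ c, ⟪Avec e b x i, b (EN i c)⟫_ℝ = 0 := fun c => avec_E hb heb x i c i le_rfl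
    have h' : ∀ c, ⟪b (EN i c), Avec e b x i⟫_ℝ = 0 := fun c => by
      rw [real_inner_comm]; exact h c
    have h2 : ∀ c c', ⟪b (EN i c), b (EN i c')⟫_ℝ = if c = c' then 1 else 0 := by
      intro c c'
      rw [hb]
      simp [EN]
    simp only [Avec, inner_smul_left, inner_smul_right, inner_add_left, inner_add_right,
      avec_self x hx i, h, h', h2, RCLike.conj_to_real]
    norm_num

lemma avec_v {v : H₁} (hev : ∀ y, ⟪e y, v⟫_ℝ = 0) (hEv : ∀ i c, ⟪b (EN i c), v⟫_ℝ = 0) (x : H) :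
    ∀ i, ⟪Avec e b x i, v⟫_ℝ = 0
  | 0 => hev x
  | i + 1 => by
    simp only [Avec, inner_smul_left, inner_add_left, avec_v hev hEv x i, hEv,
      RCLike.conj_to_real]
    ring

end avec

/-- A unit vector with prescribed inner products with an orthonormal family. -/
theorem exists_v {ι : Type} [DecidableEq ι] {e : H → H₁} {b : ι → H₁}
    (hb : ∀ i j, ⟪b i, b j⟫_ℝ = if i = j then 1 else 0)
    (heb : ∀ x i, ⟪e x, b i⟫_ℝ = 0) (F : Finset ι) (x₀ : ι) (hx₀ : x₀ ∉ F)
    (coef : ι → ℝ) (hsum : ∑ x ∈ F, coef x ^ 2 ≤ 1) :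
    ∃ v : H₁, ⟪v, v⟫_ℝ = 1 ∧ (∀ y, ⟪e y, v⟫_ℝ = 0) ∧
      ∀ x, x ≠ x₀ → ⟪b x, v⟫_ℝ = if x ∈ F then coef x else 0 := by
  set ω : ℝ := Real.sqrt (1 - ∑ x ∈ F, coef x ^ 2) with hω
  have hω2 : ω * ω = 1 - ∑ x ∈ F, coef x ^ 2 := Real.mul_self_sqrt (by linarith)
  set w : H₁ := ∑ x ∈ F, coef x • b x with hw
  have hbw : ∀ x, ⟪b x, w⟫_ℝ = if x ∈ F then coef x else 0 := by
    intro x
    rw [hw, inner_sum]
    by_cases hx : x ∈ F
    · rw [if_pos hx, Finset.sum_eq_single x]
      · rw [inner_smul_right, hb, if_pos rfl, mul_one]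
      · intro j _ hj; rw [inner_smul_right, hb, if_neg (Ne.symm hj), mul_zero]
      · intro h; exact absurd hx h
    · rw [if_neg hx]
      refine Finset.sum_eq_zero fun j hj => ?_
      rw [inner_smul_right, hb, if_neg, mul_zero]
      rintro rfl
      exact hx hj
  have hww : ⟪w, w⟫_ℝ = ∑ x ∈ F, coef x ^ 2 := by
    conv_lhs => rw [hw]
    rw [sum_inner]
    refine Finset.sum_congr rfl fun x hx => ?_
    rw [inner_smul_left, ← hw, hbw, if_pos hx, RCLike.conj_to_real]
    ring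
  have hwx : ⟪w, b x₀⟫_ℝ = 0 := by
    rw [real_inner_comm, hbw, if_neg hx₀]
  refine ⟨w + ω • b x₀, ?_, ?_, ?_⟩
  · simp only [inner_add_left, inner_add_right, inner_smul_left, inner_smul_right, hww, hwx,
      hbw, if_neg hx₀, hb, RCLike.conj_to_real]
    simp only [if_true]
    linarith
  · intro y
    rw [inner_add_right, inner_smul_right, heb, hw, inner_sum, Finset.sum_eq_zero]
    · simp
    · intro x _
      rw [inner_smul_right, heb, mul_zero]
  · intro x hx
    rw [inner_add_right, inner_smul_right, hb, if_neg hx, hbw]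
    ring

/-- The term with given indices. -/
def tmOf (E : List (List Tm)) (k m : ℕ) : Tm := ((((E[k]?).getD [])[m]?).getD tm0)

/-- The assignment of vectors. -/
noncomputable def Uvec (K : ℕ) (E : List (List Tm)) (u : ℕ → H) (e : H → H₁) (b : Nm → H₁)
    (v : H₁) : Nm → H₁
  | (1, c, _) => b (eN c)
  | (2, i, c) => b (EN i c)
  | (3, a, i) => Avec e b (u a) i
  | (4, c, _) => (1 / 2 : ℝ) • (e (u c) + v + b (eN 2) + b (eN 3))
  | (5, k, m) => b (gN k m)
  | (6, k, m) => (1 / 2 : ℝ) • (Avec e b (u (tmOf E k m).2.2.1) (K - (tmOf E k m).2.1) +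
      b (gN k m) + b (eN 0) + b (eN 1))
  | (7, k, m) => b (hN k m)
  | (8, k, m) => (1 / 2 : ℝ) • (b (hN k (m + 1)) - b (hN k m) -
      sg (tmOf E k m).1 • b (gN k m) + b (eN 0))
  | _ => v

theorem numeric (n M : ℕ) : 2 * n * (M + 1) * (M + 1) ^ 2 ≤ 4 ^ (n + 2 * M + 1) := by
  have h1 : n ≤ 4 ^ n := (Nat.lt_pow_self (by norm_num)).le
  have h2 : M + 1 ≤ 2 ^ M := Nat.lt_pow_self (by norm_num)
  have h3 : (M + 1) * (M + 1) ^ 2 ≤ 4 ^ (2 * M) := by
    calc (M + 1) * (M + 1) ^ 2 = (M + 1) ^ 3 := by ring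
      _ ≤ (2 ^ M) ^ 3 := Nat.pow_le_pow_left h2 3
      _ = 2 ^ (3 * M) := by rw [← pow_mul]; ring_nf
      _ ≤ 2 ^ (4 * M) := Nat.pow_le_pow_right (by norm_num) (by omega)
      _ = 4 ^ (2 * M) := by
        rw [show (4 : ℕ) = 2 ^ 2 from rfl, ← pow_mul]; ring_nf
  calc 2 * n * (M + 1) * (M + 1) ^ 2 = 2 * n * ((M + 1) * (M + 1) ^ 2) := by ring
    _ ≤ (4 * 4 ^ n) * 4 ^ (2 * M) := Nat.mul_le_mul (by omega) h3
    _ = 4 ^ (n + 2 * M + 1) := by ring

/-- Completeness. -/
theorem lin_of_usat (K M : ℕ) (E : List (List Tm)) (hM : ∀ e ∈ E, e.length ≤ M)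
    (hK0 : E.length + 2 * M + 1 ≤ K)
    (hK : ∀ e ∈ E, ∀ τ ∈ e, τ.2.1 + (E.length + 2 * M + 1) ≤ K) (h : USat E) :
    GSat (linC K E) := by
  obtain ⟨H, _, _, u, hu, hE⟩ := h
  obtain ⟨H₁, _, _, e, b, he, hb0, heb, hbe⟩ := exists_ext H Nm
  have hb : ∀ i j, ⟪b i, b j⟫_ℝ = if i = j then 1 else 0 := fun i j => by
    rw [hb0]; congr
  clear hb0
  -- the coefficients
  set coef : Nm → ℝ := fun p => match p with
    | (5, k, m) => - ((1 / 2) ^ (K - (tmOf E k m).2.1) *
        ⟪u (tmOf E k m).2.2.1, u (tmOf E k m).2.2.2⟫_ℝ)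
    | (7, k, m) => - ((1 / 2) ^ K * ((((E[k]?).getD []).take m).map (tval u)).sum)
    | _ => 0 with hcoef
  set F : Finset Nm := ((Finset.range E.length) ×ˢ (Finset.range (M + 1))).image
      (fun x => gN x.1 x.2) ∪ ((Finset.range E.length) ×ˢ (Finset.range (M + 1))).image
      (fun x => hN x.1 x.2) with hF
  have hFcard : (F.card : ℝ) ≤ 2 * E.length * (M + 1) := by
    have h1 : F.card ≤ E.length * (M + 1) + E.length * (M + 1) := by
      refine (Finset.card_union_le _ _).trans (Nat.add_le_add ?_ ?_)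
      · refine Finset.card_image_le.trans ?_
        rw [Finset.card_product, Finset.card_range, Finset.card_range]
      · refine Finset.card_image_le.trans ?_
        rw [Finset.card_product, Finset.card_range, Finset.card_range]
    have h2 : (F.card : ℝ) ≤ ((E.length * (M + 1) + E.length * (M + 1) : ℕ) : ℝ) := by
      exact_mod_cast h1
    push_cast at h2
    linarith
  have hmemg : ∀ k m, k < E.length → m ≤ M → gN k m ∈ F := by
    intro k m hk hm
    refine Finset.mem_union_left _ (Finset.mem_image.2 ⟨(k, m), ?_, rfl⟩)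
    simp [hk]; omega
  have hmemh : ∀ k m, k < E.length → m ≤ M → hN k m ∈ F := by
    intro k m hk hm
    refine Finset.mem_union_right _ (Finset.mem_image.2 ⟨(k, m), ?_, rfl⟩)
    simp [hk]; omega
  have hnotF : ∀ p : Nm, p.1 ≠ 5 → p.1 ≠ 7 → p ∉ F := by
    intro p h5 h7 hp
    rcases Finset.mem_union.1 hp with hp | hp
    · obtain ⟨x, -, rfl⟩ := Finset.mem_image.1 hp
      exact h5 rfl
    · obtain ⟨x, -, rfl⟩ := Finset.mem_image.1 hp
      exact h7 rfl
  set δ : ℝ := (M + 1) * (1 / 2) ^ (E.length + 2 * M + 1) with hδ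
  have hcs : ∀ a c, |⟪u a, u c⟫_ℝ| ≤ 1 := by
    intro a c
    have h1 : ∀ a, ‖u a‖ = 1 := by
      intro a
      have := hu a
      rw [real_inner_self_eq_norm_sq] at this
      have h2 : (0 : ℝ) ≤ ‖u a‖ := norm_nonneg _
      nlinarith
    have := abs_real_inner_le_norm (u a) (u c)
    rw [h1, h1] at this
    linarith
  have hpow : (0 : ℝ) < (1 / 2) ^ (E.length + 2 * M + 1) := by positivity
  have htm : ∀ k m, (tmOf E k m).2.1 + (E.length + 2 * M + 1) ≤ K := by
    intro k m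
    unfold tmOf
    cases hk : E[k]? with
    | none => simpa [tm0] using hK0
    | some e' =>
      have hmem : e' ∈ E := List.mem_of_getElem? hk
      rw [Option.getD_some]
      cases hm : e'[m]? with
      | none => simpa [tm0] using hK0
      | some τ => exact hK e' hmem τ (List.mem_of_getElem? hm)
  have hE0 : ∀ k : ℕ, (((E[k]?).getD []).map (tval u)).sum = 0 := by
    intro k
    cases hk : E[k]? with
    | none => simp
    | some e' => exact hE e' (List.mem_of_getElem? hk)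
  have hlen : ∀ k : ℕ, ((E[k]?).getD []).length ≤ M := by
    intro k
    cases hk : E[k]? with
    | none => simp
    | some e' => exact hM e' (List.mem_of_getElem? hk)
  have htb : ∀ k : ℕ, ∀ τ ∈ (E[k]?).getD [], τ.2.1 + (E.length + 2 * M + 1) ≤ K := by
    intro k τ hτ
    cases hk : E[k]? with
    | none => rw [hk] at hτ; simp at hτ
    | some e' => rw [hk] at hτ; exact hK e' (List.mem_of_getElem? hk) τ hτ
  have hcoefle : ∀ p ∈ F, |coef p| ≤ δ := by
    intro p hp
    rcases Finset.mem_union.1 hp with hp | hp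
    · obtain ⟨⟨k, m⟩, -, rfl⟩ := Finset.mem_image.1 hp
      simp only [hcoef, gN, abs_neg, abs_mul]
      rw [abs_of_pos (by positivity : (0 : ℝ) < (1 / 2) ^ (K - (tmOf E k m).2.1))]
      have h1 : (1 / 2 : ℝ) ^ (K - (tmOf E k m).2.1) ≤ (1 / 2) ^ (E.length + 2 * M + 1) := by
        refine pow_le_pow_of_le_one (by norm_num) (by norm_num) ?_
        have := htm k m
        omega
      have h2 : (1 / 2 : ℝ) ^ (E.length + 2 * M + 1) ≤ δ := by
        rw [hδ]
        have : (0 : ℝ) ≤ M := Nat.cast_nonneg _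
        nlinarith
      calc (1 / 2 : ℝ) ^ (K - (tmOf E k m).2.1) *
          |⟪u (tmOf E k m).2.2.1, u (tmOf E k m).2.2.2⟫_ℝ|
          ≤ (1 / 2 : ℝ) ^ (K - (tmOf E k m).2.1) * 1 :=
            mul_le_mul_of_nonneg_left (hcs _ _) (by positivity)
        _ ≤ δ := by rw [mul_one]; exact h1.trans h2
    · obtain ⟨⟨k, m⟩, -, rfl⟩ := Finset.mem_image.1 hp
      simp only [hcoef, hN, abs_neg, abs_mul]
      have key : ∀ l : List Tm, (∀ τ ∈ l, τ.2.1 + (E.length + 2 * M + 1) ≤ K) →
          |(1 / 2 : ℝ) ^ K| * |(l.map (tval u)).sum| ≤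
            l.length * (1 / 2) ^ (E.length + 2 * M + 1) := by
        intro l
        induction l with
        | nil => intro _; simp
        | cons τ l ih =>
          intro hl
          have h1 := ih fun τ' hτ' => hl τ' (List.mem_cons_of_mem _ hτ')
          have h2 := hl τ (List.mem_cons_self)
          have h3 : |(1 / 2 : ℝ) ^ K| * |tval u τ| ≤ (1 / 2) ^ (E.length + 2 * M + 1) := by
            rw [tval, abs_mul, abs_mul, abs_of_pos (by positivity : (0 : ℝ) < (1 / 2) ^ K),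
              abs_of_pos (by positivity : (0 : ℝ) < 2 ^ τ.2.1)]
            have h4 : |sg τ.1| = 1 := by cases τ.1 <;> simp [sg]
            rw [h4, one_mul]
            have h5 := hcs τ.2.2.1 τ.2.2.2
            have h6 : (1 / 2 : ℝ) ^ K * 2 ^ τ.2.1 ≤ (1 / 2) ^ (E.length + 2 * M + 1) := by
              have h7 : K = (K - τ.2.1) + τ.2.1 := by omega
              conv_lhs => rw [h7, pow_add, mul_assoc, ← mul_pow]
              norm_num only [one_pow, mul_one]
              refine pow_le_pow_of_le_one (by norm_num) (by norm_num) ?_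
              omega
            calc (1 / 2 : ℝ) ^ K * (2 ^ τ.2.1 * |⟪u τ.2.2.1, u τ.2.2.2⟫_ℝ|)
                = ((1 / 2 : ℝ) ^ K * 2 ^ τ.2.1) * |⟪u τ.2.2.1, u τ.2.2.2⟫_ℝ| := by ring
              _ ≤ ((1 / 2 : ℝ) ^ K * 2 ^ τ.2.1) * 1 :=
                mul_le_mul_of_nonneg_left h5 (by positivity)
              _ ≤ _ := by rw [mul_one]; exact h6
          rw [List.map_cons, List.sum_cons, List.length_cons]
          push_cast
          calc |(1 / 2 : ℝ) ^ K| * |tval u τ + (l.map (tval u)).sum|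
              ≤ |(1 / 2 : ℝ) ^ K| * (|tval u τ| + |(l.map (tval u)).sum|) :=
                mul_le_mul_of_nonneg_left (abs_add_le _ _) (abs_nonneg _)
            _ ≤ _ := by rw [mul_add]; linarith
      refine (key _ fun τ hτ => htb k τ (List.mem_of_mem_take hτ)).trans ?_
      rw [hδ]
      refine mul_le_mul_of_nonneg_right ?_ hpow.le
      have h1 : ((((E[k]?).getD []).take m).length : ℝ) ≤ M := by
        have := (List.length_take_le m ((E[k]?).getD [])).trans (Nat.le_refl _)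
        have h2 : (((E[k]?).getD []).take m).length ≤ M :=
          (List.length_take_le' m _).trans (hlen k)
        exact_mod_cast h2
      linarith
  have hsum : ∑ x ∈ F, coef x ^ 2 ≤ 1 := by
    have h1 : ∑ x ∈ F, coef x ^ 2 ≤ ∑ x ∈ F, δ ^ 2 := by
      refine Finset.sum_le_sum fun x hx => ?_
      have := hcoefle x hx
      rw [← sq_abs]
      exact pow_le_pow_left₀ (abs_nonneg _) this 2
    rw [Finset.sum_const, nsmul_eq_mul] at h1
    refine h1.trans ?_
    have h2 : (F.card : ℝ) * δ ^ 2 ≤ (2 * E.length * (M + 1)) * δ ^ 2 :=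
      mul_le_mul_of_nonneg_right hFcard (sq_nonneg _)
    refine h2.trans ?_
    have h3 : ((2 * E.length * (M + 1) * (M + 1) ^ 2 : ℕ) : ℝ) ≤
        ((4 ^ (E.length + 2 * M + 1) : ℕ) : ℝ) := by
      exact_mod_cast numeric E.length M
    push_cast at h3
    have h4 : δ ^ 2 = (M + 1) ^ 2 * (1 / 4) ^ (E.length + 2 * M + 1) := by
      rw [hδ, mul_pow, ← pow_mul, mul_comm _ 2, pow_mul]
      norm_num
    rw [h4]
    calc 2 * (E.length : ℝ) * (M + 1) * ((M + 1) ^ 2 * (1 / 4) ^ (E.length + 2 * M + 1))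
        = (2 * E.length * (M + 1) * (M + 1) ^ 2) * (1 / 4) ^ (E.length + 2 * M + 1) := by ring
      _ ≤ 4 ^ (E.length + 2 * M + 1) * (1 / 4) ^ (E.length + 2 * M + 1) :=
        mul_le_mul_of_nonneg_right h3 (by positivity)
      _ = 1 := by rw [← mul_pow]; norm_num
  obtain ⟨v, hvv, hev, hbv⟩ := exists_v (e := e) hb heb F vN (hnotF _ (by simp [vN])
    (by simp [vN])) coef hsum
  have hve : ∀ y, ⟪v, e y⟫_ℝ = 0 := fun y => by rw [real_inner_comm]; exact hev y
  have hEv : ∀ i c, ⟪b (EN i c), v⟫_ℝ = 0 := by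
    intro i c
    rw [hbv _ (by simp [EN, vN]), if_neg (hnotF _ (by simp [EN]) (by simp [EN]))]
  have hebv : ∀ c, ⟪b (eN c), v⟫_ℝ = 0 := by
    intro c
    rw [hbv _ (by simp [eN, vN]), if_neg (hnotF _ (by simp [eN]) (by simp [eN]))]
  have hveb : ∀ c, ⟪v, b (eN c)⟫_ℝ = 0 := fun c => by rw [real_inner_comm]; exact hebv c
  have hgv : ∀ k m, k < E.length → m ≤ M → ⟪b (gN k m), v⟫_ℝ =
      - ((1 / 2) ^ (K - (tmOf E k m).2.1) *
        ⟪u (tmOf E k m).2.2.1, u (tmOf E k m).2.2.2⟫_ℝ) := by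
    intro k m hk hm
    rw [hbv _ (by simp [gN, vN]), if_pos (hmemg k m hk hm)]
    rfl
  have hhv : ∀ k m, k < E.length → m ≤ M → ⟪b (hN k m), v⟫_ℝ =
      - ((1 / 2) ^ K * ((((E[k]?).getD []).take m).map (tval u)).sum) := by
    intro k m hk hm
    rw [hbv _ (by simp [hN, vN]), if_pos (hmemh k m hk hm)]
    rfl
  -- inner products of the fresh vectors
  have bee : ∀ c c', ⟪b (eN c), b (eN c')⟫_ℝ = if c = c' then 1 else 0 := by
    intro c c'; rw [hb]; simp [eN]
  have bEE : ∀ i c i' c', ⟪b (EN i c), b (EN i' c')⟫_ℝ = if i = i' ∧ c = c' then 1 else 0 := by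
    intro i c i' c'; rw [hb]; simp [EN]
  have beg : ∀ c k m, ⟪b (eN c), b (gN k m)⟫_ℝ = 0 := by
    intro c k m; rw [hb]; simp [eN, gN]
  have bge : ∀ c k m, ⟪b (gN k m), b (eN c)⟫_ℝ = 0 := by
    intro c k m; rw [hb]; simp [eN, gN]
  have beh : ∀ c k m, ⟪b (eN c), b (hN k m)⟫_ℝ = 0 := by
    intro c k m; rw [hb]; simp [eN, hN]
  have bhe : ∀ c k m, ⟪b (hN k m), b (eN c)⟫_ℝ = 0 := by
    intro c k m; rw [hb]; simp [eN, hN]
  have bgh : ∀ k m k' m', ⟪b (gN k m), b (hN k' m')⟫_ℝ = 0 := by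
    intro k m k' m'; rw [hb]; simp [hN, gN]
  have bhg : ∀ k m k' m', ⟪b (hN k m), b (gN k' m')⟫_ℝ = 0 := by
    intro k m k' m'; rw [hb]; simp [hN, gN]
  have bgg : ∀ k m, ⟪b (gN k m), b (gN k m)⟫_ℝ = 1 := by
    intro k m; rw [hb]; simp
  have bhh : ∀ k m m', ⟪b (hN k m), b (hN k m')⟫_ℝ = if m = m' then 1 else 0 := by
    intro k m m'; rw [hb]; simp [hN]
  have Ae : ∀ a i c, ⟪Avec e b (u a) i, b (eN c)⟫_ℝ = 0 := fun a i c =>
    avec_b hb heb _ _ (by simp [eN]) i
  have eA : ∀ a i c, ⟪b (eN c), Avec e b (u a) i⟫_ℝ = 0 := fun a i c => by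
    rw [real_inner_comm]; exact Ae a i c
  have Ag : ∀ a i k m, ⟪Avec e b (u a) i, b (gN k m)⟫_ℝ = 0 := fun a i k m =>
    avec_b hb heb _ _ (by simp [gN]) i
  have gA : ∀ a i k m, ⟪b (gN k m), Avec e b (u a) i⟫_ℝ = 0 := fun a i k m => by
    rw [real_inner_comm]; exact Ag a i k m
  have AE : ∀ a i c, ⟪Avec e b (u a) i, b (EN i c)⟫_ℝ = 0 := fun a i c =>
    avec_E hb heb _ _ _ i le_rfl
  have EA : ∀ a i c, ⟪b (EN i c), Avec e b (u a) i⟫_ℝ = 0 := fun a i c => by
    rw [real_inner_comm]; exact AE a i c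
  have Av : ∀ a i, ⟪Avec e b (u a) i, v⟫_ℝ = 0 := fun a i => avec_v hev hEv _ i
  have vA : ∀ a i, ⟪v, Avec e b (u a) i⟫_ℝ = 0 := fun a i => by
    rw [real_inner_comm]; exact Av a i
  have Aee : ∀ a i y, ⟪Avec e b (u a) i, e y⟫_ℝ = (1 / 2) ^ i * ⟪u a, y⟫_ℝ := fun a i y =>
    avec_e he hbe _ _ i
  have AA : ∀ a i, ⟪Avec e b (u a) i, Avec e b (u a) i⟫_ℝ = 1 := fun a i =>
    avec_self he hb heb _ (hu a) i
  have hA0 : ∀ a, Avec e b (u a) 0 = e (u a) := fun a => rfl
  have hA1 : ∀ a i, Avec e b (u a) (i + 1) = (1 / 2 : ℝ) • (Avec e b (u a) i + b (EN i 0) +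
    b (EN i 1) + b (EN i 2)) := fun a i => rfl
  -- the assignment
  set U := Uvec K E u e b v with hU
  have U0 : U vN = v := rfl
  have U1 : ∀ c, U (eN c) = b (eN c) := fun c => rfl
  have U2 : ∀ i c, U (EN i c) = b (EN i c) := fun i c => rfl
  have U3 : ∀ a i, U (AN a i) = Avec e b (u a) i := fun a i => rfl
  have U4 : ∀ c, U (TN c) = (1 / 2 : ℝ) • (e (u c) + v + b (eN 2) + b (eN 3)) := fun c => rfl
  have U5 : ∀ k m, U (gN k m) = b (gN k m) := fun k m => rfl
  have U6 : ∀ k m, U (SN k m) = (1 / 2 : ℝ) • (Avec e b (u (tmOf E k m).2.2.1)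
      (K - (tmOf E k m).2.1) + b (gN k m) + b (eN 0) + b (eN 1)) := fun k m => rfl
  have U7 : ∀ k m, U (hN k m) = b (hN k m) := fun k m => rfl
  have U8 : ∀ k m, U (sN k m) = (1 / 2 : ℝ) • (b (hN k (m + 1)) - b (hN k m) -
      sg (tmOf E k m).1 • b (gN k m) + b (eN 0)) := fun k m => rfl
  have hsg : ∀ s, sg s * sg s = 1 := by intro s; cases s <;> simp [sg]
  have bb : ∀ p, ⟪b p, b p⟫_ℝ = 1 := by intro p; rw [hb, if_pos rfl]
  refine ⟨H₁, inferInstance, inferInstance, U, ?_, ?_⟩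
  · -- unit vectors
    have hT : ∀ c, ⟪(1 / 2 : ℝ) • (e (u c) + v + b (eN 2) + b (eN 3)),
        (1 / 2 : ℝ) • (e (u c) + v + b (eN 2) + b (eN 3))⟫_ℝ = 1 := by
      intro c
      simp only [inner_smul_left, inner_smul_right, inner_add_left, inner_add_right, he, hu, hev,
        hve, heb, hbe, hvv, hebv, hveb, bee, RCLike.conj_to_real]
      norm_num
    have hS : ∀ a i k m, ⟪(1 / 2 : ℝ) • (Avec e b (u a) i + b (gN k m) + b (eN 0) + b (eN 1)),
        (1 / 2 : ℝ) • (Avec e b (u a) i + b (gN k m) + b (eN 0) + b (eN 1))⟫_ℝ = 1 := by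
      intro a i k m
      simp only [inner_smul_left, inner_smul_right, inner_add_left, inner_add_right, AA, Ae, eA,
        Ag, gA, bee, beg, bge, bgg, RCLike.conj_to_real]
      norm_num
    have hs : ∀ s k m, ⟪(1 / 2 : ℝ) • (b (hN k (m + 1)) - b (hN k m) - sg s • b (gN k m) +
        b (eN 0)), (1 / 2 : ℝ) • (b (hN k (m + 1)) - b (hN k m) - sg s • b (gN k m) +
        b (eN 0))⟫_ℝ = 1 := by
      intro s k m
      have := hsg s
      simp only [inner_smul_left, inner_smul_right, inner_add_left, inner_add_right,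
        inner_sub_left, inner_sub_right, bhh, bhg, bgh, bgg, beg, bge, beh, bhe, bee,
        RCLike.conj_to_real]
      simp
      linarith
    intro p
    rw [hU]
    unfold Uvec
    split
    · exact bb _
    · exact bb _
    · exact AA _ _
    · exact hT _
    · exact bb _
    · exact hS _ _ _ _
    · exact bb _
    · exact hs _ _ _
    · exact hvv
  · have hbase : ∀ c ∈ baseC, ⟪U c.1, U c.2.1⟫_ℝ = (c.2.2 : ℝ) / 2 - 1 := by
      simp only [baseC, List.forall_mem_cons, U0, U1, hveb, bee]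
      norm_num
    have hchain : ∀ x y i, ∀ c ∈ chainC x y i, ⟪U c.1, U c.2.1⟫_ℝ = (c.2.2 : ℝ) / 2 - 1 := by
      intro x y i
      simp only [chainC, List.forall_mem_cons, U2, U3, hA0, hA1, inner_smul_left,
        inner_smul_right, inner_add_left, inner_add_right, AA, AE, EA, bEE, hbe,
        RCLike.conj_to_real]
      norm_num
    have hterm : ∀ k < E.length, ∀ m < ((E[k]?).getD []).length,
        ∀ c ∈ termC K k m (tmOf E k m), ⟪U c.1, U c.2.1⟫_ℝ = (c.2.2 : ℝ) / 2 - 1 := by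
      intro k hk m hm
      have hm' : m < M := lt_of_lt_of_le hm (hlen k)
      have e1 := hgv k m hk hm'.le
      have e2 := hhv k m hk hm'.le
      have e3 := hhv k (m + 1) hk hm'
      have e4 : ((((E[k]?).getD []).take (m + 1)).map (tval u)).sum =
          ((((E[k]?).getD []).take m).map (tval u)).sum + tval u (tmOf E k m) := by
        rw [List.take_succ_eq_append_getElem hm, List.map_append, List.sum_append]
        simp only [List.map_cons, List.map_nil, List.sum_cons, List.sum_nil, add_zero]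
        unfold tmOf
        rw [List.getElem?_eq_getElem hm, Option.getD_some]
      rw [e4] at e3
      have e5 := htm k m
      have u6 := U6 k m
      have u8 := U8 k m
      generalize tmOf E k m = τ at *
      have e6 : (1 / 2 : ℝ) ^ (K - τ.2.1) = (1 / 2) ^ K * 2 ^ τ.2.1 := by
        have : K = (K - τ.2.1) + τ.2.1 := by omega
        conv_rhs => rw [this, pow_add, mul_assoc, ← mul_pow]
        norm_num
      have e7 : tval u τ = sg τ.1 * 2 ^ τ.2.1 * ⟪u τ.2.2.1, u τ.2.2.2⟫_ℝ := rfl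
      have e8 := hsg τ.1
      have e9 : ((bif τ.1 then (1 : ℕ) else 3 : ℕ) : ℝ) / 2 - 1 = - sg τ.1 / 2 := by
        cases τ.1 <;> simp [sg] <;> norm_num
      have e10 : m + 1 ≠ m := by omega
      have e11 : m ≠ m + 1 := by omega
      simp only [termC, List.forall_mem_cons]
      simp only [U0, U1, U3, U4, U5, u6, U7, u8, hA0, inner_smul_left,
        inner_smul_right, inner_add_left, inner_add_right, inner_sub_left, inner_sub_right,
        he, hu, hev, hve, heb, hbe, hvv, hebv, hveb, AA, Ae, eA, Ag, gA, Av, vA, Aee,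
        bee, bhh, bhg, bgh, bgg, beg, bge, beh, bhe, e1, e2, e3, e6, e7, e9,
        if_neg e10, if_neg e11, if_true,
        RCLike.conj_to_real]
      norm_num
      exact ⟨by ring, by ring⟩
    intro c hc
    rcases List.mem_append.1 hc with hc | hc
    · exact hbase c hc
    · obtain ⟨k, hk, hc⟩ := List.mem_flatMap.1 hc
      rw [List.mem_range] at hk
      rw [eqC, List.mem_cons, List.mem_cons, List.mem_flatMap] at hc
      rcases hc with rfl | rfl | ⟨m, hm, hc⟩
      · rw [U7, U0, hhv k 0 hk (Nat.zero_le _)]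
        simp
      · rw [U7, U0, hhv k _ hk (hlen k), List.take_length, hE0]
        norm_num
      · rw [List.mem_range] at hm
        change c ∈ termC K k m (tmOf E k m) ++ (List.range K).flatMap (fun i =>
          chainC (tmOf E k m).2.2.1 (tmOf E k m).2.2.2 i) at hc
        rcases List.mem_append.1 hc with hc | hc
        · exact hterm k hk m hm c hc
        · obtain ⟨i, hi, hc⟩ := List.mem_flatMap.1 hc
          exact hchain _ _ _ c hc

end Pool.Agent.Helper92.Theta
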