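import Mathlib
import Pool.Agent.Helper92.Theta.LinC
import Pool.Agent.Helper92.Theta.Bound
import Pool.Agent.Helper92.Theta.Back
import Pool.Agent.Helper91.PolyTime.Typed

/-!
# The reductions are computable in polynomial time
-/

open Pool.Agent.Helper91.PolyTime

namespace Pool.Agent.Helper92.Theta

variable {α β γ : Type} [PEnc α] [PEnc β] [PEnc γ]

lemma ptf_getD {o : α → Option β} {d : α → β} (ho : PTF o) (hd : PTF d) :
    PTF (fun a => (o a).getD (d a)) := by
  refine (PTF.optCase (s := fun _ b => b) ho hd PTF.id.snd).of_eq fun a => ?_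
  cases o a <;> rfl

lemma ptf_tup {f : α → β} {g : α → γ} (hf : PTF f) (hg : PTF g) : PTF (fun a => (f a, g a)) :=
  PTF.pair hf hg

section names

variable {f g : α → ℕ} (hf : PTF f) (hg : PTF g)

include hf in
lemma ptf_eN : PTF (fun a => eN (f a)) := PTF.pair (PTF.const 1) (PTF.pair hf (PTF.const 0))

include hf hg in
lemma ptf_EN : PTF (fun a => EN (f a) (g a)) := PTF.pair (PTF.const 2) (PTF.pair hf hg)

include hf hg in
lemma ptf_AN : PTF (fun a => AN (f a) (g a)) := PTF.pair (PTF.const 3) (PTF.pair hf hg)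

include hf in
lemma ptf_TN : PTF (fun a => TN (f a)) := PTF.pair (PTF.const 4) (PTF.pair hf (PTF.const 0))

include hf hg in
lemma ptf_gN : PTF (fun a => gN (f a) (g a)) := PTF.pair (PTF.const 5) (PTF.pair hf hg)

include hf hg in
lemma ptf_SN : PTF (fun a => SN (f a) (g a)) := PTF.pair (PTF.const 6) (PTF.pair hf hg)

include hf hg in
lemma ptf_hN : PTF (fun a => hN (f a) (g a)) := PTF.pair (PTF.const 7) (PTF.pair hf hg)

include hf hg in
lemma ptf_sN : PTF (fun a => sN (f a) (g a)) := PTF.pair (PTF.const 8) (PTF.pair hf hg)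

end names

/-- Constraints. -/
lemma ptf_cst {p q : α → Nm} {t : α → ℕ} (hp : PTF p) (hq : PTF q) (ht : PTF t) :
    PTF (fun a => ((p a, q a, t a) : Cst)) := PTF.pair hp (PTF.pair hq ht)

attribute [local irreducible] vN eN EN AN TN gN SN hN sN

lemma ptf_chainC {f g h : α → ℕ} (hf : PTF f) (hg : PTF g) (hh : PTF h) :
    PTF (fun a => chainC (f a) (g a) (h a)) := by
  have hA : PTF (fun a : α => AN (f a) (h a)) := ptf_AN hf hh
  have hA1 : PTF (fun a : α => AN (f a) (h a + 1)) := ptf_AN hf (PTF.succ hh)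
  have he0 : PTF (fun a : α => EN (h a) 0) := ptf_EN hh (PTF.const 0)
  have he1 : PTF (fun a : α => EN (h a) 1) := ptf_EN hh (PTF.const 1)
  have he2 : PTF (fun a : α => EN (h a) 2) := ptf_EN hh (PTF.const 2)
  have hb : PTF (fun a : α => AN (g a) 0) := ptf_AN hg (PTF.const 0)
  have h2 : PTF (fun _ : α => 2) := PTF.const _
  have h3 : PTF (fun _ : α => 3) := PTF.const _
  exact
    PTF.cons (ptf_cst hA he0 h2) (PTF.cons (ptf_cst hA he1 h2) (PTF.cons (ptf_cst hA he2 h2)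
    (PTF.cons (ptf_cst he0 he1 h2) (PTF.cons (ptf_cst he0 he2 h2) (PTF.cons (ptf_cst he1 he2
    h2) (PTF.cons (ptf_cst hA1 hA h3) (PTF.cons (ptf_cst hA1 he0 h3) (PTF.cons (ptf_cst hA1
    he1 h3) (PTF.cons (ptf_cst hA1 he2 h3) (PTF.cons (ptf_cst he0 hb h2) (PTF.cons (ptf_cst
    he1 hb h2) (PTF.cons (ptf_cst he2 hb h2) (PTF.const [])))))))))))))

lemma ptf_termC {K k m : α → ℕ} {τ : α → Tm} (hK : PTF K) (hk : PTF k) (hm : PTF m)
    (hτ : PTF τ) : PTF (fun a => termC (K a) (k a) (m a) (τ a)) := by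
  have hv : PTF (fun _ : α => vN) := PTF.const _
  have he0 : PTF (fun _ : α => eN 0) := PTF.const _
  have he1 : PTF (fun _ : α => eN 1) := PTF.const _
  have he2 : PTF (fun _ : α => eN 2) := PTF.const _
  have he3 : PTF (fun _ : α => eN 3) := PTF.const _
  have hb : PTF (fun a : α => AN (τ a).2.2.2 0) := ptf_AN hτ.snd.snd.snd (PTF.const 0)
  have hT : PTF (fun a : α => TN (τ a).2.2.2) := ptf_TN hτ.snd.snd.snd
  have hA : PTF (fun a : α => AN (τ a).2.2.1 (K a - (τ a).2.1)) :=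
    ptf_AN hτ.snd.snd.fst (PTF.sub hK hτ.snd.fst)
  have hg : PTF (fun a : α => gN (k a) (m a)) := ptf_gN hk hm
  have hS : PTF (fun a : α => SN (k a) (m a)) := ptf_SN hk hm
  have hh : PTF (fun a : α => hN (k a) (m a)) := ptf_hN hk hm
  have hh1 : PTF (fun a : α => hN (k a) (m a + 1)) := ptf_hN hk (PTF.succ hm)
  have hs : PTF (fun a : α => sN (k a) (m a)) := ptf_sN hk hm
  have h1 : PTF (fun _ : α => 1) := PTF.const _
  have h2 : PTF (fun _ : α => 2) := PTF.const _
  have h3 : PTF (fun _ : α => 3) := PTF.const _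
  have hc : PTF (fun a : α => bif (τ a).1 then 1 else 3) := PTF.cond hτ.fst h1 h3
  exact
    PTF.cons (ptf_cst hb hv h2) (PTF.cons (ptf_cst hb he2 h2) (PTF.cons (ptf_cst hb he3 h2)
    (PTF.cons (ptf_cst hT hb h3) (PTF.cons (ptf_cst hT hv h3) (PTF.cons (ptf_cst hT he2 h3)
    (PTF.cons (ptf_cst hT he3 h3) (PTF.cons (ptf_cst hA hg h2) (PTF.cons (ptf_cst hA he0 h2)
    (PTF.cons (ptf_cst hA he1 h2) (PTF.cons (ptf_cst hg he0 h2) (PTF.cons (ptf_cst hg he1 h2)
    (PTF.cons (ptf_cst hS hA h3) (PTF.cons (ptf_cst hS hg h3) (PTF.cons (ptf_cst hS he0 h3)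
    (PTF.cons (ptf_cst hS he1 h3) (PTF.cons (ptf_cst hS hT h2) (PTF.cons (ptf_cst hA hv h2)
    (PTF.cons (ptf_cst hA he2 h2) (PTF.cons (ptf_cst hA he3 h2) (PTF.cons (ptf_cst hg hb h2)
    (PTF.cons (ptf_cst hg he2 h2) (PTF.cons (ptf_cst hg he3 h2) (PTF.cons (ptf_cst he0 hb h2)
    (PTF.cons (ptf_cst he1 hb h2) (PTF.cons (ptf_cst hh1 hh h2) (PTF.cons (ptf_cst hh1 hg h2)
    (PTF.cons (ptf_cst hh1 he0 h2) (PTF.cons (ptf_cst hh hg h2) (PTF.cons (ptf_cst hh he0 h2)
    (PTF.cons (ptf_cst hs hh1 h3) (PTF.cons (ptf_cst hs hh h1) (PTF.cons (ptf_cst hs hg hc)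
    (PTF.cons (ptf_cst hs he0 h3) (PTF.cons (ptf_cst hs hv h2) (PTF.const
    [])))))))))))))))))))))))))))))))))))

lemma ptf_eqC {K k : α → ℕ} {e : α → List Tm} (hK : PTF K) (hk : PTF k) (he : PTF e) :
    PTF (fun a => eqC (K a) (k a) (e a)) := by
  have hlen : PTF (fun a => (e a).length) := PTF.length he
  unfold eqC
  refine PTF.cons (ptf_cst (ptf_hN hk (PTF.const 0)) (PTF.const vN) (PTF.const 2))
    (PTF.cons (ptf_cst (ptf_hN hk hlen) (PTF.const vN) (PTF.const 2)) ?_)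
  refine PTF.flatMap (f := fun a m => termC (K a) (k a) m (((e a)[m]?).getD tm0) ++
    (List.range (K a)).flatMap fun i =>
      chainC (((e a)[m]?).getD tm0).2.2.1 (((e a)[m]?).getD tm0).2.2.2 i) (PTF.range hlen) ?_
  have h1 : PTF (fun p : α × ℕ => ((e p.1)[p.2]?).getD tm0) :=
    ptf_getD (PTF.getElem? PTF.id.snd (he.comp PTF.id.fst)) (PTF.const _)
  refine PTF.append (ptf_termC (hK.comp PTF.id.fst) (hk.comp PTF.id.fst) PTF.id.snd h1) ?_
  refine PTF.flatMap (f := fun (p : α × ℕ) i => chainC (((e p.1)[p.2]?).getD tm0).2.2.1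
    (((e p.1)[p.2]?).getD tm0).2.2.2 i) (PTF.range (hK.comp PTF.id.fst)) ?_
  have h2 := h1.comp (PTF.id (α := (α × ℕ) × ℕ)).fst
  exact ptf_chainC h2.snd.snd.fst h2.snd.snd.snd PTF.id.snd

lemma ptf_linC {K : α → ℕ} {E : α → List (List Tm)} (hK : PTF K) (hE : PTF E) :
    PTF (fun a => linC (K a) (E a)) := by
  unfold linC
  refine PTF.append (PTF.const _) ?_
  refine PTF.flatMap (f := fun a k => eqC (K a) k (((E a)[k]?).getD []))
    (PTF.range (PTF.length hE)) ?_
  exact ptf_eqC (hK.comp PTF.id.fst) PTF.id.snd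
    (ptf_getD (PTF.getElem? PTF.id.snd (hE.comp PTF.id.fst)) (PTF.const _))

section graph

variable {x y : α → VN} (hx : PTF x) (hy : PTF y)

include hx hy in
lemma ptf_vbase : PTF (fun a => decide (vbase (x a) (y a))) := by
  have x1 : PTF (fun a => (x a).1) := hx.fst
  have y1 : PTF (fun a => (y a).1) := hy.fst
  have x21 : PTF (fun a => (x a).2.1) := hx.snd.fst
  have y21 : PTF (fun a => (y a).2.1) := hy.snd.fst
  have x22 : PTF (fun a => (x a).2.2) := hx.snd.snd
  have y22 : PTF (fun a => (y a).2.2) := hy.snd.snd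
  have ht : PTF (fun _ : α => true) := PTF.const _
  have hf : PTF (fun _ : α => false) := PTF.const _
  have h1 := PTF.decide_and (PTF.eq x1 ht) (PTF.decide_and (PTF.eq y1 ht)
    (PTF.decide_and (PTF.eq x21 y21) (PTF.decide_not (PTF.eq x22 y22))))
  have h2 := PTF.decide_and (PTF.eq x1 hf) (PTF.decide_and (PTF.eq y1 hf)
    (PTF.decide_and (PTF.eq x21 y21) (PTF.decide_not (PTF.eq x22 y22))))
  have h3 := PTF.decide_and (PTF.eq x1 hf) (PTF.decide_and (PTF.eq y1 ht)
    (PTF.decide_or (PTF.decide_and (PTF.eq y21.fst x21.fst) (PTF.eq y22.fst ht))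
      (PTF.decide_and (PTF.eq y21.fst x21.snd.fst) (PTF.eq y22.fst
        (PTF.lt x22.snd x21.snd.snd)))))
  refine (PTF.decide_or h1 (PTF.decide_or h2 h3)).of_eq fun a => ?_
  rw [decide_eq_decide]
  rfl

include hx hy in
lemma ptf_vadj : PTF (fun a => decide (vadj (x a) (y a))) := by
  refine (PTF.decide_or (ptf_vbase hx hy) (ptf_vbase hy hx)).of_eq fun a => ?_
  rw [decide_eq_decide]
  rfl

end graph

lemma ptf_edges {L : α → List VN} (hL : PTF L) : PTF (fun a => edges (L a)) := by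
  unfold edges
  have hr : PTF (fun a => List.range (L a).length) := PTF.range (PTF.length hL)
  refine PTF.flatMap (f := fun a i => ((List.range (L a).length).filter fun j =>
    decide (vadj (((L a)[i]?).getD (uv (0, 0, 0) true 0))
      (((L a)[j]?).getD (uv (0, 0, 0) true 0)))).map fun j => (i, j)) hr ?_
  refine PTF.map (f := fun (p : α × ℕ) j => (p.2, j)) ?_ (PTF.pair PTF.id.fst.snd PTF.id.snd)
  refine PTF.filter (f := fun (p : α × ℕ) j =>
    decide (vadj (((L p.1)[p.2]?).getD (uv (0, 0, 0) true 0))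
      (((L p.1)[j]?).getD (uv (0, 0, 0) true 0)))) (hr.comp PTF.id.fst) ?_
  have hL' : PTF (fun p : (α × ℕ) × ℕ => L p.1.1) := hL.comp PTF.id.fst.fst
  exact ptf_vadj (ptf_getD (PTF.getElem? PTF.id.fst.snd hL') (PTF.const _))
    (ptf_getD (PTF.getElem? PTF.id.snd hL') (PTF.const _))

lemma ptf_uv {p : α → Nm} {s : Bool} {i : α → ℕ} (hp : PTF p) (hi : PTF i) :
    PTF (fun a => uv (p a) s (i a)) :=
  PTF.pair (PTF.const true) (PTF.pair (PTF.pair hp (PTF.pair (PTF.const (0, 0, 0)) (PTF.const 0)))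
    (PTF.pair (PTF.const s) hi))

lemma ptf_cv {c : α → Cst} {i : α → ℕ} (hc : PTF c) (hi : PTF i) :
    PTF (fun a => cv (c a) (i a)) :=
  PTF.pair (PTF.const false) (PTF.pair hc (PTF.pair (PTF.const true) hi))

lemma ptf_vlist {C : α → List Cst} (hC : PTF C) : PTF (fun a => vlist (C a)) := by
  unfold vlist
  refine PTF.flatMap (f := fun _ c => (List.range 4).flatMap fun i =>
    [cv c i, uv c.1 true i, uv c.1 false i, uv c.2.1 true i, uv c.2.1 false i]) hC ?_
  refine PTF.flatMap (f := fun (p : α × Cst) i =>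
    [cv p.2 i, uv p.2.1 true i, uv p.2.1 false i, uv p.2.2.1 true i, uv p.2.2.1 false i])
    (PTF.const _) ?_
  have h1 : PTF (fun p : (α × Cst) × ℕ => p.1.2) := PTF.id.fst.snd
  have h2 : PTF (fun p : (α × Cst) × ℕ => p.2) := PTF.id.snd
  exact PTF.cons (ptf_cv h1 h2) (PTF.cons (ptf_uv h1.fst h2) (PTF.cons (ptf_uv h1.fst h2)
    (PTF.cons (ptf_uv h1.snd.fst h2) (PTF.cons (ptf_uv h1.snd.fst h2) (PTF.const [])))))

lemma ptf_gadget {C : α → List Cst} (hC : PTF C) : PTF (fun a => gadget (C a)) :=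
  PTF.pair (PTF.length (ptf_vlist hC)) (ptf_edges (ptf_vlist hC))

/-! ### The equations -/

lemma ptf_xn {s : Bool} {i : α → ℕ} (hi : PTF i) : PTF (fun a => xn s (i a)) := by
  cases s
  · exact PTF.add (PTF.mul (PTF.const 4) hi) (PTF.const 2)
  · exact PTF.add (PTF.mul (PTF.const 4) hi) (PTF.const 1)

lemma ptf_gn {s : Bool} {i : α → ℕ} (hi : PTF i) : PTF (fun a => gn s (i a)) := by
  cases s
  · exact PTF.add (PTF.mul (PTF.const 4) hi) (PTF.const 4)
  · exact PTF.add (PTF.mul (PTF.const 4) hi) (PTF.const 3)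

lemma ptf_tm {s : α → Bool} {j a b : α → ℕ} (hs : PTF s) (hj : PTF j) (ha : PTF a) (hb : PTF b) :
    PTF (fun x => ((s x, j x, a x, b x) : Tm)) := PTF.pair hs (PTF.pair hj (PTF.pair ha hb))

lemma ptf_bterms {c : α → BInt} {sh a b : α → ℕ} (hc : PTF c) (hsh : PTF sh) (ha : PTF a)
    (hb : PTF b) : PTF (fun x => bterms (c x) (sh x) (a x) (b x)) := by
  unfold bterms
  refine PTF.map (f := fun x j => ((c x).1, j + sh x, a x, b x)) ?_
    (ptf_tm (hc.fst.comp PTF.id.fst) (PTF.add PTF.id.snd (hsh.comp PTF.id.fst))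
      (ha.comp PTF.id.fst) (hb.comp PTF.id.fst))
  refine PTF.filter (f := fun x j => ((c x).2[j]?).getD false) (PTF.range (PTF.length hc.snd)) ?_
  exact ptf_getD (PTF.getElem? PTF.id.snd (hc.snd.comp PTF.id.fst)) (PTF.const _)

lemma ptf_entry {A : α → List (List BInt)} {i j : α → ℕ} (hA : PTF A) (hi : PTF i) (hj : PTF j) :
    PTF (fun x => entry (A x) (i x) (j x)) :=
  ptf_getD (PTF.getElem? hj (ptf_getD (PTF.getElem? hi hA) (PTF.const _))) (PTF.const _)

lemma ptf_tauE {N : α → ℕ} (hN : PTF N) : PTF (fun x => tauE (N x)) := by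
  unfold tauE
  refine PTF.cons (PTF.const _) ?_
  refine PTF.map (f := fun _ l => [(true, 0, 0, 0), (true, 0, gn true l, gn false l),
    (false, 0, gn true (l + 1), 0), (false, 0, gn false (l + 1), 0)]) (PTF.range hN) ?_
  have h : PTF (fun p : α × ℕ => p.2) := PTF.id.snd
  have h' : PTF (fun p : α × ℕ => p.2 + 1) := PTF.succ h
  exact PTF.cons (PTF.const _) (PTF.cons (ptf_tm (PTF.const _) (PTF.const _) (ptf_gn h) (ptf_gn h))
    (PTF.cons (ptf_tm (PTF.const _) (PTF.const _) (ptf_gn h') (PTF.const _))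
    (PTF.cons (ptf_tm (PTF.const _) (PTF.const _) (ptf_gn h') (PTF.const _)) (PTF.const []))))

lemma ptf_eqE {N n : α → ℕ} {a : α → List (List BInt) × BInt} (hN : PTF N) (hn : PTF n)
    (ha : PTF a) : PTF (fun x => eqE (N x) (n x) (a x)) := by
  unfold eqE
  refine PTF.append ?_ (PTF.append ?_ ?_)
  · refine PTF.flatMap (f := fun x i => (List.range (n x)).flatMap fun j =>
      bterms (entry (a x).1 i j) 0 (xn true i) (xn true j) ++
      (bterms (entry (a x).1 i j) 0 (xn true i) (xn false j) ++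
      (bterms (entry (a x).1 i j) 0 (xn false i) (xn true j) ++
      bterms (entry (a x).1 i j) 0 (xn false i) (xn false j)))) (PTF.range hn) ?_
    refine PTF.flatMap (f := fun (p : α × ℕ) j =>
      bterms (entry (a p.1).1 p.2 j) 0 (xn true p.2) (xn true j) ++
      (bterms (entry (a p.1).1 p.2 j) 0 (xn true p.2) (xn false j) ++
      (bterms (entry (a p.1).1 p.2 j) 0 (xn false p.2) (xn true j) ++
      bterms (entry (a p.1).1 p.2 j) 0 (xn false p.2) (xn false j))))
      (PTF.range (hn.comp PTF.id.fst)) ?_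
    have h1 : PTF (fun p : (α × ℕ) × ℕ => (a p.1.1).1) := ha.fst.comp PTF.id.fst.fst
    have h2 : PTF (fun p : (α × ℕ) × ℕ => p.1.2) := PTF.id.fst.snd
    have h3 : PTF (fun p : (α × ℕ) × ℕ => p.2) := PTF.id.snd
    have h4 := ptf_entry h1 h2 h3
    have h0 : PTF (fun _ : (α × ℕ) × ℕ => 0) := PTF.const _
    exact PTF.append (ptf_bterms h4 h0 (ptf_xn h2) (ptf_xn h3))
      (PTF.append (ptf_bterms h4 h0 (ptf_xn h2) (ptf_xn h3))
      (PTF.append (ptf_bterms h4 h0 (ptf_xn h2) (ptf_xn h3))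
      (ptf_bterms h4 h0 (ptf_xn h2) (ptf_xn h3))))
  · exact ptf_bterms (PTF.pair (PTF.not ha.snd.fst) ha.snd.snd) (PTF.const _) (ptf_gn hN)
      (PTF.const _)
  · exact ptf_bterms (PTF.pair (PTF.not ha.snd.fst) ha.snd.snd) (PTF.const _) (ptf_gn hN)
      (PTF.const _)

lemma ptf_sdpE {N : α → ℕ} {I : α → SDP} (hN : PTF N) (hI : PTF I) :
    PTF (fun x => sdpE (N x) (I x)) := by
  unfold sdpE
  refine PTF.append (ptf_tauE hN) ?_
  refine PTF.map (f := fun x a => eqE (N x) (I x).1 a) hI.snd ?_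
  exact ptf_eqE (hN.comp PTF.id.fst) (hI.fst.comp PTF.id.fst) PTF.id.snd

lemma ptf_NB {k τ : α → ℕ} (hk : PTF k) (hτ : PTF τ) : PTF (fun x => NB (k x) (τ x)) := by
  unfold NB
  have h1 : ∀ c, PTF (fun _ : α => c) := fun c : ℕ => PTF.const c
  have h2 : PTF (fun x => 1 + (k x + 1) * (k x + 4)) :=
    PTF.add (h1 1) (PTF.mul (PTF.add hk (h1 1)) (PTF.add hk (h1 4)))
  exact PTF.add h2 (PTF.add (PTF.add (PTF.add (h1 1)
    (PTF.mul (PTF.mul (h1 2) (PTF.add hk (h1 2))) h2)) (PTF.mul hτ (PTF.add hk (h1 2))))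
    (PTF.mul (PTF.add (h1 1) h2) hk))

/-! ### The reduction from semidefinite feasibility -/

/-- The number of squarings. -/
def NS (I : SDP) : ℕ := NB (I.1 * I.1) (9 * (enc I).length + 5)

/-- The equations of the reduction. -/
def redE (I : SDP) : List (List Tm) := sdpE (NS I) I

/-- The number of halvings. -/
def KE (E : List (List Tm)) : ℕ := 4 * (enc E).length + 1

/-- The reduction from semidefinite feasibility to the theta body problem. -/
def red (I : SDP) : ℕ × List (ℕ × ℕ) := gadget (linC (KE (redE I)) (redE I))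

theorem ptf_red : PTF red := by
  have h1 : PTF (fun I : SDP => NS I) := by
    unfold NS
    exact ptf_NB (PTF.mul PTF.id.fst PTF.id.fst) (PTF.add (PTF.mul (PTF.const 9)
      (PTF.codeLength PTF.id)) (PTF.const 5))
  have h2 : PTF (fun I : SDP => redE I) := ptf_sdpE h1 PTF.id
  have h3 : PTF (fun I : SDP => KE (redE I)) :=
    PTF.add (PTF.mul (PTF.const 4) (PTF.codeLength h2)) (PTF.const 1)
  exact ptf_gadget (ptf_linC h3 h2)

end Pool.Agent.Helper92.Theta
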