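import Mathlib
import Pool.Agent.Helper92.Theta.Poly

/-!
# Correctness of the reductions
-/

open Pool.Agent.Helper91.PolyTime

namespace Pool.Agent.Helper92.Theta

variable {α β γ : Type} [PEnc α] [PEnc β] [PEnc γ]

lemma enc_fst_le (x : α × β) : (enc x.1).length ≤ (enc x).length := by
  have := length_enc_prod x.1 x.2
  rw [Prod.mk.eta] at this
  omega

lemma enc_snd_le (x : α × β) : (enc x.2).length ≤ (enc x).length := by
  have := length_enc_prod x.1 x.2
  rw [Prod.mk.eta] at this
  omega

lemma bint_length_le (z : BInt) : z.2.length ≤ (enc z).length :=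
  (length_le_enc z.2).trans (enc_snd_le z)

lemma entry_length_le (A : List (List BInt)) (i j : ℕ) :
    (entry A i j).2.length ≤ (enc A).length := by
  unfold entry
  cases h1 : A[i]? with
  | none => simp
  | some r =>
    rw [Option.getD_some]
    cases h2 : r[j]? with
    | none => simp
    | some c =>
      rw [Option.getD_some]
      exact (bint_length_le c).trans ((enc_mem_le (List.mem_of_getElem? h2)).trans
        (enc_mem_le (List.mem_of_getElem? h1)))

theorem red_iff (I : SDP) : I ∈ SDPFeas ↔ red I ∈ Theta8 := by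
  have hC : ∀ c ∈ linC (KE (redE I)) (redE I), c.2.2 ≤ 4 := by
    intro c hc
    rcases List.mem_append.1 hc with hc | hc
    · have : ∀ c ∈ baseC, c.2.2 ≤ 4 := by
        simp only [baseC, List.forall_mem_cons]
        simp
      exact this c hc
    · obtain ⟨k, -, hc⟩ := List.mem_flatMap.1 hc
      rw [eqC, List.mem_cons, List.mem_cons, List.mem_flatMap] at hc
      rcases hc with rfl | rfl | ⟨m, -, hc⟩
      · simp
      · simp
      · rcases List.mem_append.1 hc with hc | hc
        · have : ∀ c ∈ termC (KE (redE I)) k m (((((redE I)[k]?).getD [])[m]?).getD tm0),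
              c.2.2 ≤ 4 := by
            simp only [termC, List.forall_mem_cons]
            refine ⟨?_, ?_, ?_, ?_, ?_, ?_, ?_, ?_, ?_, ?_, ?_, ?_, ?_, ?_, ?_, ?_, ?_, ?_, ?_,
              ?_, ?_, ?_, ?_, ?_, ?_, ?_, ?_, ?_, ?_, ?_, ?_, ?_, ?_, ?_, ?_, ?_⟩
            all_goals try simp
            rename_i h
            cases (((((redE I)[k]?).getD [])[m]?).getD tm0).1 <;> simp
          exact this c hc
        · obtain ⟨i, -, hc⟩ := List.mem_flatMap.1 hc
          have : ∀ x y i, ∀ c ∈ chainC x y i, c.2.2 ≤ 4 := by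
            intro x y i
            simp [chainC]
          exact this _ _ _ c hc
  have hK : ∀ e ∈ redE I, ∀ τ ∈ e, τ.2.1 ≤ (enc (redE I)).length := by
    intro e he τ hτ
    have h1 : τ.2.1 ≤ (enc τ).length := by
      have h2 := length_enc_nat τ.2.1
      have h3 := enc_fst_le τ.2
      have h4 := enc_snd_le τ
      omega
    exact h1.trans ((enc_mem_le hτ).trans (enc_mem_le he))
  have hlen : (redE I).length ≤ (enc (redE I)).length := length_le_enc _
  constructor
  · intro h
    have h1 : BFeas (NS I) I := by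
      refine bfeas_of_feas I _ ?_ ?_ ?_ h
      · have h2 := length_enc_nat I.1
        have h3 := enc_fst_le I
        omega
      · exact (length_le_enc I.2).trans (enc_snd_le I)
      · intro a ha
        have h2 : (enc a).length ≤ (enc I).length := (enc_mem_le ha).trans (enc_snd_le I)
        refine ⟨(bint_length_le a.2).trans ((enc_snd_le a).trans h2), fun i j => ?_⟩
        exact (entry_length_le a.1 i j).trans ((enc_fst_le a).trans h2)
    have h2 : USat (redE I) := usat_of_sdp (NS I) I h1
    have h3 : GSat (linC (KE (redE I)) (redE I)) := by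
      refine lin_of_usat (KE (redE I)) (enc (redE I)).length (redE I) ?_ ?_ ?_ h2
      · intro e he
        exact (length_le_enc e).trans (enc_mem_le he)
      · unfold KE; omega
      · intro e he τ hτ
        have := hK e he τ hτ
        unfold KE; omega
    exact gadget_of_gsat _ hC h3
  · intro h
    have h1 := gsat_of_gadget _ hC h
    have h2 := usat_of_lin (KE (redE I)) (redE I) (fun e he τ hτ => by
      have := hK e he τ hτ
      unfold KE; omega) h1
    exact sdp_of_usat (NS I) I h2

/-! ### Polynomial-time computability of the easy reductions -/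

theorem ptf_toTH : PTF toTH := by
  unfold toTH
  refine PTF.pair ?_ PTF.id.snd
  exact PTF.map (f := fun (_ : ℕ × List (ℕ × ℕ)) (_ : ℕ) => eighth) (PTF.range PTF.id.fst)
    (PTF.const _)

lemma ptf_single {N a b : α → ℕ} {c : α → BInt} (hN : PTF N) (ha : PTF a) (hb : PTF b)
    (hc : PTF c) : PTF (fun x => single (N x) (a x) (b x) (c x)) := by
  unfold single
  refine PTF.map (f := fun x i => (List.range (N x)).map fun j =>
    if i = a x ∧ j = b x then c x else (true, [])) (PTF.range hN) ?_
  refine PTF.map (f := fun (p : α × ℕ) j =>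
    if p.2 = a p.1 ∧ j = b p.1 then c p.1 else (true, [])) (PTF.range (hN.comp PTF.id.fst)) ?_
  exact PTF.ite (PTF.decide_and (PTF.eq PTF.id.fst.snd (ha.comp PTF.id.fst.fst))
    (PTF.eq PTF.id.snd (hb.comp PTF.id.fst.fst))) (hc.comp PTF.id.fst.fst) (PTF.const _)

theorem ptf_toSDP : PTF toSDP := by
  unfold toSDP
  have hlen : PTF (fun J : List (BInt × List Bool) × List (ℕ × ℕ) => J.1.length) :=
    PTF.length PTF.id.fst
  have hlen1 : PTF (fun J : List (BInt × List Bool) × List (ℕ × ℕ) => J.1.length + 1) :=
    PTF.succ hlen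
  refine PTF.cond ?_ (PTF.const _) (PTF.pair hlen1 (PTF.cons ?_ (PTF.append ?_ ?_)))
  · refine PTF.any (f := fun (_ : List (BInt × List Bool) × List (ℕ × ℕ))
      (z : BInt × List Bool) => isZ z.2) PTF.id.fst ?_
    unfold isZ
    exact PTF.all (f := fun (_ : (List (BInt × List Bool) × List (ℕ × ℕ)) × BInt × List Bool)
      (b : Bool) => !b) PTF.id.snd.snd (PTF.not PTF.id.snd)
  · exact PTF.pair (ptf_single hlen1 (PTF.const 0) (PTF.const 0) (PTF.const _)) (PTF.const _)
  · unfold coordE
    refine PTF.flatMap (f := fun (J : List (BInt × List Bool) × List (ℕ × ℕ)) i =>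
      [(single (J.1.length + 1) 0 (i + 1) (true, ((J.1[i]?).getD eighth).2),
          ((J.1[i]?).getD eighth).1),
        (single (J.1.length + 1) (i + 1) (i + 1) (true, ((J.1[i]?).getD eighth).2),
          ((J.1[i]?).getD eighth).1)]) (PTF.range hlen) ?_
    have h1 : PTF (fun p : (List (BInt × List Bool) × List (ℕ × ℕ)) × ℕ =>
        (p.1.1[p.2]?).getD eighth) := ptf_getD (PTF.getElem? PTF.id.snd PTF.id.fst.fst)
          (PTF.const _)
    have h2 : PTF (fun p : (List (BInt × List Bool) × List (ℕ × ℕ)) × ℕ =>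
        p.1.1.length + 1) := hlen1.comp PTF.id.fst
    have h3 : PTF (fun p : (List (BInt × List Bool) × List (ℕ × ℕ)) × ℕ => p.2 + 1) :=
      PTF.succ PTF.id.snd
    exact PTF.cons (PTF.pair (ptf_single h2 (PTF.const 0) h3 (PTF.pair (PTF.const true) h1.snd))
      h1.fst) (PTF.cons (PTF.pair (ptf_single h2 h3 h3 (PTF.pair (PTF.const true) h1.snd))
      h1.fst) (PTF.const []))
  · unfold edgeE
    refine PTF.map (f := fun (J : List (BInt × List Bool) × List (ℕ × ℕ)) (p : ℕ × ℕ) =>
      (single (J.1.length + 1) (p.1 + 1) (p.2 + 1) (true, [true]), (true, []))) ?_ ?_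
    · exact PTF.filter (f := fun (_ : List (BInt × List Bool) × List (ℕ × ℕ)) (p : ℕ × ℕ) =>
        !decide (p.1 = p.2)) PTF.id.snd
        (PTF.not (PTF.eq PTF.id.snd.fst PTF.id.snd.snd))
    · exact PTF.pair (ptf_single (hlen1.comp PTF.id.fst) (PTF.succ PTF.id.snd.fst)
        (PTF.succ PTF.id.snd.snd) (PTF.const _)) (PTF.const _)

end Pool.Agent.Helper92.Theta
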