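import Mathlib
import Pool.Agent.Helper92.Theta.Main

/-!
# Vector colourings, and sums of square roots
-/

open scoped InnerProductSpace
open Pool.Agent.Helper91.PolyTime

namespace Pool.Agent.Helper92.Theta

variable {α : Type} [PEnc α]

/-- The vector `(1/8, …, 1/8)` and vector colourings. -/
theorem theta8_iff_vec (n : ℕ) (G : SimpleGraph (Fin n)) :
    (fun _ : Fin n => (1 / 8 : ℝ)) ∈ TH G ↔
      ∃ (m : ℕ) (v : Fin n → EuclideanSpace ℝ (Fin m)), (∀ i, ‖v i‖ = 1) ∧
        ∀ i j, G.Adj i j → ⟪v i, v j⟫_ℝ = - 1 / 7 := by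
  rw [th_iff]
  constructor
  · rintro ⟨H, _, _, y₀, y, h0, h1, h2⟩
    set w : Fin n → H := fun i => (1 / Real.sqrt 7) • ((8 : ℝ) • y i - y₀) with hw
    have hs : Real.sqrt 7 * Real.sqrt 7 = 7 := Real.mul_self_sqrt (by norm_num)
    have hs0 : Real.sqrt 7 ≠ 0 := by positivity
    have h1' : ∀ i, ⟪y i, y₀⟫_ℝ = 1 / 8 := fun i => by rw [real_inner_comm]; exact (h1 i).1
    have hs2 : 1 / Real.sqrt 7 * (1 / Real.sqrt 7) = 1 / 7 := by
      rw [div_mul_div_comm, one_mul, hs]
    have e1 : ∀ i j, ⟪w i, w j⟫_ℝ = (64 * ⟪y i, y j⟫_ℝ - 1) / 7 := by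
      intro i j
      simp only [hw, inner_smul_left, inner_smul_right, inner_sub_left, inner_sub_right, h0, h1',
        (h1 _).1, RCLike.conj_to_real]
      linear_combination (64 * ⟪y i, y j⟫_ℝ - 1) * hs2
    obtain ⟨m, v, hv⟩ := exists_vectors (gram_posSemidef w)
    refine ⟨m, v, fun i => ?_, fun i j hij => ?_⟩
    · have h3 : ‖v i‖ ^ 2 = 1 := by
        rw [← real_inner_self_eq_norm_sq, hv, Matrix.of_apply, e1, (h1 i).2]
        norm_num
      have h4 : (0 : ℝ) ≤ ‖v i‖ := norm_nonneg _
      nlinarith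
    · rw [hv, Matrix.of_apply, e1, h2 i j hij]
      norm_num
  · rintro ⟨m, v, hv, hadj⟩
    obtain ⟨H, _, _, e, b, he, hb, heb, hbe⟩ := exists_ext (EuclideanSpace ℝ (Fin m)) Unit
    have hs : Real.sqrt 7 * Real.sqrt 7 = 7 := Real.mul_self_sqrt (by norm_num)
    have hbb : ⟪b (), b ()⟫_ℝ = 1 := by rw [hb, if_pos rfl]
    have hvv : ∀ i, ⟪v i, v i⟫_ℝ = 1 := fun i => by
      rw [real_inner_self_eq_norm_sq, hv]; norm_num
    refine ⟨H, inferInstance, inferInstance, b (),
      fun i => (1 / 8 : ℝ) • (b () + Real.sqrt 7 • e (v i)), hbb, fun i => ⟨?_, ?_⟩, ?_⟩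
    · simp only [inner_smul_right, inner_add_right, hbb, hbe]
      ring
    · simp only [inner_smul_left, inner_smul_right, inner_add_left, inner_add_right, hbb, hbe,
        heb, he, hvv, RCLike.conj_to_real]
      linear_combination (1 / 64) * hs
    · intro i j hij
      simp only [inner_smul_left, inner_smul_right, inner_add_left, inner_add_right, hbb, hbe,
        heb, he, hadj i j hij, RCLike.conj_to_real]
      linear_combination (-1 / 448) * hs

/-- Sums of square roots: is the sum of the square roots of the given natural numbers at least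
the given natural number? -/
def SqrtSum : Set (List (List Bool) × List Bool) :=
  {J | (bval J.2 : ℝ) ≤ (J.1.map fun a => Real.sqrt (bval a)).sum}

/-- The matrix of the objective. -/
def objM (m : ℕ) : List (List BInt) :=
  (List.range (2 * m + 1)).map fun i => (List.range (2 * m + 1)).map fun j =>
    if i < m ∧ j = i + m then (true, [true]) else
      if i = 2 * m ∧ j = 2 * m then (false, [true]) else (true, [])

/-- The semidefinite system for a sum of square roots. -/
def sqrtSDP (J : List (List Bool) × List Bool) : SDP :=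
  (2 * J.1.length + 1, (objM J.1.length, (true, J.2)) ::
    (List.range J.1.length).flatMap fun i =>
      [(single (2 * J.1.length + 1) i i (true, [true]), (true, [true])),
        (single (2 * J.1.length + 1) (i + J.1.length) (i + J.1.length) (true, [true]),
          (true, (J.1[i]?).getD []))])

lemma objM_val (m : ℕ) (X : Matrix (Fin (2 * m + 1)) (Fin (2 * m + 1)) ℝ) :
    ∑ i : Fin (2 * m + 1), ∑ j : Fin (2 * m + 1), (ival (entry (objM m) i j) : ℝ) * X i j =
      (∑ i : Fin m, X ⟨i, by omega⟩ ⟨i + m, by omega⟩) -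
        X ⟨2 * m, by omega⟩ ⟨2 * m, by omega⟩ := by
  have h1 : ∀ i j : Fin (2 * m + 1), (ival (entry (objM m) i j) : ℝ) * X i j =
      (∑ l : Fin m, (ival (entry (single (2 * m + 1) l (l + m) (true, [true])) i j) : ℝ) *
        X i j) - (ival (entry (single (2 * m + 1) (2 * m) (2 * m) (true, [true])) i j) : ℝ) *
        X i j := by
    intro i j
    have h2 : entry (objM m) i j = if (i : ℕ) < m ∧ (j : ℕ) = i + m then (true, [true]) else
        if (i : ℕ) = 2 * m ∧ (j : ℕ) = 2 * m then (false, [true]) else (true, []) := by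
      rw [entry, objM, List.getElem?_map, List.getElem?_range i.2, Option.map_some,
        Option.getD_some, List.getElem?_map, List.getElem?_range j.2, Option.map_some,
        Option.getD_some]
    rw [h2]
    simp only [entry_single]
    rw [← Finset.sum_mul, ← sub_mul]
    congr 1
    by_cases hi : (i : ℕ) < m ∧ (j : ℕ) = i + m
    · rw [if_pos hi, Finset.sum_eq_single ⟨i, hi.1⟩, if_pos (by simpa using hi.2), if_neg]
      · simp
      · omega
      · intro l _ hl
        rw [if_neg]
        rintro ⟨h3, -⟩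
        exact hl (Fin.ext h3.symm)
      · intro h; exact absurd (Finset.mem_univ _) h
    · rw [if_neg hi, Finset.sum_eq_zero]
      · split_ifs <;> simp [ival, bval]
      · intro l _
        rw [if_neg]
        rintro ⟨h3, h4⟩
        have := l.2
        exact hi ⟨by omega, by omega⟩
  simp only [h1, Finset.sum_sub_distrib]
  congr 1
  · simp only [Finset.sum_comm (s := (Finset.univ : Finset (Fin (2 * m + 1))))
      (t := (Finset.univ : Finset (Fin m)))]
    refine Finset.sum_congr rfl fun l _ => ?_
    have := l.2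
    rw [sum_single (2 * m + 1) l (l + m) _ (by omega) (by omega), ival_one]
    simp
  · rw [sum_single (2 * m + 1) (2 * m) (2 * m) _ (by omega) (by omega), ival_one]
    simp

theorem sqrtSDP_iff (J : List (List Bool) × List Bool) : J ∈ SqrtSum ↔ sqrtSDP J ∈ SDPFeas := by
  obtain ⟨as, b⟩ := J
  set m := as.length with hm
  have h1 : sqrtSDP (as, b) = (2 * m + 1, (objM m, (true, b)) ::
      (List.range m).flatMap fun i =>
        [(single (2 * m + 1) i i (true, [true]), (true, [true])),
          (single (2 * m + 1) (i + m) (i + m) (true, [true]), (true, (as[i]?).getD []))]) := rfl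
  rw [h1]
  have hget : ∀ i : Fin m, (as[(i : ℕ)]?).getD [] = as[(i : ℕ)] := by
    intro i
    have := i.2
    rw [List.getElem?_eq_getElem (by omega), Option.getD_some]
  have hsum : (as.map fun a => Real.sqrt (bval a)).sum =
      ∑ i : Fin m, Real.sqrt (bval as[(i : ℕ)]) := by
    rw [← List.sum_ofFn]
    congr 1
    apply List.ext_getElem
    · simp [hm]
    · intro i h2 h3
      simp
  -- the meaning of the equations
  have key : ∀ X : Matrix (Fin (2 * m + 1)) (Fin (2 * m + 1)) ℝ,
      Solves (2 * m + 1, (objM m, (true, b)) :: (List.range m).flatMap fun i =>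
        [(single (2 * m + 1) i i (true, [true]), (true, [true])),
          (single (2 * m + 1) (i + m) (i + m) (true, [true]), (true, (as[i]?).getD []))]) X ↔
      ((∑ i : Fin m, X ⟨i, by omega⟩ ⟨i + m, by omega⟩) -
        X ⟨2 * m, by omega⟩ ⟨2 * m, by omega⟩ = bval b) ∧
      ∀ i : Fin m, X ⟨i, by omega⟩ ⟨i, by omega⟩ = 1 ∧
        X ⟨i + m, by omega⟩ ⟨i + m, by omega⟩ = bval as[(i : ℕ)] := by
    intro X
    constructor
    · intro h
      refine ⟨?_, fun i => ⟨?_, ?_⟩⟩
      · have h2 := h (objM m, (true, b)) (by simp)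
        rw [objM_val, ival_true] at h2
        exact_mod_cast h2
      · have h2 := h (single (2 * m + 1) i i (true, [true]), (true, [true])) (by
          refine List.mem_cons_of_mem _ (List.mem_flatMap.2 ⟨i, List.mem_range.2 i.2, ?_⟩)
          simp)
        rw [sum_single _ _ _ _ (by omega) (by omega), ival_one, Int.cast_one, one_mul] at h2
        exact h2
      · have h2 := h (single (2 * m + 1) (i + m) (i + m) (true, [true]),
          (true, as[(i : ℕ)])) (by
          refine List.mem_cons_of_mem _ (List.mem_flatMap.2 ⟨i, List.mem_range.2 i.2, ?_⟩)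
          rw [hget i]
          simp)
        rw [sum_single _ _ _ _ (by omega) (by omega), ival_one, Int.cast_one, one_mul,
          ival_true] at h2
        exact_mod_cast h2
    · rintro ⟨h2, h3⟩ a ha
      rcases List.mem_cons.1 ha with rfl | ha
      · simp only
        rw [objM_val, ival_true, h2]
        simp
      · obtain ⟨i, hi, ha⟩ := List.mem_flatMap.1 ha
        have hi' : i < m := List.mem_range.1 hi
        have h4 : (as[i]?).getD [] = as[i] := hget ⟨i, hi'⟩
        rw [h4] at ha
        simp only [List.mem_cons, List.not_mem_nil, or_false] at ha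
        rcases ha with rfl | rfl
        · simp only
          rw [sum_single _ _ _ _ (by omega) (by omega), ival_one, (h3 ⟨i, hi'⟩).1]
          simp
        · simp only
          rw [sum_single _ _ _ _ (by omega) (by omega), ival_one, ival_true,
            (h3 ⟨i, hi'⟩).2]
          simp
  constructor
  · intro h
    have h' : (bval b : ℝ) ≤ ∑ i : Fin m, Real.sqrt (bval as[(i : ℕ)]) := by
      rw [← hsum]; exact h
    -- the vectors
    set r : ℝ := Real.sqrt ((∑ i : Fin m, Real.sqrt (bval as[(i : ℕ)])) - bval b) with hr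
    have hr2 : r * r = (∑ i : Fin m, Real.sqrt (bval as[(i : ℕ)])) - bval b :=
      Real.mul_self_sqrt (by linarith)
    set y : Fin (2 * m + 1) → EuclideanSpace ℝ (Fin (m + 1)) := fun i =>
      if h : (i : ℕ) < m then EuclideanSpace.single ⟨i, by omega⟩ (1 : ℝ) else
      if h' : (i : ℕ) < 2 * m then EuclideanSpace.single ⟨i - m, by omega⟩
        (Real.sqrt (bval (as[(i : ℕ) - m]'(by omega)))) else
      EuclideanSpace.single ⟨m, by omega⟩ r with hy
    have y1 : ∀ i : Fin m, y ⟨i, by omega⟩ = EuclideanSpace.single ⟨i, by omega⟩ (1 : ℝ) := by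
      intro i
      simp only [hy, i.2, dif_pos]
    have y2 : ∀ i : Fin m, y ⟨i + m, by omega⟩ = EuclideanSpace.single ⟨i, by omega⟩
        (Real.sqrt (bval as[(i : ℕ)])) := by
      intro i
      have h2 : ¬ ((i : ℕ) + m < m) := by omega
      have h3 : (i : ℕ) + m < 2 * m := by omega
      simp only [hy, dif_neg h2, dif_pos h3, Nat.add_sub_cancel]
    have y3 : y ⟨2 * m, by omega⟩ = EuclideanSpace.single ⟨m, by omega⟩ r := by
      have h2 : ¬ (2 * m < m) := by omega
      have h3 : ¬ (2 * m < 2 * m) := by omega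
      simp only [hy, dif_neg h2, dif_neg h3]
    refine ⟨Matrix.of fun i j => ⟪y i, y j⟫_ℝ, gram_posSemidef y, (key _).2 ⟨?_, fun i => ⟨?_, ?_⟩⟩⟩
    · simp only [Matrix.of_apply, y1, y2, y3]
      have h2 : ∀ i : Fin m, ⟪(EuclideanSpace.single ⟨i, by omega⟩ (1 : ℝ) :
          EuclideanSpace ℝ (Fin (m + 1))), EuclideanSpace.single ⟨i, by omega⟩
            (Real.sqrt (bval as[(i : ℕ)]))⟫_ℝ = Real.sqrt (bval as[(i : ℕ)]) := by
        intro i
        rw [EuclideanSpace.inner_single_left]
        simp
      rw [Finset.sum_congr rfl fun i _ => h2 i, EuclideanSpace.inner_single_left]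
      simp
      rw [hr2]
      ring
    · simp only [Matrix.of_apply, y1]
      rw [EuclideanSpace.inner_single_left]
      simp
    · simp only [Matrix.of_apply, y2]
      rw [EuclideanSpace.inner_single_left]
      simp
  · rintro ⟨X, hX, hs⟩
    obtain ⟨h2, h3⟩ := (key X).1 hs
    obtain ⟨k, y, hy⟩ := exists_vectors hX
    have h4 : ∀ i : Fin m, X ⟨i, by omega⟩ ⟨i + m, by omega⟩ ≤ Real.sqrt (bval as[(i : ℕ)]) := by
      intro i
      have h5 : X ⟨i, by omega⟩ ⟨i + m, by omega⟩ * X ⟨i, by omega⟩ ⟨i + m, by omega⟩ ≤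
          X ⟨i, by omega⟩ ⟨i, by omega⟩ * X ⟨i + m, by omega⟩ ⟨i + m, by omega⟩ := by
        rw [← hy, ← hy, ← hy]
        exact real_inner_mul_inner_self_le _ _
      rw [(h3 i).1, (h3 i).2, one_mul] at h5
      exact Real.le_sqrt_of_sq_le (by rw [sq]; exact h5)
    have h5 : 0 ≤ X ⟨2 * m, by omega⟩ ⟨2 * m, by omega⟩ := by
      rw [← hy]; exact real_inner_self_nonneg
    change (bval b : ℝ) ≤ (as.map fun a => Real.sqrt (bval a)).sum
    rw [hsum]
    have h6 := Finset.sum_le_sum fun i (_ : i ∈ (Finset.univ : Finset (Fin m))) => h4 i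
    linarith

lemma ptf_objM {m : α → ℕ} (hm : PTF m) : PTF (fun x => objM (m x)) := by
  unfold objM
  have hn : PTF (fun x => 2 * m x + 1) := PTF.succ (PTF.mul (PTF.const 2) hm)
  refine PTF.map (f := fun x i => (List.range (2 * m x + 1)).map fun j =>
    if i < m x ∧ j = i + m x then ((true, [true]) : BInt) else
      if i = 2 * m x ∧ j = 2 * m x then (false, [true]) else (true, [])) (PTF.range hn) ?_
  refine PTF.map (f := fun (p : α × ℕ) j =>
    if p.2 < m p.1 ∧ j = p.2 + m p.1 then ((true, [true]) : BInt) else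
      if p.2 = 2 * m p.1 ∧ j = 2 * m p.1 then (false, [true]) else (true, []))
    (PTF.range (hn.comp PTF.id.fst)) ?_
  have hm2 : PTF (fun p : (α × ℕ) × ℕ => m p.1.1) := hm.comp PTF.id.fst.fst
  have h1 : PTF (fun p : (α × ℕ) × ℕ => p.1.2) := PTF.id.fst.snd
  have h2 : PTF (fun p : (α × ℕ) × ℕ => p.2) := PTF.id.snd
  have h3 : PTF (fun p : (α × ℕ) × ℕ => 2 * m p.1.1) := PTF.mul (PTF.const 2) hm2
  exact PTF.ite (PTF.decide_and (PTF.lt h1 hm2) (PTF.eq h2 (PTF.add h1 hm2))) (PTF.const _)
    (PTF.ite (PTF.decide_and (PTF.eq h1 h3) (PTF.eq h2 h3)) (PTF.const _) (PTF.const _))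

theorem ptf_sqrtSDP : PTF sqrtSDP := by
  unfold sqrtSDP
  have hm : PTF (fun J : List (List Bool) × List Bool => J.1.length) := PTF.length PTF.id.fst
  have hn : PTF (fun J : List (List Bool) × List Bool => 2 * J.1.length + 1) :=
    PTF.succ (PTF.mul (PTF.const 2) hm)
  refine PTF.pair hn (PTF.cons (PTF.pair (ptf_objM hm) (PTF.pair (PTF.const true) PTF.id.snd)) ?_)
  refine PTF.flatMap (f := fun (J : List (List Bool) × List Bool) i =>
      [(single (2 * J.1.length + 1) i i (true, [true]), ((true, [true]) : BInt)),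
        (single (2 * J.1.length + 1) (i + J.1.length) (i + J.1.length) (true, [true]),
          (true, (J.1[i]?).getD []))]) (PTF.range hm) ?_
  have hm2 : PTF (fun p : (List (List Bool) × List Bool) × ℕ => p.1.1.length) :=
    hm.comp PTF.id.fst
  have hn2 : PTF (fun p : (List (List Bool) × List Bool) × ℕ => 2 * p.1.1.length + 1) :=
    hn.comp PTF.id.fst
  have h2 : PTF (fun p : (List (List Bool) × List Bool) × ℕ => p.2) := PTF.id.snd
  have h3 : PTF (fun p : (List (List Bool) × List Bool) × ℕ => (p.1.1[p.2]?).getD []) :=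
    ptf_getD (PTF.getElem? h2 PTF.id.fst.fst) (PTF.const _)
  exact PTF.cons (PTF.pair (ptf_single hn2 h2 h2 (PTF.const _)) (PTF.const _))
    (PTF.cons (PTF.pair (ptf_single hn2 (PTF.add h2 hm2) (PTF.add h2 hm2) (PTF.const _))
      (PTF.pair (PTF.const true) h3)) (PTF.const []))

end Pool.Agent.Helper92.Theta
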